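import Pool.Agent.SQ.HH.Defs
import Pool.Agent.SQ.T3.Tor

/-!
# SQ: the complex `P ⊗ (E₁ ⊗ E₂)` for two skew fields and a resolution of a bigger group

The group `K` is embedded in `Γ` by `l`; the chains are `(α → F_2[Γ]) ⊗ (E₁ ⊗ E₂)`.
-/

set_option autoImplicit false
set_option linter.unusedSectionVars false

open scoped TensorProduct

namespace SQ.HH.Two

open Singer SQ.Acr SQ.T3 SQ.T3.Tor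

/-- the chains -/
abbrev Tc (Γ E₁ E₂ : Type) [Group Γ] [DivisionRing E₁] [DivisionRing E₂] [Algebra (ZMod 2) E₁] [Algebra (ZMod 2) E₂]
    (α : Type) : Type :=
  (α → MonoidAlgebra (ZMod 2) Γ) ⊗[ZMod 2] (E₁ ⊗[ZMod 2] E₂)

section base
variable {Γ K : Type} [Group Γ] [Group K] {E₁ E₂ : Type} [DivisionRing E₁] [DivisionRing E₂] [Algebra (ZMod 2) E₁]
  [Algebra (ZMod 2) E₂]

/-- the action on `E₁ ⊗ E₂` -/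
noncomputable def ten (ρ₁ : K →* E₁ˣ) (ρ₂ : K →* E₂ˣ) : Representation (ZMod 2) K (E₁ ⊗[ZMod 2] E₂) :=
  (rm ρ₁).tprod (lmul ρ₂)

lemma ten_tmul (ρ₁ : K →* E₁ˣ) (ρ₂ : K →* E₂ˣ) (g : K) (x : E₁) (y : E₂) :
    ten ρ₁ ρ₂ g (x ⊗ₜ[ZMod 2] y) = (x * ((ρ₁ g⁻¹ : E₁ˣ) : E₁)) ⊗ₜ[ZMod 2] (((ρ₂ g : E₂ˣ) : E₂) * y) := rfl

/-- the action on the chains -/
noncomputable def sg (l : K →* Γ) (ρ₁ : K →* E₁ˣ) (ρ₂ : K →* E₂ˣ) (α : Type) :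
    Representation (ZMod 2) K (Tc Γ E₁ E₂ α) :=
  Representation.tprod ((Acr.lam α).comp l : Representation (ZMod 2) K (α → MonoidAlgebra (ZMod 2) Γ)) (ten ρ₁ ρ₂)

lemma sg_tmul (l : K →* Γ) (ρ₁ : K →* E₁ˣ) (ρ₂ : K →* E₂ˣ) {α : Type} (g : K) (p : α → MonoidAlgebra (ZMod 2) Γ)
    (x : E₁) (y : E₂) :
    sg l ρ₁ ρ₂ α g (p ⊗ₜ[ZMod 2] (x ⊗ₜ[ZMod 2] y)) =
      (Acr.lam α (l g) p) ⊗ₜ[ZMod 2] ((x * ((ρ₁ g⁻¹ : E₁ˣ) : E₁)) ⊗ₜ[ZMod 2] (((ρ₂ g : E₂ˣ) : E₂) * y)) := rfl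

lemma sg_eq (l : K →* Γ) (ρ₁ : K →* E₁ˣ) (ρ₂ : K →* E₂ˣ) (α : Type) (g : K) :
    sg l ρ₁ ρ₂ α g = sgl l (ten ρ₁ ρ₂) α g := rfl

lemma sg_d (l : K →* Γ) (ρ₁ : K →* E₁ˣ) (ρ₂ : K →* E₂ˣ) {α β : Type} [Fintype α] (P : Matrix α β (MonoidAlgebra ℤ Γ))
    (g : K) (z : Tc Γ E₁ E₂ α) :
    (dd P).rTensor (E₁ ⊗[ZMod 2] E₂) (sg l ρ₁ ρ₂ α g z) = sg l ρ₁ ρ₂ β g ((dd P).rTensor (E₁ ⊗[ZMod 2] E₂) z) := by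
  induction z using TensorProduct.induction_on with
  | zero => simp only [map_zero]
  | add x y hx hy => simp only [map_add, hx, hy]
  | tmul p y =>
    rw [sg, sg, Representation.tprod_apply, Representation.tprod_apply, TensorProduct.map_tmul, LinearMap.rTensor_tmul,
      LinearMap.rTensor_tmul, TensorProduct.map_tmul]
    congr 1
    exact dd_lam P (l g) p

/-- the chains with coefficients in two sets -/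
noncomputable def Ch (Γ : Type) [Group Γ] (α : Type) (A : Set E₁) (B : Set E₂) : Submodule (ZMod 2) (Tc Γ E₁ E₂ α) :=
  Submodule.span (ZMod 2) {z | ∃ p : α → MonoidAlgebra (ZMod 2) Γ, ∃ x ∈ A, ∃ y ∈ B, z = p ⊗ₜ[ZMod 2] (x ⊗ₜ[ZMod 2] y)}

lemma Ch.mk {α : Type} {A : Set E₁} {B : Set E₂} (p : α → MonoidAlgebra (ZMod 2) Γ) {x : E₁} {y : E₂} (hx : x ∈ A)
    (hy : y ∈ B) : p ⊗ₜ[ZMod 2] (x ⊗ₜ[ZMod 2] y) ∈ Ch Γ α A B := Submodule.subset_span ⟨p, x, hx, y, hy, rfl⟩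

/-- a linear map maps chains to a submodule if it does so on generators -/
lemma Ch.map {α : Type} {A : Set E₁} {B : Set E₂} {X : Type} [AddCommGroup X] [Module (ZMod 2) X]
    (f : Tc Γ E₁ E₂ α →ₗ[ZMod 2] X) (S : Submodule (ZMod 2) X)
    (h : ∀ p : α → MonoidAlgebra (ZMod 2) Γ, ∀ x ∈ A, ∀ y ∈ B, f (p ⊗ₜ[ZMod 2] (x ⊗ₜ[ZMod 2] y)) ∈ S)
    {z : Tc Γ E₁ E₂ α} (hz : z ∈ Ch Γ α A B) : f z ∈ S := by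
  refine Submodule.span_induction (p := fun z _ => f z ∈ S) ?_ (by rw [map_zero]; exact zero_mem _)
    (fun x y _ _ hx hy => by rw [map_add]; exact add_mem hx hy) (fun c x _ hx => by rw [map_smul]; exact S.smul_mem c hx) hz
  rintro _ ⟨p, x, hx, y, hy, rfl⟩
  exact h p x hx y hy

/-- two linear maps which agree on generators agree on chains -/
lemma Ch.eq {α : Type} {A : Set E₁} {B : Set E₂} {X : Type} [AddCommGroup X] [Module (ZMod 2) X]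
    (f g : Tc Γ E₁ E₂ α →ₗ[ZMod 2] X)
    (h : ∀ p : α → MonoidAlgebra (ZMod 2) Γ, ∀ x ∈ A, ∀ y ∈ B, f (p ⊗ₜ[ZMod 2] (x ⊗ₜ[ZMod 2] y)) =
      g (p ⊗ₜ[ZMod 2] (x ⊗ₜ[ZMod 2] y)))
    {z : Tc Γ E₁ E₂ α} (hz : z ∈ Ch Γ α A B) : f z = g z := by
  refine Submodule.span_induction (p := fun z _ => f z = g z) ?_ (by rw [map_zero, map_zero])
    (fun x y _ _ hx hy => by rw [map_add, hx, hy, map_add]) (fun c x _ hx => by rw [map_smul, hx, map_smul]) hz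
  rintro _ ⟨p, x, hx, y, hy, rfl⟩
  exact h p x hx y hy

lemma Ch.univ (α : Type) (z : Tc Γ E₁ E₂ α) : z ∈ Ch Γ α (Set.univ : Set E₁) (Set.univ : Set E₂) := by
  induction z using TensorProduct.induction_on with
  | zero => exact zero_mem _
  | add x y hx hy => exact add_mem hx hy
  | tmul p z =>
    induction z using TensorProduct.induction_on with
    | zero => rw [TensorProduct.tmul_zero]; exact zero_mem _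
    | add x y hx hy => rw [TensorProduct.tmul_add]; exact add_mem hx hy
    | tmul x y => exact Ch.mk p trivial trivial

lemma Ch.mono {α : Type} {A A' : Set E₁} {B B' : Set E₂} (hA : A ⊆ A') (hB : B ⊆ B') : Ch Γ α A B ≤ Ch Γ α A' B' :=
  Submodule.span_mono fun _ ⟨p, x, hx, y, hy, h⟩ => ⟨p, x, hA hx, y, hB hy, h⟩

/-- two linear maps which agree on generators are equal -/
lemma ext3 {α : Type} {X : Type} [AddCommGroup X] [Module (ZMod 2) X] (f g : Tc Γ E₁ E₂ α →ₗ[ZMod 2] X)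
    (h : ∀ (p : α → MonoidAlgebra (ZMod 2) Γ) (x : E₁) (y : E₂), f (p ⊗ₜ[ZMod 2] (x ⊗ₜ[ZMod 2] y)) =
      g (p ⊗ₜ[ZMod 2] (x ⊗ₜ[ZMod 2] y))) (z : Tc Γ E₁ E₂ α) : f z = g z :=
  Ch.eq f g (fun p x _ y _ => h p x y) (Ch.univ α z)

variable (l : K →* Γ) (ρ₁ : K →* E₁ˣ) (ρ₂ : K →* E₂ˣ)

/-- the span of the differences `g z - z` -/
noncomputable def Iv (α : Type) (N : Subgroup K) : Submodule (ZMod 2) (Tc Γ E₁ E₂ α) :=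
  Submodule.span (ZMod 2) {z | ∃ g ∈ N, ∃ x ∈ Ch Γ α (cl ρ₁ N : Set E₁) (cl ρ₂ N : Set E₂), z = sg l ρ₁ ρ₂ α g x - x}

lemma Iv.mk {α : Type} {N : Subgroup K} {g : K} (hg : g ∈ N) {x : Tc Γ E₁ E₂ α}
    (hx : x ∈ Ch Γ α (cl ρ₁ N : Set E₁) (cl ρ₂ N : Set E₂)) : sg l ρ₁ ρ₂ α g x - x ∈ Iv l ρ₁ ρ₂ α N :=
  Submodule.subset_span ⟨g, hg, x, hx, rfl⟩

lemma Iv.map {α : Type} {N : Subgroup K} {X : Type} [AddCommGroup X] [Module (ZMod 2) X] (f : Tc Γ E₁ E₂ α →ₗ[ZMod 2] X)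
    (S : Submodule (ZMod 2) X)
    (h : ∀ g ∈ N, ∀ x ∈ Ch Γ α (cl ρ₁ N : Set E₁) (cl ρ₂ N : Set E₂), f (sg l ρ₁ ρ₂ α g x) - f x ∈ S)
    {z : Tc Γ E₁ E₂ α} (hz : z ∈ Iv l ρ₁ ρ₂ α N) : f z ∈ S := by
  refine Submodule.span_induction (p := fun z _ => f z ∈ S) ?_ (by rw [map_zero]; exact zero_mem _)
    (fun x y _ _ hx hy => by rw [map_add]; exact add_mem hx hy) (fun c x _ hx => by rw [map_smul]; exact S.smul_mem c hx) hz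
  rintro _ ⟨g, hg, x, hx, rfl⟩
  rw [map_sub]
  exact h g hg x hx

lemma Iv.mono {α : Type} {N N' : Subgroup K} (h : N' ≤ N) : Iv l ρ₁ ρ₂ α N' ≤ Iv l ρ₁ ρ₂ α N :=
  Submodule.span_mono fun _ ⟨g, hg, x, hx, e⟩ => ⟨g, h hg, x, Ch.mono (cl_mono ρ₁ h) (cl_mono ρ₂ h) hx, e⟩

lemma Ch.sg {α : Type} {N : Subgroup K} {g : K} (hg : g ∈ N) {z : Tc Γ E₁ E₂ α}
    (hz : z ∈ Ch Γ α (cl ρ₁ N : Set E₁) (cl ρ₂ N : Set E₂)) :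
    Two.sg l ρ₁ ρ₂ α g z ∈ Ch Γ α (cl ρ₁ N : Set E₁) (cl ρ₂ N : Set E₂) := by
  refine Ch.map _ _ (fun p x hx y hy => ?_) hz
  rw [sg_tmul]
  exact Ch.mk _ ((cl ρ₁ N).mul_mem hx (T3.mem_cl ρ₁ (N.inv_mem hg))) ((cl ρ₂ N).mul_mem (T3.mem_cl ρ₂ hg) hy)

lemma Ch.d {α β : Type} [Fintype α] (P : Matrix α β (MonoidAlgebra ℤ Γ)) {A : Set E₁} {B : Set E₂} {z : Tc Γ E₁ E₂ α}
    (hz : z ∈ Ch Γ α A B) : (dd P).rTensor (E₁ ⊗[ZMod 2] E₂) z ∈ Ch Γ β A B := by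
  refine Ch.map _ _ (fun p x hx y hy => ?_) hz
  rw [LinearMap.rTensor_tmul]
  exact Ch.mk _ hx hy

lemma Iv.d {α β : Type} [Fintype α] (P : Matrix α β (MonoidAlgebra ℤ Γ)) {N : Subgroup K} {z : Tc Γ E₁ E₂ α}
    (hz : z ∈ Iv l ρ₁ ρ₂ α N) : (dd P).rTensor (E₁ ⊗[ZMod 2] E₂) z ∈ Iv l ρ₁ ρ₂ β N := by
  refine Iv.map l ρ₁ ρ₂ _ _ (fun g hg x hx => ?_) hz
  rw [sg_d]
  exact Iv.mk l ρ₁ ρ₂ hg (Ch.d P hx)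

variable (R : FinRes Γ)

/-- the boundary -/
noncomputable abbrev bd (q : ℕ) : Tc Γ E₁ E₂ (R.ι (q + 1)) →ₗ[ZMod 2] Tc Γ E₁ E₂ (R.ι q) :=
  (dd (R.d q)).rTensor (E₁ ⊗[ZMod 2] E₂)

/-- the boundaries modulo the differences -/
noncomputable def Bv (N : Subgroup K) (q : ℕ) : Submodule (ZMod 2) (Tc Γ E₁ E₂ (R.ι q)) :=
  Submodule.map (bd R q) (Ch Γ (R.ι (q + 1)) (cl ρ₁ N : Set E₁) (cl ρ₂ N : Set E₂)) ⊔ Iv l ρ₁ ρ₂ (R.ι q) N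

lemma Bv.mono {N N' : Subgroup K} (h : N' ≤ N) (q : ℕ) : Bv l ρ₁ ρ₂ R N' q ≤ Bv l ρ₁ ρ₂ R N q :=
  sup_le_sup (Submodule.map_mono (Ch.mono (cl_mono ρ₁ h) (cl_mono ρ₂ h))) (Iv.mono l ρ₁ ρ₂ h)

lemma Iv.le_Bv (N : Subgroup K) (q : ℕ) : Iv l ρ₁ ρ₂ (R.ι q) N ≤ Bv l ρ₁ ρ₂ R N q := le_sup_right

lemma Bv.of_d {N : Subgroup K} {q : ℕ} {z : Tc Γ E₁ E₂ (R.ι (q + 1))}
    (hz : z ∈ Ch Γ (R.ι (q + 1)) (cl ρ₁ N : Set E₁) (cl ρ₂ N : Set E₂)) : bd R q z ∈ Bv l ρ₁ ρ₂ R N q :=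
  Submodule.mem_sup_left ⟨z, hz, rfl⟩

/-- an operator which commutes with boundaries and preserves chains and differences preserves boundaries -/
lemma Bv.stable {N : Subgroup K} {q : ℕ} (f : Tc Γ E₁ E₂ (R.ι q) →ₗ[ZMod 2] Tc Γ E₁ E₂ (R.ι q))
    (f' : Tc Γ E₁ E₂ (R.ι (q + 1)) →ₗ[ZMod 2] Tc Γ E₁ E₂ (R.ι (q + 1)))
    (h1 : ∀ z, bd R q (f' z) = f (bd R q z))
    (h2 : ∀ p, ∀ x ∈ cl ρ₁ N, ∀ y ∈ cl ρ₂ N, f' (p ⊗ₜ[ZMod 2] (x ⊗ₜ[ZMod 2] y)) ∈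
      Ch Γ (R.ι (q + 1)) (cl ρ₁ N : Set E₁) (cl ρ₂ N : Set E₂))
    (h3 : ∀ z ∈ Iv l ρ₁ ρ₂ (R.ι q) N, f z ∈ Iv l ρ₁ ρ₂ (R.ι q) N) {z : Tc Γ E₁ E₂ (R.ι q)}
    (hz : z ∈ Bv l ρ₁ ρ₂ R N q) : f z ∈ Bv l ρ₁ ρ₂ R N q := by
  obtain ⟨_, ⟨b, hb, rfl⟩, c, hc, rfl⟩ := Submodule.mem_sup.1 hz
  rw [map_add, ← h1]
  exact add_mem (Bv.of_d l ρ₁ ρ₂ R (Ch.map _ _ h2 hb)) (Iv.le_Bv l ρ₁ ρ₂ R N q (h3 c hc))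

/-- the statement of the induction -/
def Va (N : Subgroup K) (G : Set E₁) : Prop :=
  ∀ q, ∀ c ∈ Ch Γ (R.ι (q + 1)) G (cl ρ₂ N : Set E₂), bd R q c ∈ Iv l ρ₁ ρ₂ (R.ι q) N → c ∈ Bv l ρ₁ ρ₂ R N (q + 1)

/-! ### the operators -/

/-- left multiplication in the first factor -/
noncomputable def Lx (α : Type) (s : E₁) : Tc Γ E₁ E₂ α →ₗ[ZMod 2] Tc Γ E₁ E₂ α :=
  (TensorProduct.map (LinearMap.mulLeft (ZMod 2) s) LinearMap.id).lTensor _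

/-- right multiplication in the second factor -/
noncomputable def Rx (α : Type) (s : E₂) : Tc Γ E₁ E₂ α →ₗ[ZMod 2] Tc Γ E₁ E₂ α :=
  (TensorProduct.map LinearMap.id (LinearMap.mulRight (ZMod 2) s)).lTensor _

lemma Lx_tmul {α : Type} (s : E₁) (p : α → MonoidAlgebra (ZMod 2) Γ) (x : E₁) (y : E₂) :
    Lx α s (p ⊗ₜ[ZMod 2] (x ⊗ₜ[ZMod 2] y)) = p ⊗ₜ[ZMod 2] ((s * x) ⊗ₜ[ZMod 2] y) := rfl

lemma Rx_tmul {α : Type} (s : E₂) (p : α → MonoidAlgebra (ZMod 2) Γ) (x : E₁) (y : E₂) :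
    Rx α s (p ⊗ₜ[ZMod 2] (x ⊗ₜ[ZMod 2] y)) = p ⊗ₜ[ZMod 2] (x ⊗ₜ[ZMod 2] (y * s)) := rfl

/-- translation by an element which normalizes -/
noncomputable def Ux (α : Type) (t : K) : Tc Γ E₁ E₂ α →ₗ[ZMod 2] Tc Γ E₁ E₂ α :=
  TensorProduct.map (Acr.lam α (l t)) (TensorProduct.map (cj (ρ₁ t)) (cj (ρ₂ t)))

lemma Ux_tmul {α : Type} (t : K) (p : α → MonoidAlgebra (ZMod 2) Γ) (x : E₁) (y : E₂) :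
    Ux l ρ₁ ρ₂ α t (p ⊗ₜ[ZMod 2] (x ⊗ₜ[ZMod 2] y)) = (Acr.lam α (l t) p) ⊗ₜ[ZMod 2] ((cj (ρ₁ t) x) ⊗ₜ[ZMod 2] (cj (ρ₂ t) y)) :=
  rfl

lemma Lx_d {α β : Type} [Fintype α] (P : Matrix α β (MonoidAlgebra ℤ Γ)) (s : E₁) (z : Tc Γ E₁ E₂ α) :
    (dd P).rTensor (E₁ ⊗[ZMod 2] E₂) (Lx α s z) = Lx β s ((dd P).rTensor (E₁ ⊗[ZMod 2] E₂) z) :=
  ext3 ((dd P).rTensor _ ∘ₗ Lx α s) (Lx β s ∘ₗ (dd P).rTensor _) (fun _ _ _ => by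
    rw [LinearMap.comp_apply, LinearMap.comp_apply, Lx_tmul, LinearMap.rTensor_tmul, LinearMap.rTensor_tmul, Lx_tmul]) z

lemma Rx_d {α β : Type} [Fintype α] (P : Matrix α β (MonoidAlgebra ℤ Γ)) (s : E₂) (z : Tc Γ E₁ E₂ α) :
    (dd P).rTensor (E₁ ⊗[ZMod 2] E₂) (Rx α s z) = Rx β s ((dd P).rTensor (E₁ ⊗[ZMod 2] E₂) z) :=
  ext3 ((dd P).rTensor _ ∘ₗ Rx α s) (Rx β s ∘ₗ (dd P).rTensor _) (fun _ _ _ => by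
    rw [LinearMap.comp_apply, LinearMap.comp_apply, Rx_tmul, LinearMap.rTensor_tmul, LinearMap.rTensor_tmul, Rx_tmul]) z

lemma Ux_d {α β : Type} [Fintype α] (P : Matrix α β (MonoidAlgebra ℤ Γ)) (t : K) (z : Tc Γ E₁ E₂ α) :
    (dd P).rTensor (E₁ ⊗[ZMod 2] E₂) (Ux l ρ₁ ρ₂ α t z) = Ux l ρ₁ ρ₂ β t ((dd P).rTensor (E₁ ⊗[ZMod 2] E₂) z) :=
  ext3 ((dd P).rTensor _ ∘ₗ Ux l ρ₁ ρ₂ α t) (Ux l ρ₁ ρ₂ β t ∘ₗ (dd P).rTensor _) (fun p x y => by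
    simp only [LinearMap.comp_apply, LinearMap.rTensor_tmul, Ux_tmul, dd_lam]) z

lemma Lx_sg {α : Type} (s : E₁) (g : K) (z : Tc Γ E₁ E₂ α) :
    Lx α s (sg l ρ₁ ρ₂ α g z) = sg l ρ₁ ρ₂ α g (Lx α s z) :=
  ext3 (Lx α s ∘ₗ sg l ρ₁ ρ₂ α g) (sg l ρ₁ ρ₂ α g ∘ₗ Lx α s) (fun p x y => by
    simp only [LinearMap.comp_apply, sg_tmul, Lx_tmul, mul_assoc]) z

lemma Rx_sg {α : Type} (s : E₂) (g : K) (z : Tc Γ E₁ E₂ α) :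
    Rx α s (sg l ρ₁ ρ₂ α g z) = sg l ρ₁ ρ₂ α g (Rx α s z) :=
  ext3 (Rx α s ∘ₗ sg l ρ₁ ρ₂ α g) (sg l ρ₁ ρ₂ α g ∘ₗ Rx α s) (fun p x y => by
    simp only [LinearMap.comp_apply, sg_tmul, Rx_tmul, mul_assoc]) z

lemma Ux_sg {α : Type} (t g : K) (z : Tc Γ E₁ E₂ α) :
    Ux l ρ₁ ρ₂ α t (sg l ρ₁ ρ₂ α g z) = sg l ρ₁ ρ₂ α (t * g * t⁻¹) (Ux l ρ₁ ρ₂ α t z) :=
  ext3 (Ux l ρ₁ ρ₂ α t ∘ₗ sg l ρ₁ ρ₂ α g) (sg l ρ₁ ρ₂ α (t * g * t⁻¹) ∘ₗ Ux l ρ₁ ρ₂ α t) (fun p x y => by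
    simp only [LinearMap.comp_apply, sg_tmul, Ux_tmul, cj_apply]
    congr 1
    · rw [← Module.End.mul_apply, ← map_mul, ← Module.End.mul_apply, ← map_mul]
      simp
    · congr 1
      · simp [mul_assoc]
      · simp [mul_assoc]) z

lemma Ch.Lx {α : Type} {N : Subgroup K} {s : E₁} (hs : s ∈ cl ρ₁ N) {z : Tc Γ E₁ E₂ α}
    (hz : z ∈ Ch Γ α (cl ρ₁ N : Set E₁) (cl ρ₂ N : Set E₂)) :
    Two.Lx α s z ∈ Ch Γ α (cl ρ₁ N : Set E₁) (cl ρ₂ N : Set E₂) := by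
  refine Ch.map _ _ (fun p x hx y hy => ?_) hz
  rw [Lx_tmul]
  exact Ch.mk _ ((cl ρ₁ N).mul_mem hs hx) hy

lemma Ch.Rx {α : Type} {N : Subgroup K} {s : E₂} (hs : s ∈ cl ρ₂ N) {z : Tc Γ E₁ E₂ α}
    (hz : z ∈ Ch Γ α (cl ρ₁ N : Set E₁) (cl ρ₂ N : Set E₂)) :
    Two.Rx α s z ∈ Ch Γ α (cl ρ₁ N : Set E₁) (cl ρ₂ N : Set E₂) := by
  refine Ch.map _ _ (fun p x hx y hy => ?_) hz
  rw [Rx_tmul]
  exact Ch.mk _ hx ((cl ρ₂ N).mul_mem hy hs)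

lemma Ch.Ux {α : Type} {N : Subgroup K} {t : K} (ht : ∀ g ∈ N, t * g * t⁻¹ ∈ N) {z : Tc Γ E₁ E₂ α}
    (hz : z ∈ Ch Γ α (cl ρ₁ N : Set E₁) (cl ρ₂ N : Set E₂)) :
    Two.Ux l ρ₁ ρ₂ α t z ∈ Ch Γ α (cl ρ₁ N : Set E₁) (cl ρ₂ N : Set E₂) := by
  refine Ch.map _ _ (fun p x hx y hy => ?_) hz
  rw [Ux_tmul]
  exact Ch.mk _ (cj_cl ρ₁ ht hx) (cj_cl ρ₂ ht hy)

lemma Bv.Lx {N : Subgroup K} {q : ℕ} {s : E₁} (hs : s ∈ cl ρ₁ N) {z : Tc Γ E₁ E₂ (R.ι q)}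
    (hz : z ∈ Bv l ρ₁ ρ₂ R N q) : Two.Lx (R.ι q) s z ∈ Bv l ρ₁ ρ₂ R N q := by
  refine Bv.stable l ρ₁ ρ₂ R _ (Two.Lx (R.ι (q + 1)) s) (fun z => Lx_d (R.d q) s z) (fun p x hx y hy => ?_)
    (fun z hz => ?_) hz
  · rw [Lx_tmul]
    exact Ch.mk _ ((cl ρ₁ N).mul_mem hs hx) hy
  · refine Iv.map l ρ₁ ρ₂ _ _ (fun g hg x hx => ?_) hz
    rw [Lx_sg]
    exact Iv.mk l ρ₁ ρ₂ hg (Ch.Lx ρ₁ ρ₂ hs hx)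

lemma Bv.Rx {N : Subgroup K} {q : ℕ} {s : E₂} (hs : s ∈ cl ρ₂ N) {z : Tc Γ E₁ E₂ (R.ι q)}
    (hz : z ∈ Bv l ρ₁ ρ₂ R N q) : Two.Rx (R.ι q) s z ∈ Bv l ρ₁ ρ₂ R N q := by
  refine Bv.stable l ρ₁ ρ₂ R _ (Two.Rx (R.ι (q + 1)) s) (fun z => Rx_d (R.d q) s z) (fun p x hx y hy => ?_)
    (fun z hz => ?_) hz
  · rw [Rx_tmul]
    exact Ch.mk _ hx ((cl ρ₂ N).mul_mem hy hs)
  · refine Iv.map l ρ₁ ρ₂ _ _ (fun g hg x hx => ?_) hz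
    rw [Rx_sg]
    exact Iv.mk l ρ₁ ρ₂ hg (Ch.Rx ρ₁ ρ₂ hs hx)

lemma Bv.Ux {N : Subgroup K} {q : ℕ} {t : K} (ht : ∀ g ∈ N, t * g * t⁻¹ ∈ N) {z : Tc Γ E₁ E₂ (R.ι q)}
    (hz : z ∈ Bv l ρ₁ ρ₂ R N q) : Two.Ux l ρ₁ ρ₂ (R.ι q) t z ∈ Bv l ρ₁ ρ₂ R N q := by
  refine Bv.stable l ρ₁ ρ₂ R _ (Two.Ux l ρ₁ ρ₂ (R.ι (q + 1)) t) (fun z => Ux_d l ρ₁ ρ₂ (R.d q) t z)
    (fun p x hx y hy => ?_) (fun z hz => ?_) hz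
  · rw [Ux_tmul]
    exact Ch.mk _ (cj_cl ρ₁ ht hx) (cj_cl ρ₂ ht hy)
  · refine Iv.map l ρ₁ ρ₂ _ _ (fun g hg x hx => ?_) hz
    rw [Ux_sg]
    exact Iv.mk l ρ₁ ρ₂ (ht g hg) (Ch.Ux l ρ₁ ρ₂ ht hx)

end base

end SQ.HH.Two
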