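import Pool.Agent.SQ.PdMain
import Pool.Agent.Singer.FinElem
import Pool.Agent.Singer.DavisOps

/-!
# Poincare duality for the reduced `ℓ²`-homology

`l2_dual` : for a Poincare duality group of dimension `n` the reduced `ℓ²`-homology vanishes in degree `i` if and only if
it vanishes in degree `n - i`, and it vanishes above the degree `n`.
-/

set_option autoImplicit false
set_option linter.unusedSectionVars false

open scoped Matrix ComplexConjugate InnerProductSpace
open Filter Topology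

namespace SQ

open Singer

/-! ### the top degree -/

section top
variable {A : Type*} [Ring A] {κ ι : ℕ → Type} [∀ i, Fintype (κ i)] [∀ i, Fintype (ι i)]
  [∀ i, DecidableEq (κ i)] [∀ i, DecidableEq (ι i)]
  {c : ∀ i, Matrix (κ (i + 1)) (κ i) A} {D : ∀ j, Matrix (ι j) (ι (j + 1)) A} {n : ℕ}

/-- the data in the top degree -/
theorem pd_top_raw (cc : ∀ i, c (i + 1) * c i = 0)
    {u : Matrix (κ (n + 1)) (κ (n + 2)) A} (hu : c (n + 1) * u * c (n + 1) = c (n + 1))
    {X : A → ℤ} (ε : (ι 0 → A) →+ ℤ) (hε : ∀ y a, ε (fun l => y l * a) = ε y * X a) {r : ι 0 → A} (hr : ε r = 1)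
    (exε : ∀ x, ε x = 0 ↔ ∃ z, D 0 *ᵥ z = x)
    (η : (κ (n + 1) → A) →+ ℤ) (hη : ∀ y a, η (fun l => y l * a) = η y * X a) {t : κ (n + 1) → A}
    (ht : η t = 1) (ht' : c (n + 1) *ᵥ t = 0)
    (exη : ∀ x, c (n + 1) *ᵥ x = 0 → (η x = 0 ↔ ∃ z, c n *ᵥ z = x)) :
    ∃ (f : Matrix (ι 1) (κ n) A) (g : Matrix (κ n) (ι 1) A) (h : Matrix (κ n) (κ (n + 1)) A)
      (f' : Matrix (ι 0) (κ (n + 1)) A) (g' : Matrix (κ (n + 1)) (ι 0) A) (k : Matrix (ι 1) (ι 0) A),
      D 0 * f = f' * c n ∧ c n * g = g' * D 0 ∧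
        c n * h = (1 - u * c (n + 1)) - g' * f' * (1 - u * c (n + 1)) ∧ D 0 * k = 1 - f' * g' ∧ c (n + 1) * g' = 0 := by
  let f' : Matrix (ι 0) (κ (n + 1)) A := fun i j => r i * (η (Pi.single j 1) : A)
  let g' : Matrix (κ (n + 1)) (ι 0) A := fun i j => t i * (ε (Pi.single j 1) : A)
  let e : Matrix (κ (n + 1)) (κ (n + 1)) A := 1 - u * c (n + 1)
  have hf' : ∀ y, ε (f' *ᵥ y) = η y := fun y => fun_mulVec ε hε η hη hr (fun _ _ => rfl) y
  have hg' : ∀ y, η (g' *ᵥ y) = ε y := fun y => fun_mulVec η hη ε hε ht (fun _ _ => rfl) y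
  have hcg : c (n + 1) * g' = 0 := by
    funext i j
    have h1 := congrFun ht' i
    show ∑ k, c (n + 1) i k * (t k * (ε (Pi.single j 1) : A)) = 0
    have h2 : ∑ k, c (n + 1) i k * (t k * (ε (Pi.single j 1) : A)) = (∑ k, c (n + 1) i k * t k) * (ε (Pi.single j 1) : A) := by
      rw [Finset.sum_mul]
      exact Finset.sum_congr rfl fun k _ => by rw [mul_assoc]
    rw [h2]
    have h3 : ∑ k, c (n + 1) i k * t k = 0 := h1
    rw [h3, zero_mul]
  have hce : c (n + 1) * e = 0 := by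
    show c (n + 1) * (1 - u * c (n + 1)) = 0
    rw [Matrix.mul_sub, Matrix.mul_one, ← Matrix.mul_assoc, hu, sub_self]
  have hec : e * c n = c n := by
    show (1 - u * c (n + 1)) * c n = c n
    rw [Matrix.sub_mul, Matrix.one_mul, Matrix.mul_assoc, cc, Matrix.mul_zero, sub_zero]
  have hcol : ∀ {p : Type} [Fintype p] [DecidableEq p] (Q : Matrix (κ (n + 1)) p A) (k : p),
      (fun i => Q i k) = Q *ᵥ Pi.single k 1 := by
    intro p _ _ Q k
    funext i
    rw [Matrix.mulVec_single_one]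
    rfl
  obtain ⟨f, hf⟩ : ∃ f : Matrix (ι 1) (κ n) A, D 0 * f = f' * c n := by
    refine exists_mul_of_col fun k => (exε _).1 ?_
    have h1 : (fun i => (f' * c n) i k) = f' *ᵥ (fun i => c n i k) := rfl
    rw [h1, hf']
    refine (exη _ ?_).2 ⟨Pi.single k 1, ?_⟩
    · exact col_of_mul_eq_zero (cc n) k
    · exact (hcol (c n) k).symm
  obtain ⟨g, hg⟩ : ∃ g : Matrix (κ n) (ι 1) A, c n * g = g' * D 0 := by
    refine exists_mul_of_col fun k => (exη _ ?_).1 ?_
    · refine col_of_mul_eq_zero ?_ k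
      rw [← Matrix.mul_assoc, hcg, Matrix.zero_mul]
    · have h1 : (fun i => (g' * D 0) i k) = g' *ᵥ (fun i => D 0 i k) := rfl
      rw [h1, hg']
      classical
      refine (exε _).2 ⟨Pi.single k 1, ?_⟩
      funext i
      rw [Matrix.mulVec_single_one]
      rfl
  obtain ⟨h, hh⟩ : ∃ h : Matrix (κ n) (κ (n + 1)) A, c n * h = e - g' * f' * e := by
    refine exists_mul_of_col fun k => (exη _ ?_).1 ?_
    · refine col_of_mul_eq_zero ?_ k
      rw [Matrix.mul_sub, hce, ← Matrix.mul_assoc, ← Matrix.mul_assoc, hcg, Matrix.zero_mul, Matrix.zero_mul, sub_zero]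
    · have h1 : (fun i => (e - g' * f' * e) i k) = (fun i => e i k) - g' *ᵥ (f' *ᵥ fun i => e i k) := by
        funext i
        rw [Matrix.mulVec_mulVec]
        rfl
      rw [h1, map_sub, hg', hf', sub_self]
  obtain ⟨k, hk⟩ : ∃ k : Matrix (ι 1) (ι 0) A, D 0 * k = 1 - f' * g' := by
    refine exists_mul_of_col fun l => (exε _).1 ?_
    have h1 : (fun i => (1 - f' * g' : Matrix (ι 0) (ι 0) A) i l) = (fun i => (1 : Matrix (ι 0) (ι 0) A) i l) -
        f' *ᵥ (g' *ᵥ fun i => (1 : Matrix (ι 0) (ι 0) A) i l) := by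
      funext i
      rw [Matrix.mulVec_mulVec]
      show _ = _ - ((f' * g') * (1 : Matrix (ι 0) (ι 0) A)) i l
      rw [Matrix.mul_one]
      rfl
    rw [h1, map_sub, hf', hg', sub_self]
  exact ⟨f, g, h, f', g', k, hf, hg, hh, hk, hcg⟩

end top

/-! ### the data of a Poincare duality group -/

section setup
variable {Γ : Type} [Group Γ]

/-- the conjugate transpose, twisted by a character -/
noncomputable def twx (χ : Γ →* ℤ) {m n : Type} (M : Matrix m n (ZG Γ)) : Matrix n m (ZG Γ) := fun j i => sx χ (M i j)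

theorem pd_setup {n : ℕ} (hPD : IsPD n Γ) (R : FinRes Γ) :
    ∃ (χ : Γ →* ℤ) (u : Matrix (R.ι n) (R.ι (n + 1)) (ZG Γ)) (X : ZG Γ → ℤ) (ε : (R.ι 0 → ZG Γ) →+ ℤ) (r : R.ι 0 → ZG Γ)
      (η : (R.ι n → ZG Γ) →+ ℤ) (t : R.ι n → ZG Γ),
      (∀ j, twx χ (R.d j) * twx χ (R.d (j + 1)) = 0) ∧
      (∀ j (x : R.ι (j + 1) → ZG Γ), twx χ (R.d j) *ᵥ x = 0 → ∃ z, twx χ (R.d (j + 1)) *ᵥ z = x) ∧
      (∀ i, i ≠ n → ∀ y : R.ι i → ZG Γ, R.d i *ᵥ y = 0 → ∃ z : kap R i → ZG Γ, cm R i *ᵥ z = y) ∧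
      (∀ i, n < i → ∃ u : Matrix (kap R i) (kap R (i + 1)) (ZG Γ), cm R i * u * cm R i = cm R i) ∧
      R.d n * u * R.d n = R.d n ∧ (∀ y a, ε (fun l => y l * a) = ε y * X a) ∧ ε r = 1 ∧
      (∀ x, ε x = 0 ↔ ∃ z, twx χ (R.d 0) *ᵥ z = x) ∧
      (∀ y a, η (fun l => y l * a) = η y * X a) ∧ η t = 1 ∧ R.d n *ᵥ t = 0 ∧
      (∀ y : R.ι n → ZG Γ, R.d n *ᵥ y = 0 → (η y = 0 ↔ ∃ z : kap R n → ZG Γ, cm R n *ᵥ z = y)) := by
  classical
  obtain ⟨hex, ⟨N₀, hN₀⟩, η₀, hη₀, t₀, ht₀⟩ := pd_data R hPD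
  have hreg := pd_reg (κ := kap R) (n := n) (cm_cm R) hN₀ fun i hi x hx => hex i (by omega) x hx
  -- the top degree
  obtain ⟨u, hu⟩ : ∃ u : Matrix (R.ι n) (R.ι (n + 1)) (ZG Γ), R.d n * u * R.d n = R.d n := hreg (n + 1) (by omega)
  have hce : ∀ y : R.ι n → ZG Γ, R.d n *ᵥ (y - u *ᵥ (R.d n *ᵥ y)) = 0 := by
    intro y
    rw [Matrix.mulVec_sub, Matrix.mulVec_mulVec, Matrix.mulVec_mulVec, hu, sub_self]
  let η : (R.ι n → ZG Γ) →+ ℤ :=
    { toFun := fun y => η₀ ⟨y - u *ᵥ (R.d n *ᵥ y), hce y⟩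
      map_zero' := by
        have h1 : (⟨(0 : R.ι n → ZG Γ) - u *ᵥ (R.d n *ᵥ 0), hce 0⟩ : Zc R n) = 0 := by
          apply Subtype.ext
          show (0 : R.ι n → ZG Γ) - u *ᵥ (R.d n *ᵥ 0) = 0
          rw [Matrix.mulVec_zero, Matrix.mulVec_zero, sub_zero]
        rw [h1, map_zero]
      map_add' := fun y y' => by
        rw [← map_add]
        congr 1
        apply Subtype.ext
        show (y + y') - u *ᵥ (R.d n *ᵥ (y + y')) = (y - u *ᵥ (R.d n *ᵥ y)) + (y' - u *ᵥ (R.d n *ᵥ y'))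
        rw [Matrix.mulVec_add, Matrix.mulVec_add]
        abel }
  have hη : ∀ y, η y = η₀ ⟨y - u *ᵥ (R.d n *ᵥ y), hce y⟩ := fun _ => rfl
  have hηZ : ∀ y (hy : R.d n *ᵥ y = 0), η y = η₀ ⟨y, hy⟩ := by
    intro y hy
    rw [hη]
    congr 1
    apply Subtype.ext
    show y - u *ᵥ (R.d n *ᵥ y) = y
    rw [hy, Matrix.mulVec_zero, sub_zero]
  obtain ⟨t, ht⟩ := t₀
  have ht' : R.d n *ᵥ t = 0 := ht
  have hη1 : η t = 1 := by
    rw [hηZ t ht', ← ht₀]
  have hmr : ∀ {p q : Type} [Fintype q] (M : Matrix p q (ZG Γ)) (y : q → ZG Γ) (a : ZG Γ),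
      M *ᵥ (fun l => y l * a) = fun l => (M *ᵥ y) l * a := by
    intro p q _ M y a
    funext i
    show ∑ j, M i j * (y j * a) = (∑ j, M i j * y j) * a
    rw [Finset.sum_mul]
    exact Finset.sum_congr rfl fun j _ => by rw [mul_assoc]
  have hker : ∀ y : R.ι n → ZG Γ, R.d n *ᵥ y = 0 → (η y = 0 ↔ ∃ z : kap R n → ZG Γ, cm R n *ᵥ z = y) := by
    intro y hy
    rw [hηZ y hy, hη₀]
  -- the character
  let X : ZG Γ → ℤ := fun a => η fun l => t l * a
  have hX : ∀ a, X a = η fun l => t l * a := fun _ => rfl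
  have hηX : ∀ (y : R.ι n → ZG Γ) a, η (fun l => y l * a) = η y * X a := by
    intro y a
    have key : ∀ y : R.ι n → ZG Γ, R.d n *ᵥ y = 0 → η (fun l => y l * a) = η y * X a := by
      intro y hy
      have h1 : R.d n *ᵥ (y - η y • t) = 0 := by
        rw [Matrix.mulVec_sub, Matrix.mulVec_smul, hy, ht', smul_zero, sub_zero]
      obtain ⟨z, hz⟩ := (hker _ h1).1 (by rw [map_sub, map_zsmul, hη1, smul_eq_mul, mul_one, sub_self])
      have h3 : cm R n *ᵥ (fun l => z l * a) = fun l => (y - η y • t) l * a := by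
        rw [hmr, hz]
        rfl
      have h4 : R.d n *ᵥ (fun l => (y - η y • t) l * a) = 0 := by
        rw [hmr, h1]
        funext l
        exact zero_mul a
      have h5 := (hker _ h4).2 ⟨_, h3⟩
      have h6 : (fun l => (y - η y • t) l * a) = (fun l => y l * a) - η y • fun l => t l * a := by
        funext l
        simp [sub_mul, mul_assoc]
      rw [h6, map_sub, map_zsmul, ← hX, smul_eq_mul] at h5
      omega
    have h7 : ∀ y : R.ι n → ZG Γ, η y = η (y - u *ᵥ (R.d n *ᵥ y)) := by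
      intro y
      rw [hηZ _ (hce y), hη]
    rw [h7, h7 y]
    have h8 : (fun l => y l * a) - u *ᵥ (R.d n *ᵥ fun l => y l * a) = fun l => (y - u *ᵥ (R.d n *ᵥ y)) l * a := by
      rw [hmr, hmr]
      funext l
      simp [sub_mul]
    rw [h8]
    exact key _ (hce y)
  have hX1 : X 1 = 1 := by
    rw [hX]
    simpa using hη1
  have hXmul : ∀ a b, X (a * b) = X a * X b := by
    intro a b
    have h1 : (fun l => t l * (a * b)) = fun l => (t l * a) * b := by
      funext l
      rw [mul_assoc]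
    rw [hX, h1, hηX]
  have hXadd : ∀ a b, X (a + b) = X a + X b := by
    intro a b
    have h1 : (fun l => t l * (a + b)) = (fun l => t l * a) + fun l => t l * b := by
      funext l
      exact mul_add _ _ _
    rw [hX, h1, map_add]
  let XR : ZG Γ →+* ℤ :=
    { toFun := X
      map_one' := hX1
      map_mul' := hXmul
      map_zero' := by
        have := hXadd 0 0
        rw [add_zero] at this
        omega
      map_add' := hXadd }
  have hXR : ∀ a, XR a = X a := fun _ => rfl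
  let χ : Γ →* ℤ := (XR : ZG Γ →* ℤ).comp (MonoidAlgebra.of ℤ Γ)
  have hχ : ∀ g, χ g = X (MonoidAlgebra.single g 1) := fun _ => rfl
  have haug : ∀ a, aug Γ (sx χ a) = X a := by
    intro a
    rw [← hXR]
    induction a using MonoidAlgebra.induction_linear with
    | zero => rw [map_zero, map_zero, map_zero]
    | add a b ha hb => rw [map_add, map_add, map_add, ha, hb]
    | single g c =>
      rw [sx_single, aug_single, hχ, ← hXR]
      have h1 : (MonoidAlgebra.single g c : ZG Γ) = c • MonoidAlgebra.single g 1 := by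
        rw [MonoidAlgebra.smul_single, smul_eq_mul, mul_one]
      rw [h1, map_zsmul, smul_eq_mul]
  -- the dual resolution
  let D : ∀ j, Matrix (R.ι j) (R.ι (j + 1)) (ZG Γ) := fun j l k => sx χ (R.d j k l)
  have hD : ∀ j l k, D j l k = sx χ (R.d j k l) := fun _ _ _ => rfl
  have hDv : ∀ j (x : R.ι (j + 1) → ZG Γ), (fun k => sx χ (x k)) ᵥ* R.d j = fun l => sx χ ((D j *ᵥ x) l) := by
    intro j x
    funext l
    show ∑ k, sx χ (x k) * R.d j k l = sx χ (∑ k, D j l k * x k)
    rw [map_sum]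
    exact Finset.sum_congr rfl fun k _ => by rw [sx_mul, hD, sx_sx]
  have hss : ∀ {p : Type} (x : p → ZG Γ), (fun k => sx χ (sx χ (x k))) = x := by
    intro p x
    funext k
    exact sx_sx χ _
  have hsx0 : ∀ {p : Type} {x : p → ZG Γ}, (fun k => sx χ (x k)) = 0 → x = 0 := by
    intro p x hx
    rw [← hss x]
    funext k
    rw [congrFun hx k]
    exact map_zero _
  have hDv' : ∀ j (z : R.ι (j + 1) → ZG Γ), D j *ᵥ (fun k => sx χ (z k)) = fun l => sx χ ((z ᵥ* R.d j) l) := by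
    intro j z
    have h1 := hDv j (fun k => sx χ (z k))
    rw [hss] at h1
    rw [h1]
    exact (hss _).symm
  have hDD : ∀ j, D j * D (j + 1) = 0 := by
    intro j
    funext l m
    show ∑ k, D j l k * D (j + 1) k m = 0
    have h1 : ∑ k, D j l k * D (j + 1) k m = sx χ ((R.d (j + 1) * R.d j) m l) := by
      rw [Matrix.mul_apply, map_sum]
      exact Finset.sum_congr rfl fun k _ => by rw [sx_mul]
    rw [h1, d_mul_d]
    exact map_zero _
  have hexD : ∀ j (x : R.ι (j + 1) → ZG Γ), D j *ᵥ x = 0 → ∃ z, D (j + 1) *ᵥ z = x := by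
    intro j x hx
    obtain ⟨z, hz⟩ := (R.exact_succ j fun k => sx χ (x k)).1 (by
      rw [hDv, hx]
      funext l
      exact map_zero _)
    refine ⟨fun k => sx χ (z k), ?_⟩
    rw [hDv', hz]
    exact hss x
  let ε : (R.ι 0 → ZG Γ) →+ ℤ :=
    { toFun := fun x => ∑ i, R.w i * XR (x i)
      map_zero' := by simp
      map_add' := fun x y => by simp [mul_add, Finset.sum_add_distrib] }
  have hε : ∀ x, ε x = ∑ i, R.w i * XR (x i) := fun _ => rfl
  have hεX : ∀ y a, ε (fun l => y l * a) = ε y * X a := by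
    intro y a
    rw [hε, hε, Finset.sum_mul]
    exact Finset.sum_congr rfl fun i _ => by rw [map_mul, mul_assoc, hXR a]
  have hεaug : ∀ x, ε x = augw R.w fun k => sx χ (x k) := by
    intro x
    rw [hε]
    unfold augw
    refine Finset.sum_congr rfl fun i _ => ?_
    rw [← aug_eq, haug, hXR]
  have hεex : ∀ x, ε x = 0 ↔ ∃ z, D 0 *ᵥ z = x := by
    intro x
    rw [hεaug, R.exact_zero]
    constructor
    · rintro ⟨z, hz⟩
      refine ⟨fun k => sx χ (z k), ?_⟩
      rw [hDv', hz]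
      exact hss x
    · rintro ⟨z, rfl⟩
      exact ⟨fun k => sx χ (z k), hDv 0 z⟩
  obtain ⟨r, hr⟩ : ∃ r, ε r = 1 := by
    obtain ⟨x, hx⟩ := R.surj
    refine ⟨fun k => sx χ (x k), ?_⟩
    rw [hεaug, hss, hx]
  exact ⟨χ, u, X, ε, r, η, t, hDD, hexD, hex, hreg, hu, hεX, hr, hεex, hηX, hη1, ht', hker⟩

end setup

/-! ### matrices as operators -/

section ops
variable {Γ : Type} [Group Γ] {l m n : Type} [Fintype l] [Fintype m] [Fintype n]

lemma twx_mul (χ : Γ →* ℤ) (M : Matrix l m (ZG Γ)) (N : Matrix m n (ZG Γ)) :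
    twx χ (M * N) = twx χ N * twx χ M := by
  funext j i
  show sx χ ((M * N) i j) = ∑ k, sx χ (N k j) * sx χ (M i k)
  rw [Matrix.mul_apply, map_sum]
  exact Finset.sum_congr rfl fun k _ => sx_mul χ _ _

lemma twx_add (χ : Γ →* ℤ) (M N : Matrix l m (ZG Γ)) : twx χ (M + N) = twx χ M + twx χ N := by
  funext j i
  exact map_add _ _ _

lemma twx_zero (χ : Γ →* ℤ) : twx χ (0 : Matrix l m (ZG Γ)) = 0 := by
  funext j i
  exact map_zero _

lemma twx_neg (χ : Γ →* ℤ) (M : Matrix l m (ZG Γ)) : twx χ (-M) = -twx χ M := by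
  funext j i
  exact map_neg _ _

lemma sx_one (χ : Γ →* ℤ) : sx χ (1 : ZG Γ) = 1 := by
  have h : (1 : ZG Γ) = MonoidAlgebra.single 1 1 := rfl
  rw [h, sx_single, inv_one, map_one, one_mul]

lemma twx_one (χ : Γ →* ℤ) [DecidableEq l] : twx χ (1 : Matrix l l (ZG Γ)) = 1 := by
  funext j i
  show sx χ ((1 : Matrix l l (ZG Γ)) i j) = _
  by_cases h : i = j
  · subst h
    rw [Matrix.one_apply_eq]
    exact sx_one χ
  · rw [Matrix.one_apply_ne h, Matrix.one_apply_ne (Ne.symm h), map_zero]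

lemma twx_single (χ : Γ →* ℤ) [DecidableEq l] [DecidableEq m] (i : l) (j : m) (a : ZG Γ) :
    twx χ (Matrix.single i j a) = Matrix.single j i (sx χ a) := by
  funext j' i'
  show sx χ (Matrix.single i j a i' j') = _
  rw [Matrix.single_apply, Matrix.single_apply]
  by_cases h : i = i' ∧ j = j'
  · rw [if_pos h, if_pos ⟨h.2, h.1⟩]
  · rw [if_neg h, if_neg fun h' => h ⟨h'.2, h'.1⟩, map_zero]

/-- the operator of a matrix which acts on columns -/
noncomputable def ac (M : Matrix m n (ZG Γ)) : E Γ n →L[ℂ] E Γ m := hat (twx 1 M)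

lemma ac_mul (M : Matrix l m (ZG Γ)) (N : Matrix m n (ZG Γ)) (f : E Γ n) : ac (M * N) f = ac M (ac N f) := by
  unfold ac
  rw [twx_mul, hat_mul]
  rfl

lemma ac_one [DecidableEq l] (f : E Γ l) : ac (1 : Matrix l l (ZG Γ)) f = f := by
  unfold ac
  rw [twx_one, hat_one]
  rfl

lemma ac_zero (f : E Γ m) : ac (0 : Matrix l m (ZG Γ)) f = 0 := by
  unfold ac
  rw [twx_zero, hat_zero]
  rfl

lemma ac_add (M N : Matrix l m (ZG Γ)) (f : E Γ m) : ac (M + N) f = ac M f + ac N f := by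
  unfold ac
  rw [twx_add, hat_add]
  rfl

lemma ac_sub (M N : Matrix l m (ZG Γ)) (f : E Γ m) : ac (M - N) f = ac M f - ac N f := by
  unfold ac
  rw [sub_eq_add_neg, twx_add, twx_neg, hat_add, hat_neg, sub_eq_add_neg]
  rfl

open Classical in
lemma hat_single (i : l) (j : m) (g : Γ) (c : ℤ) :
    hat (Matrix.single i j (MonoidAlgebra.single g c : ZG Γ)) = (c : ℂ) • (rt g⁻¹).comp (col i j) := by
  ext f x
  obtain ⟨h, k⟩ := x
  rw [hat_apply, smul_apply, ContinuousLinearMap.comp_apply, lp.coeFn_smul, Pi.smul_apply, smul_eq_mul, rt_apply,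
    col_apply]
  by_cases hk : k = j
  · subst hk
    rw [if_pos rfl, Finset.sum_eq_single_of_mem i (Finset.mem_univ i)]
    · rw [Matrix.single_apply_same]
      by_cases hc : c = 0
      · subst hc
        simp
      · rw [MonoidAlgebra.coeff_single, Finsupp.support_single _ hc, Finset.sum_singleton, Finsupp.single_eq_same]
    · intro i' _ hi'
      rw [Matrix.single_apply_of_row_ne (Ne.symm hi')]
      simp
  · rw [if_neg (by exact hk), mul_zero]
    refine Finset.sum_eq_zero fun i' _ => ?_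
    rw [Matrix.single_apply_of_col_ne _ _ (Ne.symm hk)]
    simp

open Classical in
/-- induction on the matrices over the group ring -/
lemma mat_induction {P : Matrix l m (ZG Γ) → Prop} (M : Matrix l m (ZG Γ)) (h0 : P 0) (ha : ∀ p q, P p → P q → P (p + q))
    (hs : ∀ i j g (c : ℤ), P (Matrix.single i j (MonoidAlgebra.single g c))) : P M := by
  refine Matrix.induction_on' M h0 ha fun i j x => ?_
  induction x using MonoidAlgebra.induction_linear with
  | zero =>
    rw [Matrix.single_zero]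
    exact h0
  | add a b h1 h2 =>
    rw [Matrix.single_add]
    exact ha _ _ h1 h2
  | single g c => exact hs i j g c

lemma col_rt (i : l) (j : m) (a : Γ) (f : E Γ l) : col i j (rt a f) = rt a (col i j f) := by
  classical
  ext x
  rw [col_apply, rt_apply, rt_apply, col_apply]

/-- the operator `ac M` is adjoint to the operator `hat M` -/
lemma inner_hat (M : Matrix l m (ZG Γ)) (f : E Γ l) (h : E Γ m) : ⟪hat M f, h⟫_ℂ = ⟪f, ac M h⟫_ℂ := by
  classical
  unfold ac
  induction M using mat_induction with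
  | h0 => rw [twx_zero, hat_zero, hat_zero, zero_apply, zero_apply, inner_zero_left, inner_zero_right]
  | ha p q hp hq => rw [twx_add, hat_add, hat_add, add_apply, add_apply, inner_add_left, inner_add_right, hp, hq]
  | hs i j g c =>
    rw [twx_single, sx_single, hat_single, hat_single, smul_apply, smul_apply, inner_smul_left, inner_smul_right,
      ContinuousLinearMap.comp_apply, ContinuousLinearMap.comp_apply, inner_rt_left, inner_col_left, MonoidHom.one_apply,
      mul_one, map_intCast, col_rt]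

/-! ### the twist by a character -/

/-- the character with values in the units -/
noncomputable abbrev uch (χ : Γ →* ℤ) : Γ →* ℤˣ := χ.toHomUnits

lemma uch_inv (χ : Γ →* ℤ) (g : Γ) : ((uch χ g⁻¹ : ℤˣ) : ℤ) = χ g := by
  have h1 : ((uch χ g : ℤˣ) : ℤ) = χ g := rfl
  rw [← h1, map_inv]
  rcases Int.units_eq_one_or (uch χ g) with h | h <;> simp [h]

lemma tw_col (χ : Γ →* ℤˣ) (i : l) (j : m) (f : E Γ l) : tw χ (col i j f) = col i j (tw χ f) := by
  classical
  ext x
  rw [tw_apply, col_apply, col_apply]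
  split_ifs
  · rw [tw_apply]
  · rw [mul_zero]

/-- the twisted matrix is conjugate to the matrix -/
lemma ac_twx (χ : Γ →* ℤ) (M : Matrix l m (ZG Γ)) (f : E Γ l) :
    ac (twx χ M) (tw (uch χ) f) = tw (uch χ) (hat M f) := by
  classical
  unfold ac
  induction M using mat_induction with
  | h0 => rw [twx_zero, twx_zero, hat_zero, zero_apply, zero_apply, map_zero]
  | ha p q hp hq => rw [twx_add, twx_add, hat_add, hat_add, add_apply, add_apply, map_add, hp, hq]
  | hs i j g c =>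
    rw [twx_single, twx_single, sx_single, sx_single, hat_single, hat_single, smul_apply, smul_apply,
      ContinuousLinearMap.comp_apply, ContinuousLinearMap.comp_apply, map_smul, tw_rt, tw_col, uch_inv, inv_inv,
      MonoidHom.one_apply, mul_one, smul_smul, Int.cast_mul]

end ops

/-! ### exactness up to closure -/

section low
variable {Γ : Type} [Group Γ] {κ ι : ℕ → Type} [∀ i, Fintype (κ i)] [∀ i, Fintype (ι i)]
  [∀ i, DecidableEq (κ i)] [∀ i, DecidableEq (ι i)]
  {c : ∀ i, Matrix (κ (i + 1)) (κ i) (ZG Γ)} {D : ∀ j, Matrix (ι j) (ι (j + 1)) (ZG Γ)} {n : ℕ}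

/-- the image of a limit of elements of the range -/
lemma mem_closure_of_comp {X Y Z W : Type*} [NormedAddCommGroup X] [NormedSpace ℂ X] [NormedAddCommGroup Y]
    [NormedSpace ℂ Y] [NormedAddCommGroup Z] [NormedSpace ℂ Z] [NormedAddCommGroup W] [NormedSpace ℂ W]
    {S : X →L[ℂ] Y} {T : Z →L[ℂ] W} {g : Y →L[ℂ] W} {G : X →L[ℂ] Z} (h : ∀ x, g (S x) = T (G x)) {y : Y}
    (hy : y ∈ closure (Set.range S)) (w : Z) : g y + T w ∈ closure (Set.range T) := by
  have h1 : (fun y => g y + T w) y ∈ closure ((fun y => g y + T w) '' Set.range S) :=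
    image_closure_subset_closure_image (g.continuous.add continuous_const) ⟨y, hy, rfl⟩
  refine closure_mono ?_ h1
  rintro _ ⟨_, ⟨x, rfl⟩, rfl⟩
  exact ⟨G x + w, by rw [map_add, ← h]⟩

/-- from homology to cohomology -/
theorem cl_low (DD : ∀ j, D j * D (j + 1) = 0) {i j : ℕ}
    (exc : ∀ x : κ (i + 1) → ZG Γ, c (i + 1) *ᵥ x = 0 → ∃ z, c i *ᵥ z = x)
    (base : ∃ (f : Matrix (ι (j + 1)) (κ (i + 1)) (ZG Γ)) (g : Matrix (κ (i + 1)) (ι (j + 1)) (ZG Γ))
      (h : Matrix (κ (i + 1)) (κ (i + 2)) (ZG Γ))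
      (f' : Matrix (ι j) (κ (i + 2)) (ZG Γ)) (g' : Matrix (κ (i + 2)) (ι j) (ZG Γ)) (k : Matrix (ι (j + 1)) (ι j) (ZG Γ)),
      D j * f = f' * c (i + 1) ∧ c (i + 1) * g = g' * D j ∧ c (i + 1) * (1 - g * f - h * c (i + 1)) = 0 ∧
        D j * (1 - f * g - k * D j) = 0)
    (hN : ∀ x : E Γ (ι (j + 1)), ac (D j) x = 0 → x ∈ closure (Set.range (ac (D (j + 1)))))
    (y : E Γ (κ (i + 1))) (hy : ac (c (i + 1)) y = 0) : y ∈ closure (Set.range (ac (c i))) := by
  obtain ⟨f, g, h, f', g', -, h1, h2, h3, -⟩ := base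
  have hz := hN (ac f y) (by rw [← ac_mul, h1, ac_mul, hy, map_zero])
  obtain ⟨G, hG⟩ : ∃ G : Matrix (κ i) (ι (j + 2)) (ZG Γ), c i * G = g * D (j + 1) := by
    refine exists_mul_of_col fun k => exc _ (col_of_mul_eq_zero (M := c (i + 1)) (Q := g * D (j + 1)) ?_ k)
    rw [← Matrix.mul_assoc, h2, Matrix.mul_assoc, DD, Matrix.mul_zero]
  obtain ⟨S, hS⟩ : ∃ S : Matrix (κ i) (κ (i + 1)) (ZG Γ), c i * S = 1 - g * f - h * c (i + 1) :=
    exists_mul_of_col fun k => exc _ (col_of_mul_eq_zero (M := c (i + 1)) h3 k)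
  have h5 := mem_closure_of_comp (S := ac (D (j + 1))) (T := ac (c i)) (g := ac g) (G := ac G)
    (fun x => by rw [← ac_mul, ← ac_mul, hG]) hz (ac S y)
  have h6 : ac g (ac f y) + ac (c i) (ac S y) = y := by
    rw [← ac_mul, ← ac_mul, hS, ac_sub, ac_sub, ac_one, ac_mul h, hy, map_zero, sub_zero, add_sub_cancel]
  rwa [h6] at h5

/-- from cohomology to homology -/
theorem cl_low_rev (cc : ∀ i, c (i + 1) * c i = 0) {i j : ℕ}
    (exD : ∀ x : ι (j + 1) → ZG Γ, D j *ᵥ x = 0 → ∃ z, D (j + 1) *ᵥ z = x)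
    (base : ∃ (f : Matrix (ι (j + 1)) (κ (i + 1)) (ZG Γ)) (g : Matrix (κ (i + 1)) (ι (j + 1)) (ZG Γ))
      (h : Matrix (κ (i + 1)) (κ (i + 2)) (ZG Γ))
      (f' : Matrix (ι j) (κ (i + 2)) (ZG Γ)) (g' : Matrix (κ (i + 2)) (ι j) (ZG Γ)) (k : Matrix (ι (j + 1)) (ι j) (ZG Γ)),
      D j * f = f' * c (i + 1) ∧ c (i + 1) * g = g' * D j ∧ c (i + 1) * (1 - g * f - h * c (i + 1)) = 0 ∧
        D j * (1 - f * g - k * D j) = 0)
    (hN : ∀ y : E Γ (κ (i + 1)), ac (c (i + 1)) y = 0 → y ∈ closure (Set.range (ac (c i))))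
    (x : E Γ (ι (j + 1))) (hx : ac (D j) x = 0) : x ∈ closure (Set.range (ac (D (j + 1)))) := by
  obtain ⟨f, g, h, f', g', k, h1, h2, -, h4⟩ := base
  have hz := hN (ac g x) (by rw [← ac_mul, h2, ac_mul, hx, map_zero])
  obtain ⟨F, hF⟩ : ∃ F : Matrix (ι (j + 2)) (κ i) (ZG Γ), D (j + 1) * F = f * c i := by
    refine exists_mul_of_col fun k => exD _ (col_of_mul_eq_zero (M := D j) (Q := f * c i) ?_ k)
    rw [← Matrix.mul_assoc, h1, Matrix.mul_assoc, cc, Matrix.mul_zero]
  obtain ⟨K, hK⟩ : ∃ K : Matrix (ι (j + 2)) (ι (j + 1)) (ZG Γ), D (j + 1) * K = 1 - f * g - k * D j :=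
    exists_mul_of_col fun l => exD _ (col_of_mul_eq_zero (M := D j) h4 l)
  have h5 := mem_closure_of_comp (S := ac (c i)) (T := ac (D (j + 1))) (g := ac f) (G := ac F)
    (fun x => by rw [← ac_mul, ← ac_mul, hF]) hz (ac K x)
  have h6 : ac f (ac g x) + ac (D (j + 1)) (ac K x) = x := by
    rw [← ac_mul, ← ac_mul, hK, ac_sub, ac_sub, ac_one, ac_mul k, hx, map_zero, sub_zero, add_sub_cancel]
  rwa [h6] at h5

/-- above the top degree -/
theorem cl_high {i : ℕ} {u : Matrix (κ (i + 1)) (κ (i + 2)) (ZG Γ)} (hu : c (i + 1) * u * c (i + 1) = c (i + 1))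
    (exc : ∀ x : κ (i + 1) → ZG Γ, c (i + 1) *ᵥ x = 0 → ∃ z, c i *ᵥ z = x)
    (y : E Γ (κ (i + 1))) (hy : ac (c (i + 1)) y = 0) : y ∈ closure (Set.range (ac (c i))) := by
  have hce : c (i + 1) * (1 - u * c (i + 1)) = 0 := by
    rw [Matrix.mul_sub, Matrix.mul_one, ← Matrix.mul_assoc, hu, sub_self]
  obtain ⟨v, hv⟩ : ∃ v : Matrix (κ i) (κ (i + 1)) (ZG Γ), c i * v = 1 - u * c (i + 1) :=
    exists_mul_of_col fun k => exc _ (col_of_mul_eq_zero hce k)
  refine subset_closure ⟨ac v y, ?_⟩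
  rw [← ac_mul, hv, ac_sub, ac_one, ac_mul, hy, map_zero, sub_zero]

end low

/-! ### homology and cohomology -/

section hodge
variable {X Y Z : Type*} [NormedAddCommGroup X] [InnerProductSpace ℂ X] [NormedAddCommGroup Y] [InnerProductSpace ℂ Y]
  [CompleteSpace Y] [NormedAddCommGroup Z] [InnerProductSpace ℂ Z]

/-- cycles are limits of boundaries if and only if there are no harmonic chains -/
lemma cl_iff_zero {A : Z →L[ℂ] Y} {B : Y →L[ℂ] X} {A' : Y →L[ℂ] Z} (hA : ∀ z y, ⟪A z, y⟫_ℂ = ⟪z, A' y⟫_ℂ)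
    (hBA : ∀ z, B (A z) = 0) :
    (∀ y, B y = 0 → y ∈ closure (Set.range A)) ↔ ∀ y, B y = 0 → A' y = 0 → y = 0 := by
  have hcl : ∀ y, y ∈ closure (Set.range A) ↔ y ∈ (LinearMap.range (A : Z →ₗ[ℂ] Y)).topologicalClosure := fun y => Iff.rfl
  constructor
  · intro h y hB hA'
    have h1 := (hcl y).1 (h y hB)
    have h2 : y ∈ (LinearMap.range (A : Z →ₗ[ℂ] Y))ᗮ := by
      rw [Submodule.mem_orthogonal]
      rintro _ ⟨z, rfl⟩
      show ⟪A z, y⟫_ℂ = 0
      rw [hA, hA', inner_zero_right]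
    rw [← Submodule.orthogonal_closure] at h2
    exact inner_self_eq_zero.1 (Submodule.inner_right_of_mem_orthogonal h1 h2)
  · intro h y hB
    rw [hcl]
    set K := (LinearMap.range (A : Z →ₗ[ℂ] Y)).topologicalClosure with hK
    have hKc : IsClosed (K : Set Y) := Submodule.isClosed_topologicalClosure _
    have : CompleteSpace K := hKc.completeSpace_coe
    obtain ⟨p, hp, q, hq, rfl⟩ := K.exists_add_mem_mem_orthogonal y
    have hBp : B p = 0 := by
      have h1 : K ≤ LinearMap.ker (B : Y →ₗ[ℂ] X) := by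
        refine Submodule.topologicalClosure_minimal _ ?_ B.isClosed_ker
        rintro _ ⟨z, rfl⟩
        exact hBA z
      exact h1 hp
    have hBq : B q = 0 := by rw [map_add, hBp, zero_add] at hB; exact hB
    have hAq : A' q = 0 := by
      have h1 : ⟪A (A' q), q⟫_ℂ = 0 :=
        Submodule.inner_right_of_mem_orthogonal
          (Submodule.le_topologicalClosure (LinearMap.range (A : Z →ₗ[ℂ] Y)) ⟨A' q, rfl⟩) hq
      rw [hA] at h1
      exact inner_self_eq_zero.1 h1
    rw [h q hBq hAq, add_zero]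
    exact hp

end hodge

section fin
variable {Γ : Type} [Group Γ] (R : FinRes Γ)

/-- reduced homology -/
lemma van_iff_cm (i : ℕ) : R.Van i ↔ ∀ f : E Γ (kap R (i + 1)), hat (cm R i) f = 0 →
    f ∈ closure (Set.range (hat (cm R (i + 1)))) := by
  cases i with
  | zero =>
    have h0 : ∀ f : E Γ (kap R 1), hat (cm R 0) f = 0 := by
      intro f
      ext ⟨g, e⟩
      exact Empty.elim e
    constructor
    · intro h f _
      exact h f
    · intro h f
      exact h f (h0 f)
  | succ i => exact Iff.rfl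

/-- reduced homology and reduced cohomology -/
lemma van_iff_co (i : ℕ) : R.Van i ↔ ∀ f : E Γ (kap R (i + 1)), ac (cm R (i + 1)) f = 0 →
    f ∈ closure (Set.range (ac (cm R i))) := by
  have h1 : ∀ z : E Γ (kap R (i + 2)), hat (cm R i) (hat (cm R (i + 1)) z) = 0 := by
    intro z
    have := hat_mul (cm R (i + 1)) (cm R i)
    rw [cm_cm, hat_zero] at this
    exact (DFunLike.congr_fun this z).symm
  have h2 : ∀ z : E Γ (kap R i), ac (cm R (i + 1)) (ac (cm R i) z) = 0 := by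
    intro z
    rw [← ac_mul, cm_cm, ac_zero]
  rw [van_iff_cm, cl_iff_zero (A' := ac (cm R (i + 1))) (fun z y => inner_hat _ _ _) h1,
    cl_iff_zero (A' := hat (cm R i)) (fun z y => ?_) h2]
  · exact forall_congr' fun y => ⟨fun h a b => h b a, fun h a b => h b a⟩
  · rw [← inner_conj_symm, ← inner_hat, inner_conj_symm]

/-- the twist does not change the reduced homology -/
lemma mem_cl_twx (χ : Γ →* ℤ) {l m : Type} [Fintype l] [Fintype m] (M : Matrix l m (ZG Γ)) (f : E Γ m) :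
    tw (uch χ) f ∈ closure (Set.range (ac (twx χ M))) ↔ f ∈ closure (Set.range (hat M)) := by
  have key : ∀ (S T : E Γ l →L[ℂ] E Γ m) (_ : ∀ x, S (tw (uch χ) x) = tw (uch χ) (T x)) (f : E Γ m),
      f ∈ closure (Set.range T) → tw (uch χ) f ∈ closure (Set.range S) := by
    intro S T h f hf
    have h1 : tw (uch χ) f ∈ closure (tw (uch χ) '' Set.range T) :=
      image_closure_subset_closure_image (tw (uch χ)).continuous ⟨f, hf, rfl⟩
    refine closure_mono ?_ h1
    rintro _ ⟨_, ⟨x, rfl⟩, rfl⟩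
    exact ⟨tw (uch χ) x, h x⟩
  constructor
  · intro h
    have := key (hat M) (ac (twx χ M)) (fun x => by
      have h1 := ac_twx χ M (tw (uch χ) x)
      rw [tw_tw] at h1
      rw [h1, tw_tw]) _ h
    rwa [tw_tw] at this
  · exact key _ _ (fun x => ac_twx χ M x) f

lemma hat_eq_zero_iff (χ : Γ →* ℤ) {l m : Type} [Fintype l] [Fintype m] (M : Matrix l m (ZG Γ)) (f : E Γ l) :
    ac (twx χ M) (tw (uch χ) f) = 0 ↔ hat M f = 0 := by
  rw [ac_twx]
  constructor
  · intro h
    have := congrArg (tw (uch χ)) h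
    rwa [tw_tw, map_zero] at this
  · intro h
    rw [h, map_zero]

/-- **Poincare duality** for the reduced `ℓ²`-homology -/
theorem l2_dual {n : ℕ} (hPD : IsPD n Γ) :
    (∀ i j, i + j = n → (R.VanE i ↔ R.VanE j)) ∧ ∀ i, n < i → R.VanE i := by
  classical
  obtain ⟨χ, u, X, ε, r, η, t, hDD, hexD, hex, hreg, hu, hεX, hr, hεex, hηX, hη1, ht', hker⟩ := pd_setup hPD R
  obtain ⟨hbase, -, -⟩ := pd_top.{0, 0, 0} (κ := kap R) (ι := R.ι) (c := cm R) (D := fun j => twx χ (R.d j)) (n := n) (cm_cm R) hu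
    ε hεX hr hεex η hηX hη1 ht' hker
  obtain ⟨f, g, h, f', g', k, h1, h2, h3, h4, h5⟩ := pd_top_raw (κ := kap R) (ι := R.ι) (c := cm R)
    (D := fun j => twx χ (R.d j)) (n := n) (cm_cm R) hu ε hεX hr hεex η hηX hη1 ht' hker
  have hstep := pd_step (κ := kap R) (ι := R.ι) (c := cm R) (D := fun j => twx χ (R.d j)) (n := n) (cm_cm R) hDD hexD
    (fun i hi x hx => hex i (by omega) x hx) hbase
  have main : ∀ i j, i + j = n → (R.Van i ↔ R.Van j) := by
    intro i j hij
    rw [van_iff_co]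
    cases j with
    | zero =>
      have hi' : i = n := by omega
      subst hi'
      constructor
      · intro hC x
        rw [← mem_cl_twx χ]
        have h6 := mem_closure_of_comp (S := ac (cm R i)) (T := ac (twx χ (R.d 0))) (g := ac f') (G := ac f)
          (fun x => by rw [← ac_mul, ← ac_mul, h1]) (hC (ac g' (tw (uch χ) x)) (by rw [← ac_mul, h5, ac_zero]))
          (ac k (tw (uch χ) x))
        have h7 : ac f' (ac g' (tw (uch χ) x)) + ac (twx χ (R.d 0)) (ac k (tw (uch χ) x)) = tw (uch χ) x := by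
          rw [← ac_mul, ← ac_mul, h4, ac_sub, ac_one, add_sub_cancel]
        rwa [h7] at h6
      · intro hH y hy
        have h8 : ∀ x : E Γ (R.ι 0), x ∈ closure (Set.range (ac (twx χ (R.d 0)))) := by
          intro x
          have := (mem_cl_twx χ (R.d 0) (tw (uch χ) x)).2 (hH _)
          rwa [tw_tw] at this
        have h6 := mem_closure_of_comp (S := ac (twx χ (R.d 0))) (T := ac (cm R i)) (g := ac g') (G := ac g)
          (fun x => by rw [← ac_mul, ← ac_mul, h2]) (h8 (ac f' y)) (ac h y)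
        have h7 : ac g' (ac f' y) + ac (cm R i) (ac h y) = y := by
          have hey : ∀ u' : Matrix (kap R (i + 1)) (kap R (i + 2)) (ZG Γ),
              ac ((1 : Matrix (kap R (i + 1)) (kap R (i + 1)) (ZG Γ)) - u' * cm R (i + 1)) y = y := fun u' => by
            rw [ac_sub, ac_one, ac_mul, hy, map_zero, sub_zero]
          rw [← ac_mul (cm R i), h3, ac_sub, ac_mul (g' * f'), hey, ac_mul g' f', add_sub_cancel]
        rwa [h7] at h6
    | succ j =>
      have hst := hstep j (i + 1) (by omega)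
      have hH : R.Van (j + 1) ↔ ∀ x : E Γ (R.ι (j + 1)), ac (twx χ (R.d j)) x = 0 →
          x ∈ closure (Set.range (ac (twx χ (R.d (j + 1))))) := by
        constructor
        · intro hV x hx
          have h6 := hV (tw (uch χ) x) ((hat_eq_zero_iff χ _ _).1 (by rwa [tw_tw]))
          rw [← mem_cl_twx χ, tw_tw] at h6
          exact h6
        · intro hV x hx
          rw [← mem_cl_twx χ]
          exact hV _ ((hat_eq_zero_iff χ _ _).2 hx)
      rw [hH]
      constructor
      · intro hC x hx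
        exact cl_low_rev (κ := kap R) (ι := R.ι) (c := cm R) (D := fun j => twx χ (R.d j)) (cm_cm R) (hexD j) hst hC x hx
      · intro hN y hy
        exact cl_low (κ := kap R) (ι := R.ι) (c := cm R) (D := fun j => twx χ (R.d j)) hDD
          (fun x hx => hex i (by omega) x hx) hst hN y hy
  refine ⟨fun i j hij => by rw [← R.van_iff_vanE, ← R.van_iff_vanE]; exact main i j hij, fun i hi => ?_⟩
  rw [← R.van_iff_vanE, van_iff_co]
  obtain ⟨u, hu⟩ := hreg (i + 1) (by omega)
  intro y hy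
  exact cl_high (κ := kap R) (c := cm R) hu (fun x hx => hex i (by omega) x hx) y hy

end fin

end SQ
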