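import Pool.Agent.SQ.HH.Defs

/-!
# SQ: monomial modules, double cosets, Shapiro's lemma (row H5)
-/

set_option autoImplicit false
set_option linter.unusedSectionVars false

open scoped TensorProduct

noncomputable section

namespace SQ.HH

open Singer SQ.Acr

/-! ### families of modules -/

section fam
variable {Γ : Type} [Group Γ] {Ω : Type} {L : Ω → Type} [∀ ω, Group (L ω)] (l : ∀ ω, L ω →* Γ) {Y : Ω → Type}
  [∀ ω, AddCommGroup (Y ω)] [∀ ω, Module (ZMod 2) (Y ω)] (τ : ∀ ω, Representation (ZMod 2) (L ω) (Y ω))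
  {L' : Type} [Group L'] (l' : L' →* Γ) {W : Type} [AddCommGroup W] [Module (ZMod 2) W]
  (σ : Representation (ZMod 2) L' W)

/-- the vanishing for a family of modules gives the vanishing for a module which is their sum -/
theorem HV_fam (R : FinRes Γ) (j : ℕ)
    (i : ∀ ω (α : Type), (α → MonoidAlgebra (ZMod 2) Γ) ⊗[ZMod 2] Y ω →ₗ[ZMod 2] (α → MonoidAlgebra (ZMod 2) Γ) ⊗[ZMod 2] W)
    (p : ∀ ω (α : Type), (α → MonoidAlgebra (ZMod 2) Γ) ⊗[ZMod 2] W →ₗ[ZMod 2] (α → MonoidAlgebra (ZMod 2) Γ) ⊗[ZMod 2] Y ω)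
    (hid : ∀ ω j z, bdl W R j (i ω _ z) = i ω _ (bdl (Y ω) R j z))
    (hpd : ∀ ω j z, bdl (Y ω) R j (p ω _ z) = p ω _ (bdl W R j z))
    (hi : ∀ ω α z, z ∈ Ivl (l ω) (τ ω) α → i ω α z ∈ Ivl l' σ α)
    (hp : ∀ ω α z, z ∈ Ivl l' σ α → p ω α z ∈ Ivl (l ω) (τ ω) α)
    (hsum : ∀ z : (R.ι (j + 1) → MonoidAlgebra (ZMod 2) Γ) ⊗[ZMod 2] W,
      ∃ T : Finset Ω, z - ∑ ω ∈ T, i ω _ (p ω _ z) ∈ Ivl l' σ _)
    (H : ∀ ω, HV (l ω) (τ ω) R j) : HV l' σ R j := by
  intro c hc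
  have h1 : ∀ ω, ∃ e, p ω _ c - bdl (Y ω) R (j + 1) e ∈ Ivl (l ω) (τ ω) (R.ι (j + 1)) := by
    intro ω
    refine H ω (p ω _ c) ?_
    rw [hpd]
    exact hp ω _ _ hc
  choose e he using h1
  obtain ⟨T, hT⟩ := hsum c
  refine ⟨∑ ω ∈ T, i ω _ (e ω), ?_⟩
  have h2 : ∑ ω ∈ T, i ω _ (p ω _ c) - bdl W R (j + 1) (∑ ω ∈ T, i ω _ (e ω)) ∈ Ivl l' σ (R.ι (j + 1)) := by
    rw [map_sum, ← Finset.sum_sub_distrib]
    refine Submodule.sum_mem _ fun ω _ => ?_
    rw [hid, ← map_sub]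
    exact hi ω _ _ (he ω)
  have h3 := add_mem hT h2
  rwa [sub_add_sub_cancel] at h3

end fam

section ivl
variable {L Γ : Type} [Group L] [Group Γ] (l : L →* Γ) {Y : Type} [AddCommGroup Y] [Module (ZMod 2) Y]
  (τ : Representation (ZMod 2) L Y)

lemma sgl_tmul {α : Type} (g : L) (x : α → MonoidAlgebra (ZMod 2) Γ) (y : Y) :
    sgl l τ α g (x ⊗ₜ[ZMod 2] y) = Acr.lam α (l g) x ⊗ₜ[ZMod 2] τ g y := rfl

lemma Ivl.mk {α : Type} (g : L) (x : (α → MonoidAlgebra (ZMod 2) Γ) ⊗[ZMod 2] Y) : sgl l τ α g x - x ∈ Ivl l τ α :=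
  Submodule.subset_span ⟨g, x, rfl⟩

/-- a linear map which maps the differences of the generators to a submodule -/
lemma Ivl.map {α : Type} {X : Type} [AddCommGroup X] [Module (ZMod 2) X]
    (f : (α → MonoidAlgebra (ZMod 2) Γ) ⊗[ZMod 2] Y →ₗ[ZMod 2] X) (B : Submodule (ZMod 2) X)
    (h : ∀ (g : L) x, f (sgl l τ α g x) - f x ∈ B) {z : (α → MonoidAlgebra (ZMod 2) Γ) ⊗[ZMod 2] Y}
    (hz : z ∈ Ivl l τ α) : f z ∈ B := by
  refine Submodule.span_induction (p := fun z _ => f z ∈ B) ?_ ?_ ?_ ?_ hz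
  · rintro _ ⟨g, x, rfl⟩
    rw [map_sub]
    exact h g x
  · rw [map_zero]; exact zero_mem _
  · intro x y _ _ hx hy
    rw [map_add]; exact add_mem hx hy
  · intro c x _ hx
    rw [map_smul]; exact Submodule.smul_mem _ _ hx

end ivl

section retract
variable {L Γ : Type} [Group L] [Group Γ] (l : L →* Γ) {Y W : Type} [AddCommGroup Y] [Module (ZMod 2) Y]
  [AddCommGroup W] [Module (ZMod 2) W] (τ : Representation (ZMod 2) L Y) (σ : Representation (ZMod 2) L W)

lemma bdl_lT {R : FinRes Γ} (f : W →ₗ[ZMod 2] Y) (j : ℕ)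
    (z : (R.ι (j + 1) → MonoidAlgebra (ZMod 2) Γ) ⊗[ZMod 2] W) :
    bdl Y R j (f.lTensor _ z) = f.lTensor _ (bdl W R j z) := by
  induction z using TensorProduct.induction_on with
  | zero => simp only [map_zero]
  | add x y hx hy => simp only [map_add, hx, hy]
  | tmul x y => rfl

lemma Ivl_lT (f : W →ₗ[ZMod 2] Y) (hf : ∀ g w, f (σ g w) = τ g (f w)) (α : Type)
    {z : (α → MonoidAlgebra (ZMod 2) Γ) ⊗[ZMod 2] W} (hz : z ∈ Ivl l σ α) : f.lTensor _ z ∈ Ivl l τ α := by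
  refine Ivl.map l σ (f.lTensor _) _ (fun g x => ?_) hz
  have h1 : f.lTensor _ (sgl l σ α g x) = sgl l τ α g (f.lTensor _ x) := by
    induction x using TensorProduct.induction_on with
    | zero => simp only [map_zero]
    | add x y hx hy => simp only [map_add, hx, hy]
    | tmul x y =>
      rw [sgl_tmul, LinearMap.lTensor_tmul, LinearMap.lTensor_tmul, sgl_tmul, hf]
  rw [h1]
  exact Ivl.mk l τ g _

/-- a retract of a module with vanishing homology -/
theorem HV_retract (f : W →ₗ[ZMod 2] Y) (g : Y →ₗ[ZMod 2] W) (hf : ∀ x w, f (σ x w) = τ x (f w))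
    (hg : ∀ x y, g (τ x y) = σ x (g y)) (hgf : ∀ w, g (f w) = w) (R : FinRes Γ) (j : ℕ) (H : HV l τ R j) : HV l σ R j := by
  refine HV_fam (Ω := Unit) (fun _ => l) (fun _ => τ) l σ R j (fun _ α => g.lTensor _) (fun _ α => f.lTensor _)
    (fun _ j z => bdl_lT g j z) (fun _ j z => bdl_lT f j z) (fun _ α z hz => Ivl_lT l σ τ g hg α hz)
    (fun _ α z hz => Ivl_lT l τ σ f hf α hz) (fun z => ⟨{()}, ?_⟩) fun _ => H
  have h1 : g.lTensor (R.ι (j + 1) → MonoidAlgebra (ZMod 2) Γ) (f.lTensor _ z) = z := by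
    rw [← LinearMap.comp_apply, ← LinearMap.lTensor_comp]
    have h2 : g ∘ₗ f = LinearMap.id := LinearMap.ext hgf
    rw [h2, LinearMap.lTensor_id]
    rfl
  rw [Finset.sum_singleton, h1, sub_self]
  exact zero_mem _

end retract

/-! ### monomial modules -/

section mono
variable {Γ : Type} [Group Γ] {Q : Type} [MulAction Γ Q] {Y : Type} [AddCommGroup Y] [Module (ZMod 2) Y]
  (m : Representation (ZMod 2) Γ (Q →₀ Y)) (c : Γ → Q → (Y →ₗ[ZMod 2] Y))

/-- the orbit representative maps -/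
lemma exists_gam (q₀ : Q) : ∃ γ : Q → Γ, γ q₀ = 1 ∧ ∀ q, (∃ g : Γ, g • q = q₀) → γ q • q = q₀ := by
  classical
  refine ⟨fun q => if q = q₀ then 1 else if h : ∃ g : Γ, g • q = q₀ then h.choose else 1, if_pos rfl, fun q h => ?_⟩
  show (if q = q₀ then 1 else if h : ∃ g : Γ, g • q = q₀ then h.choose else 1) • q = q₀
  by_cases hq : q = q₀
  · rw [if_pos hq, one_smul, hq]
  · rw [if_neg hq, dif_pos h]
    exact h.choose_spec

open Classical in
/-- the projection to the summand of an orbit -/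
def prj (q₀ : Q) (γ : Q → Γ) (α : Type) :
    (α → MonoidAlgebra (ZMod 2) Γ) ⊗[ZMod 2] (Q →₀ Y) →ₗ[ZMod 2] (α → MonoidAlgebra (ZMod 2) Γ) ⊗[ZMod 2] Y :=
  (Finsupp.lsum (ZMod 2) fun q => if γ q • q = q₀ then TensorProduct.map (Acr.lam α (γ q)) (c (γ q) q) else 0) ∘ₗ
    (TensorProduct.finsuppRight (ZMod 2) (ZMod 2) (α → MonoidAlgebra (ZMod 2) Γ) Y Q).toLinearMap

lemma prj_single {q₀ : Q} {γ : Q → Γ} {α : Type} {q : Q} (h : γ q • q = q₀) (x : α → MonoidAlgebra (ZMod 2) Γ) (y : Y) :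
    prj c q₀ γ α (x ⊗ₜ[ZMod 2] Finsupp.single q y) = Acr.lam α (γ q) x ⊗ₜ[ZMod 2] c (γ q) q y := by
  classical
  rw [prj, LinearMap.comp_apply, LinearEquiv.coe_coe, TensorProduct.finsuppRight_tmul_single, Finsupp.lsum_single, if_pos h,
    TensorProduct.map_tmul]

lemma prj_single_of_not {q₀ : Q} {γ : Q → Γ} {α : Type} {q : Q} (h : γ q • q ≠ q₀) (x : α → MonoidAlgebra (ZMod 2) Γ)
    (y : Y) : prj c q₀ γ α (x ⊗ₜ[ZMod 2] Finsupp.single q y) = 0 := by
  classical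
  rw [prj, LinearMap.comp_apply, LinearEquiv.coe_coe, TensorProduct.finsuppRight_tmul_single, Finsupp.lsum_single, if_neg h]
  rfl

/-- induction -/
theorem ind_fs {α : Type} {p : (α → MonoidAlgebra (ZMod 2) Γ) ⊗[ZMod 2] (Q →₀ Y) → Prop}
    (h0 : p 0) (ha : ∀ x y, p x → p y → p (x + y)) (hb : ∀ x q y, p (x ⊗ₜ[ZMod 2] Finsupp.single q y))
    (z : (α → MonoidAlgebra (ZMod 2) Γ) ⊗[ZMod 2] (Q →₀ Y)) : p z := by
  induction z using TensorProduct.induction_on with
  | zero => exact h0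
  | add x y hx hy => exact ha x y hx hy
  | tmul x f =>
    induction f using Finsupp.induction_linear with
    | zero => rw [TensorProduct.tmul_zero]; exact h0
    | add f f' h h' => rw [TensorProduct.tmul_add]; exact ha _ _ h h'
    | single q y => exact hb x q y

variable {m c} (hm : ∀ g q y, m g (Finsupp.single q y) = Finsupp.single (g • q) (c g q y))

include hm in
lemma c_mul (g h : Γ) (q : Q) (y : Y) : c (g * h) q y = c g (h • q) (c h q y) := by
  have h1 : m (g * h) (Finsupp.single q y) = m g (m h (Finsupp.single q y)) := by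
    rw [map_mul, Module.End.mul_apply]
  rw [hm, hm, hm, mul_smul] at h1
  exact Finsupp.single_injective _ h1

include hm in
lemma c_one (q : Q) (y : Y) : c 1 q y = y := by
  have h1 : m 1 (Finsupp.single q y) = Finsupp.single q y := by
    rw [map_one]; rfl
  rw [hm, one_smul] at h1
  exact Finsupp.single_injective _ h1

variable {L : Type} [Group L] (l : L →* Γ) (τ : Representation (ZMod 2) L Y)

lemma prj_d {q₀ : Q} {γ : Q → Γ} {R : FinRes Γ} (j : ℕ)
    (z : (R.ι (j + 1) → MonoidAlgebra (ZMod 2) Γ) ⊗[ZMod 2] (Q →₀ Y)) :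
    bdl Y R j (prj c q₀ γ _ z) = prj c q₀ γ _ (bdl (Q →₀ Y) R j z) := by
  refine ind_fs (p := fun z => bdl Y R j (prj c q₀ γ _ z) = prj c q₀ γ _ (bdl (Q →₀ Y) R j z)) ?_ ?_ ?_ z
  · simp only [map_zero]
  · intro x y hx hy
    simp only [map_add, hx, hy]
  · intro x q y
    rw [LinearMap.rTensor_tmul]
    by_cases h : γ q • q = q₀
    · rw [prj_single c h, prj_single c h, LinearMap.rTensor_tmul, dd_lam]
    · rw [prj_single_of_not c h, prj_single_of_not c h, map_zero]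

include hm in
/-- the projection of a difference -/
lemma prj_Ivl {q₀ : Q} {γ : Q → Γ} (hγ : ∀ q, (∃ g : Γ, g • q = q₀) → γ q • q = q₀)
    (hl : ∀ g : Γ, g • q₀ = q₀ → ∃ x, l x = g ∧ ∀ y, τ x y = c g q₀ y) (α : Type)
    {z : (α → MonoidAlgebra (ZMod 2) Γ) ⊗[ZMod 2] (Q →₀ Y)} (hz : z ∈ Ivl (MonoidHom.id Γ) m α) :
    prj c q₀ γ α z ∈ Ivl l τ α := by
  refine Ivl.map _ m (prj c q₀ γ α) _ (fun g x => ?_) hz
  refine ind_fs (p := fun x => prj c q₀ γ α (sgl (MonoidHom.id Γ) m α g x) - prj c q₀ γ α x ∈ Ivl l τ α) ?_ ?_ ?_ x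
  · simp only [map_zero, sub_zero]
    exact zero_mem _
  · intro x y hx hy
    rw [map_add, map_add, map_add, add_sub_add_comm]
    exact add_mem hx hy
  · intro x q y
    rw [sgl_tmul, hm, MonoidHom.id_apply]
    by_cases h : γ q • q = q₀
    · have h' : γ (g • q) • (g • q) = q₀ := hγ _ ⟨γ q * g⁻¹, by rw [mul_smul, inv_smul_smul, h]⟩
      rw [prj_single c h, prj_single c h']
      obtain ⟨x', hx', hy'⟩ := hl (γ (g • q) * g * (γ q)⁻¹) (by
        rw [mul_smul, mul_smul, ← h, inv_smul_smul, h', h])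
      have h1 : Acr.lam α (γ (g • q)) (Acr.lam α g x) = Acr.lam α (l x') (Acr.lam α (γ q) x) := by
        rw [← Module.End.mul_apply, ← map_mul, ← Module.End.mul_apply, ← map_mul, hx', inv_mul_cancel_right]
      have h2 : c (γ (g • q)) (g • q) (c g q y) = τ x' (c (γ q) q y) := by
        rw [← c_mul hm, hy', ← h, ← c_mul hm, inv_mul_cancel_right]
      rw [h1, h2]
      exact Ivl.mk l τ x' (Acr.lam α (γ q) x ⊗ₜ[ZMod 2] c (γ q) q y)
    · have h' : γ (g • q) • (g • q) ≠ q₀ := fun h' => h (hγ _ ⟨γ (g • q) * g, by rw [mul_smul, h']⟩)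
      rw [prj_single_of_not c h, prj_single_of_not c h', sub_zero]
      exact zero_mem _

include hm in
/-- the inclusion of a difference -/
lemma inc_Ivl {q₀ : Q} (hl : ∀ x : L, l x • q₀ = q₀ ∧ ∀ y, τ x y = c (l x) q₀ y) (α : Type)
    {z : (α → MonoidAlgebra (ZMod 2) Γ) ⊗[ZMod 2] Y} (hz : z ∈ Ivl l τ α) :
    (Finsupp.lsingle q₀ : Y →ₗ[ZMod 2] (Q →₀ Y)).lTensor _ z ∈ Ivl (MonoidHom.id Γ) m α := by
  refine Ivl.map l τ ((Finsupp.lsingle q₀ : Y →ₗ[ZMod 2] (Q →₀ Y)).lTensor _) _ (fun g x => ?_) hz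
  have h1 : (Finsupp.lsingle q₀ : Y →ₗ[ZMod 2] (Q →₀ Y)).lTensor _ (sgl l τ α g x) =
      sgl (MonoidHom.id Γ) m α (l g) ((Finsupp.lsingle q₀ : Y →ₗ[ZMod 2] (Q →₀ Y)).lTensor _ x) := by
    induction x using TensorProduct.induction_on with
    | zero => simp only [map_zero]
    | add x y hx hy => simp only [map_add, hx, hy]
    | tmul x y =>
      rw [sgl_tmul, LinearMap.lTensor_tmul, LinearMap.lTensor_tmul, sgl_tmul, Finsupp.lsingle_apply, Finsupp.lsingle_apply,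
        hm, (hl g).1, (hl g).2, MonoidHom.id_apply]
  rw [h1]
  exact Ivl.mk _ m (l g) _

include hm in
/-- **Shapiro's lemma** for monomial modules -/
theorem HV_stab (q₀ : Q) (hl : ∀ x : L, l x • q₀ = q₀ ∧ ∀ y, τ x y = c (l x) q₀ y)
    (hl' : ∀ g : Γ, g • q₀ = q₀ → ∃ x, l x = g) (R : FinRes Γ) (j : ℕ) (H : HV (MonoidHom.id Γ) m R j) : HV l τ R j := by
  obtain ⟨γ, hγ1, hγ⟩ := exists_gam (Γ := Γ) q₀
  refine HV_fam (Ω := Unit) (fun _ => MonoidHom.id Γ) (fun _ => m) l τ R j (fun _ α => prj c q₀ γ α)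
    (fun _ α => (Finsupp.lsingle q₀ : Y →ₗ[ZMod 2] (Q →₀ Y)).lTensor _)
    (fun _ j z => prj_d j z) (fun _ j z => bdl_lT _ j z)
    (fun _ α z hz => prj_Ivl hm l τ hγ (fun g hg => ?_) α hz)
    (fun _ α z hz => inc_Ivl hm l τ hl α hz) (fun z => ⟨{()}, ?_⟩) fun _ => H
  · obtain ⟨x, hx⟩ := hl' g hg
    exact ⟨x, hx, fun y => by rw [(hl x).2, hx]⟩
  · have h1 : ∀ z : (R.ι (j + 1) → MonoidAlgebra (ZMod 2) Γ) ⊗[ZMod 2] Y,
        prj c q₀ γ _ ((Finsupp.lsingle q₀ : Y →ₗ[ZMod 2] (Q →₀ Y)).lTensor _ z) = z := by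
      intro z
      induction z using TensorProduct.induction_on with
      | zero => simp only [map_zero]
      | add x y hx hy => simp only [map_add, hx, hy]
      | tmul x y =>
        rw [LinearMap.lTensor_tmul, Finsupp.lsingle_apply, prj_single c (by rw [hγ1, one_smul]), hγ1, map_one, c_one hm]
        rfl
    rw [Finset.sum_singleton, h1, sub_self]
    exact zero_mem _

include hm in
/-- **orbit decomposition** -/
theorem HV_mono (R : FinRes Γ) (j : ℕ)
    (H : ∀ q₀ : Q, ∃ (L : Type) (_ : Group L) (l : L →* Γ) (τ : Representation (ZMod 2) L Y),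
      (∀ x : L, l x • q₀ = q₀ ∧ ∀ y, τ x y = c (l x) q₀ y) ∧ (∀ g : Γ, g • q₀ = q₀ → ∃ x, l x = g) ∧ HV l τ R j) :
    HV (MonoidHom.id Γ) m R j := by
  classical
  choose γ hγ1 hγ using fun q₀ : Q => exists_gam (Γ := Γ) q₀
  choose L hL l τ hl hl' HH using H
  let _ : ∀ q₀, Group (L q₀) := hL
  let r : MulAction.orbitRel.Quotient Γ Q → Q := Quotient.out
  have hr : ∀ q : Q, ∃ g : Γ, g • q = r (Quotient.mk'' q) := by
    intro q
    have h1 : (Quotient.mk'' (r (Quotient.mk'' q)) : MulAction.orbitRel.Quotient Γ Q) = Quotient.mk'' q := Quotient.out_eq' _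
    have h2 := Quotient.exact h1
    obtain ⟨g, hg⟩ := h2
    exact ⟨g, hg⟩
  have hr' : ∀ (q : Q) (ω : MulAction.orbitRel.Quotient Γ Q) (g : Γ), g • q = r ω → ω = Quotient.mk'' q := by
    intro q ω g h
    have h1 : (Quotient.mk'' (r ω) : MulAction.orbitRel.Quotient Γ Q) = ω := Quotient.out_eq' _
    rw [← h1, ← h]
    exact Quotient.sound (s := MulAction.orbitRel Γ Q) ⟨g, rfl⟩
  refine HV_fam (Ω := MulAction.orbitRel.Quotient Γ Q) (L := fun ω => L (r ω)) (fun ω => l (r ω)) (fun ω => τ (r ω))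
    (MonoidHom.id Γ) m R j (fun ω α => (Finsupp.lsingle (r ω) : Y →ₗ[ZMod 2] (Q →₀ Y)).lTensor _)
    (fun ω α => prj c (r ω) (γ (r ω)) α) (fun ω j z => bdl_lT _ j z) (fun ω j z => prj_d j z)
    (fun ω α z hz => inc_Ivl hm _ _ (hl (r ω)) α hz)
    (fun ω α z hz => prj_Ivl hm _ _ (hγ (r ω)) (fun g hg => ?_) α hz) ?_ fun ω => HH (r ω)
  · obtain ⟨x, hx⟩ := hl' (r ω) g hg
    exact ⟨x, hx, fun y => by rw [(hl (r ω) x).2, hx]⟩
  · have h1 : ∀ z : (R.ι (j + 1) → MonoidAlgebra (ZMod 2) Γ) ⊗[ZMod 2] (Q →₀ Y),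
        ∃ T : Finset (MulAction.orbitRel.Quotient Γ Q), ∀ T', T ⊆ T' →
          z - ∑ ω ∈ T', (Finsupp.lsingle (r ω) : Y →ₗ[ZMod 2] (Q →₀ Y)).lTensor _ (prj c (r ω) (γ (r ω)) _ z) ∈
            Ivl (MonoidHom.id Γ) m _ := by
      intro z
      refine ind_fs (p := fun z => ∃ T : Finset (MulAction.orbitRel.Quotient Γ Q), ∀ T', T ⊆ T' →
          z - ∑ ω ∈ T', (Finsupp.lsingle (r ω) : Y →ₗ[ZMod 2] (Q →₀ Y)).lTensor _ (prj c (r ω) (γ (r ω)) _ z) ∈
            Ivl (MonoidHom.id Γ) m _) ?_ ?_ ?_ z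
      · refine ⟨∅, fun T' _ => ?_⟩
        simp only [map_zero, Finset.sum_const_zero, sub_zero]
        exact zero_mem _
      · rintro x y ⟨T, hT⟩ ⟨T₁, hT₁⟩
        refine ⟨T ∪ T₁, fun T' hT' => ?_⟩
        have h2 := add_mem (hT T' (Finset.union_subset_left hT')) (hT₁ T' (Finset.union_subset_right hT'))
        rw [← add_sub_add_comm, ← Finset.sum_add_distrib] at h2
        simpa only [map_add] using h2
      · intro x q y
        refine ⟨{Quotient.mk'' q}, fun T' hT' => ?_⟩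
        have h2 : γ (r (Quotient.mk'' q)) q • q = r (Quotient.mk'' q) := hγ _ q (hr q)
        rw [Finset.sum_eq_single (Quotient.mk'' q : MulAction.orbitRel.Quotient Γ Q)]
        · rw [prj_single c h2, LinearMap.lTensor_tmul, Finsupp.lsingle_apply]
          have h3 := Ivl.mk (MonoidHom.id Γ) m (γ (r (Quotient.mk'' q)) q) (x ⊗ₜ[ZMod 2] Finsupp.single q y)
          rw [sgl_tmul, hm, MonoidHom.id_apply, h2] at h3
          rw [← neg_sub]
          exact neg_mem h3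
        · intro ω _ hω
          rw [prj_single_of_not c (fun h => hω (hr' q ω _ h)), map_zero]
        · intro h
          exact absurd (hT' (Finset.mem_singleton_self _)) h
    intro z
    obtain ⟨T, hT⟩ := h1 z
    exact ⟨T, hT T (Finset.Subset.refl T)⟩

end mono

/-! ### the rows -/

section rows

/-- the value of the cocycle on a fixed coset -/
lemma coc_fix {Γ : Type} [Group Γ] {K : Subgroup Γ} {g : Γ} {q : Γ ⧸ K} (h : g • q = q) :
    ((coc K g q : K) : Γ) = (Quotient.out q)⁻¹ * (g * Quotient.out q) := by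
  show (Quotient.out (g • q))⁻¹ * (g * Quotient.out q) = _
  rw [h]

/-- the homomorphism of a stabilizer -/
def cocHom {Γ : Type} [Group Γ] {K : Subgroup Γ} (q : Γ ⧸ K) (L : Subgroup Γ) (h : ∀ g ∈ L, g • q = q) : L →* K where
  toFun g := coc K g q
  map_one' := coc_one K q
  map_mul' g g' := by
    show coc K ((g : Γ) * g') q = _
    rw [coc_mul, h _ g'.2]

lemma cocHom_injective {Γ : Type} [Group Γ] {K : Subgroup Γ} (q : Γ ⧸ K) (L : Subgroup Γ) (h : ∀ g ∈ L, g • q = q) :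
    Function.Injective (cocHom q L h) := by
  intro g g' hgg
  have h1 : ((coc K g q : K) : Γ) = ((coc K g' q : K) : Γ) := congrArg Subtype.val hgg
  rw [coc_fix (h _ g.2), coc_fix (h _ g'.2)] at h1
  exact Subtype.ext (mul_right_cancel (mul_left_cancel h1))

/-- **H5a** -/
theorem mackey : StmtMackey := by
  intro Γ _ K Y _ _ τ R j H
  classical
  set e := finsuppTensorFinsupp (ZMod 2) (ZMod 2) Y Y (Γ ⧸ K) (Γ ⧸ K) with he
  let m : Representation (ZMod 2) Γ ((Γ ⧸ K) × (Γ ⧸ K) →₀ Y ⊗[ZMod 2] Y) :=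
    { toFun := fun g => e.toLinearMap ∘ₗ ((indr τ).tprod (indr τ) g) ∘ₗ e.symm.toLinearMap
      map_one' := by
        rw [map_one]
        apply LinearMap.ext
        intro x
        exact e.apply_symm_apply x
      map_mul' := fun g h => by
        rw [map_mul]
        apply LinearMap.ext
        intro x
        show e (((indr τ).tprod (indr τ) g) (((indr τ).tprod (indr τ) h) (e.symm x))) =
          e (((indr τ).tprod (indr τ) g) (e.symm (e (((indr τ).tprod (indr τ) h) (e.symm x)))))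
        rw [e.symm_apply_apply] }
  have hme : ∀ g w, e ((indr τ).tprod (indr τ) g w) = m g (e w) := by
    intro g w
    show _ = e (((indr τ).tprod (indr τ) g) (e.symm (e w)))
    rw [e.symm_apply_apply]
  refine HV_retract (MonoidHom.id Γ) m ((indr τ).tprod (indr τ)) e.toLinearMap e.symm.toLinearMap (fun g w => hme g w)
    (fun g y => ?_) (fun w => e.symm_apply_apply w) R j ?_
  · show e.symm (m g y) = (indr τ).tprod (indr τ) g (e.symm y)
    rw [LinearEquiv.symm_apply_eq, hme, e.apply_symm_apply]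
  · let c : Γ → (Γ ⧸ K) × (Γ ⧸ K) → (Y ⊗[ZMod 2] Y →ₗ[ZMod 2] Y ⊗[ZMod 2] Y) :=
      fun g q => TensorProduct.map (τ (coc K g q.1)) (τ (coc K g q.2))
    have hm : ∀ (g : Γ) (q : (Γ ⧸ K) × (Γ ⧸ K)) (y : Y ⊗[ZMod 2] Y), m g (Finsupp.single q y) =
        Finsupp.single (g • q) (c g q y) := by
      rintro g ⟨q, q'⟩ y
      induction y using TensorProduct.induction_on with
      | zero => simp only [Finsupp.single_zero, map_zero]
      | add y y' h h' => simp only [Finsupp.single_add, map_add, h, h']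
      | tmul y y' =>
        show e (((indr τ).tprod (indr τ) g) (e.symm (Finsupp.single (q, q') (y ⊗ₜ[ZMod 2] y')))) =
          Finsupp.single (g • (q, q')) (TensorProduct.map (τ (coc K g q)) (τ (coc K g q')) (y ⊗ₜ[ZMod 2] y'))
        rw [he, finsuppTensorFinsupp_symm_single, Representation.tprod_apply, TensorProduct.map_tmul, indr_single, indr_single,
          finsuppTensorFinsupp_single, TensorProduct.map_tmul]
        rfl
    refine HV_mono (m := m) (c := c) hm R j fun q₀ => ?_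
    set L := MulAction.stabilizer Γ q₀ with hL
    have h1 : ∀ g ∈ L, g • q₀.1 = q₀.1 := fun g hg => congrArg Prod.fst (MulAction.mem_stabilizer_iff.1 hg)
    have h2 : ∀ g ∈ L, g • q₀.2 = q₀.2 := fun g hg => congrArg Prod.snd (MulAction.mem_stabilizer_iff.1 hg)
    let τ₁ : Representation (ZMod 2) L Y := τ.comp (cocHom q₀.1 L h1)
    let τ₂ : Representation (ZMod 2) L Y := τ.comp (cocHom q₀.2 L h2)
    have h3 : ∀ x : L, τ₁ x = τ (coc K x q₀.1) := fun _ => rfl
    have h4 : ∀ x : L, τ₂ x = τ (coc K x q₀.2) := fun _ => rfl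
    have h5 : HV L.subtype (τ₁.tprod τ₂) R j := H L _ _ (cocHom_injective _ _ _) (cocHom_injective _ _ _)
    refine ⟨L, inferInstance, L.subtype, τ₁.tprod τ₂, fun x => ⟨MulAction.mem_stabilizer_iff.1 x.2, fun y => ?_⟩, fun g hg =>
      ⟨⟨g, MulAction.mem_stabilizer_iff.2 hg⟩, rfl⟩, h5⟩
    rw [Representation.tprod_apply, h3, h4]
    exact rfl

/-- **H5b** -/
theorem shapiro : StmtShapiro := by
  intro Γ _ K Y _ _ τ R j H
  set q₀ : Γ ⧸ K := QuotientGroup.mk 1 with hq₀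
  have hfix : ∀ g : Γ, g • q₀ = q₀ ↔ g ∈ K := by
    intro g
    have h1 : g • q₀ = QuotientGroup.mk (g * 1) := rfl
    rw [h1, hq₀, mul_one, eq_comm, QuotientGroup.eq, inv_one, one_mul]
  have hs : Quotient.out q₀ ∈ K := by
    have h1 : (QuotientGroup.mk (Quotient.out q₀) : Γ ⧸ K) = QuotientGroup.mk 1 := Quotient.out_eq' _
    rw [eq_comm, QuotientGroup.eq, inv_one, one_mul] at h1
    exact h1
  set s : K := ⟨Quotient.out q₀, hs⟩ with hsdef
  have h1 : HV K.subtype (τ.comp (cocHom q₀ K fun g hg => (hfix g).2 hg) : Representation (ZMod 2) K Y) R j :=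
    HV_stab (c := fun g q => τ (coc K g q)) (indr_single τ) K.subtype _ q₀
      (fun x => ⟨(hfix x).2 x.2, fun y => rfl⟩) (fun g hg => ⟨⟨g, (hfix g).1 hg⟩, rfl⟩) R j H
  have h2 : ∀ x : K, cocHom q₀ K (fun g hg => (hfix g).2 hg) x = s⁻¹ * (x * s) := by
    intro x
    apply Subtype.ext
    exact coc_fix ((hfix x).2 x.2)
  refine HV_retract K.subtype (τ.comp (cocHom q₀ K fun g hg => (hfix g).2 hg) : Representation (ZMod 2) K Y) τ (τ s⁻¹) (τ s)
    (fun x w => ?_) (fun x y => ?_) (fun w => ?_) R j h1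
  · show τ s⁻¹ (τ x w) = τ (cocHom q₀ K _ x) (τ s⁻¹ w)
    rw [h2, ← Module.End.mul_apply, ← map_mul, ← Module.End.mul_apply, ← map_mul]
    congr 2
    group
  · show τ s (τ (cocHom q₀ K _ x) y) = τ x (τ s y)
    rw [h2, ← Module.End.mul_apply, ← map_mul, ← Module.End.mul_apply, ← map_mul]
    congr 2
    group
  · rw [← Module.End.mul_apply, ← map_mul, mul_inv_cancel, map_one]
    rfl

/-- **H5c** -/
theorem hv_iff_exH : StmtHVExH := by
  intro Γ _ Y _ _ τ R j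
  classical
  have hI : ∀ α : Type, Ivl (MonoidHom.id Γ) τ α = coin (sg τ α) ⊤ := by
    intro α
    rw [Ivl, coin]
    congr 1
    ext z
    constructor
    · rintro ⟨g, x, rfl⟩
      exact ⟨g, trivial, x, rfl⟩
    · rintro ⟨g, -, x, rfl⟩
      exact ⟨g, x, rfl⟩
  have hse : ∀ α : Type, ∀ [Fintype α], se α (0 : α → Y) = (0 : (α → MonoidAlgebra (ZMod 2) Γ) ⊗[ZMod 2] Y) := by
    intro α _
    simp [se]
  constructor
  · intro H f hf
    have h1 : bdl Y R j (se (R.ι (j + 1)) f) ∈ Ivl (MonoidHom.id Γ) τ (R.ι j) := by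
      rw [hI]
      have h1 := sub_se τ ((dd (R.d j)).rTensor Y (se (R.ι (j + 1)) f))
      rwa [co_d, co_se, hf, hse, sub_zero] at h1
    obtain ⟨e, he⟩ := H _ h1
    rw [hI] at he
    refine ⟨co τ (R.ι (j + 2)) e, ?_⟩
    have h3 := co_coin τ he
    rw [map_sub, co_se, sub_eq_zero] at h3
    rw [h3]
    exact (co_d τ (R.d (j + 1)) e).symm
  · intro H c hc
    rw [hI] at hc
    have h1 : bdry τ (R.d j) (co τ _ c) = 0 := by
      rw [← co_d]
      exact co_coin τ hc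
    obtain ⟨e, he⟩ := H _ h1
    refine ⟨se (R.ι (j + 2)) e, ?_⟩
    rw [hI]
    have h2 := sub_se τ (c - bdl Y R (j + 1) (se (R.ι (j + 2)) e))
    have h3 : co τ _ (c - bdl Y R (j + 1) (se (R.ι (j + 2)) e)) = 0 := by
      rw [map_sub, co_d, co_se, he, sub_self]
    rwa [h3, hse, sub_zero] at h2

end rows

end SQ.HH
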