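import Pool.Agent.SQ.HH.TwoF

/-!
# SQ: the vanishing of `H_(j+1)(L; E₁ ⊗ E₂)`, computed with a resolution of a bigger group (row H3)
-/

set_option autoImplicit false
set_option linter.unusedSectionVars false

open scoped TensorProduct

namespace SQ.HH

open Singer SQ.Acr SQ.T3

/-- transport of the vanishing -/
theorem HV_equiv {Γ L : Type} [Group Γ] [Group L] (l : L →* Γ) {Y Z : Type} [AddCommGroup Y] [Module (ZMod 2) Y]
    [AddCommGroup Z] [Module (ZMod 2) Z] (τ : Representation (ZMod 2) L Y) (τ' : Representation (ZMod 2) L Z)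
    (f : Y ≃ₗ[ZMod 2] Z) (hf : ∀ g y, f (τ g y) = τ' g (f y)) (R : FinRes Γ) (j : ℕ) (h : HV l τ R j) : HV l τ' R j := by
  have hf' : ∀ g z, f.symm (τ' g z) = τ g (f.symm z) := by
    intro g z
    rw [LinearEquiv.symm_apply_eq, hf, LinearEquiv.apply_symm_apply]
  have key : ∀ {Y Z : Type} [AddCommGroup Y] [Module (ZMod 2) Y] [AddCommGroup Z] [Module (ZMod 2) Z]
      (τ : Representation (ZMod 2) L Y) (τ' : Representation (ZMod 2) L Z) (f : Y →ₗ[ZMod 2] Z)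
      (_ : ∀ g y, f (τ g y) = τ' g (f y)) (α : Type) (z : (α → MonoidAlgebra (ZMod 2) Γ) ⊗[ZMod 2] Y),
      z ∈ Ivl l τ α → f.lTensor _ z ∈ Ivl l τ' α := by
    intro Y Z _ _ _ _ τ τ' f hf α z hz
    refine Submodule.span_induction (p := fun z _ => f.lTensor _ z ∈ Ivl l τ' α) ?_ (by rw [map_zero]; exact zero_mem _)
      (fun x y _ _ hx hy => by rw [map_add]; exact add_mem hx hy)
      (fun c x _ hx => by rw [map_smul]; exact Submodule.smul_mem _ c hx) hz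
    rintro _ ⟨g, x, rfl⟩
    refine Submodule.subset_span ⟨g, f.lTensor _ x, ?_⟩
    rw [map_sub]
    congr 1
    induction x using TensorProduct.induction_on with
    | zero => simp only [map_zero]
    | add x y hx hy => simp only [map_add, hx, hy]
    | tmul p y =>
      show (Acr.lam α (l g) p) ⊗ₜ[ZMod 2] f (τ g y) = (Acr.lam α (l g) p) ⊗ₜ[ZMod 2] τ' g (f y)
      rw [hf]
  have kd : ∀ {Y Z : Type} [AddCommGroup Y] [Module (ZMod 2) Y] [AddCommGroup Z] [Module (ZMod 2) Z]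
      (f : Y →ₗ[ZMod 2] Z) (i : ℕ) (z : (R.ι (i + 1) → MonoidAlgebra (ZMod 2) Γ) ⊗[ZMod 2] Y),
      bdl Z R i (f.lTensor _ z) = f.lTensor _ (bdl Y R i z) := by
    intro Y Z _ _ _ _ f i z
    induction z using TensorProduct.induction_on with
    | zero => simp only [map_zero]
    | add x y hx hy => simp only [map_add, hx, hy]
    | tmul p y => rfl
  intro c hc
  obtain ⟨e, he⟩ := h (f.symm.toLinearMap.lTensor _ c) (by
    rw [kd]
    exact key τ' τ f.symm.toLinearMap hf' _ _ hc)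
  refine ⟨f.toLinearMap.lTensor _ e, ?_⟩
  have h1 := key τ τ' f.toLinearMap hf _ _ he
  rw [map_sub, ← kd] at h1
  have h2 : f.toLinearMap.lTensor (R.ι (j + 1) → MonoidAlgebra (ZMod 2) Γ)
      (f.symm.toLinearMap.lTensor (R.ι (j + 1) → MonoidAlgebra (ZMod 2) Γ) c) = c := by
    rw [← LinearMap.comp_apply, ← LinearMap.lTensor_comp]
    have h3 : f.toLinearMap ∘ₗ f.symm.toLinearMap = LinearMap.id := by
      ext z
      exact f.apply_symm_apply z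
    rw [h3, LinearMap.lTensor_id, LinearMap.id_apply]
  rwa [h2] at h1

section star
variable {K : Type} [Group K] {E₁ E₂ : Type} [DivisionRing E₁] [DivisionRing E₂] [Algebra (ZMod 2) E₁]
  [Algebra (ZMod 2) E₂] [StarRing E₁]

/-- the involution of the first factor -/
noncomputable def stl (E₁ E₂ : Type) [DivisionRing E₁] [DivisionRing E₂] [Algebra (ZMod 2) E₁] [Algebra (ZMod 2) E₂]
    [StarRing E₁] : E₁ ⊗[ZMod 2] E₂ ≃ₗ[ZMod 2] E₁ ⊗[ZMod 2] E₂ :=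
  TensorProduct.congr (LinearEquiv.ofInvolutive (T3.Tor.stz E₁) fun x => star_star x) (LinearEquiv.refl _ _)

lemma stl_ten (ρ₁ : K →* E₁ˣ) (ρ₂ : K →* E₂ˣ) (hs : ∀ g, star ((ρ₁ g : E₁ˣ) : E₁) = ((ρ₁ g⁻¹ : E₁ˣ) : E₁)) (g : K)
    (z : E₁ ⊗[ZMod 2] E₂) : stl E₁ E₂ (Two.ten ρ₁ ρ₂ g z) = ((lmul ρ₁).tprod (lmul ρ₂)) g (stl E₁ E₂ z) := by
  induction z using TensorProduct.induction_on with
  | zero => simp only [map_zero]
  | add x y hx hy => simp only [map_add, hx, hy]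
  | tmul x y =>
    show (star (x * ((ρ₁ g⁻¹ : E₁ˣ) : E₁))) ⊗ₜ[ZMod 2] (((ρ₂ g : E₂ˣ) : E₂) * y) =
      (((ρ₁ g : E₁ˣ) : E₁) * star x) ⊗ₜ[ZMod 2] (((ρ₂ g : E₂ˣ) : E₂) * y)
    rw [star_mul, hs, inv_inv]

end star

/-- the two-field version -/
theorem HV_pair {Γ L : Type} [Group Γ] [Group L] (l : L →* Γ) (R : FinRes Γ) {E₁ E₂ : Type} [DivisionRing E₁]
    [DivisionRing E₂] [Algebra (ZMod 2) E₁] [Algebra (ZMod 2) E₂] [StarRing E₁] (ρ₁ : L →* E₁ˣ) (ρ₂ : L →* E₂ˣ)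
    (hs : ∀ g, star ((ρ₁ g : E₁ˣ) : E₁) = ((ρ₁ g⁻¹ : E₁ˣ) : E₁)) (h1 : cl ρ₁ (⊤ : Subgroup L) = ⊤)
    (h2 : cl ρ₂ (⊤ : Subgroup L) = ⊤) (hV : ∀ X : Set E₁, X.Finite → Two.Va l ρ₁ ρ₂ R ⊤ X) (j : ℕ) :
    HV l ((lmul ρ₁).tprod (lmul ρ₂)) R j :=
  HV_equiv l _ _ (stl E₁ E₂) (stl_ten ρ₁ ρ₂ hs) R j (Two.HV_of_Va l ρ₁ ρ₂ R h1 h2 hV j)

/-- **the vanishing for good families** (`E₁`, `E₂` may be unrelated; `R` is a resolution of a bigger group `Γ`) -/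
theorem HV_ofFam {Γ L : Type} [Group Γ] [Group L] (l : L →* Γ) (hl : Function.Injective l) (R : FinRes Γ) {E₁ E₂ : Type}
    [DivisionRing E₁] [DivisionRing E₂] [Algebra (ZMod 2) E₁] [Algebra (ZMod 2) E₂] [StarRing E₁] (ρ₁ : L →* E₁ˣ)
    (ρ₂ : L →* E₂ˣ) (hs : ∀ g, star ((ρ₁ g : E₁ˣ) : E₁) = ((ρ₁ g⁻¹ : E₁ˣ) : E₁)) (h1 : cl ρ₁ (⊤ : Subgroup L) = ⊤)
    (h2 : cl ρ₂ (⊤ : Subgroup L) = ⊤) (hi : LinearIndependent (ZMod 2) fun g : L => ((ρ₁ g : E₁ˣ) : E₁))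
    (hF : ∀ X : Set E₁, X.Finite → BO.Fam ρ₁ ρ₂ ⊤ X) (j : ℕ) : HV l ((lmul ρ₁).tprod (lmul ρ₂)) R j :=
  HV_pair l R ρ₁ ρ₂ hs h1 h2 (fun X hX => Two.Va_fam l ρ₁ ρ₂ R hl hi (hF X hX)) j

/-- the induction over the chain -/
theorem Va_all {Γ L : Type} [Group Γ] [Group L] (l : L →* Γ) (hl : Function.Injective l) (R : FinRes Γ) {E : Type}
    [DivisionRing E] [Algebra (ZMod 2) E] (ρ : L →* Eˣ) (C : Chain L)
    (h : LinearIndependent (ZMod 2) fun g : L => ((ρ g : Eˣ) : E)) (S : Steps C ρ) :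
    ∀ J j, Two.Va l ρ ρ R (C.N j) (T3.Good S J j) := by
  intro J
  induction J with
  | zero => intro j; exact Two.Va_zero l ρ ρ hl R h (C.N j)
  | succ J ih =>
    intro j
    have hle : C.N (j + 1) ≤ C.N j := fun g hg => ((C.succ j g).1 hg).1
    by_cases ht : S.t j = 1
    · have h1 : C.N j = C.N (j + 1) := by
        refine le_antisymm (fun g hg => ?_) hle
        obtain ⟨n, hn⟩ := S.gen j g hg
        rwa [ht, one_zpow, mul_one] at hn
      rw [T3.Good, dif_pos ht, h1]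
      exact ih (j + 1)
    · rw [T3.Good, dif_neg ht]
      exact Two.zstep l ρ ρ R (C.N (j + 1)) (C.N j) (S.t j) (S.st j ht) (S.st j ht) hle (S.t_mem j)
        (fun u g hg => (C.normal (j + 1)).conj_mem g hg _) (S.gen j) (fun x hx => hx.1) (fun x hx u => hx.2 u) (ih (j + 1))

/-- **row H3** -/
theorem torG : StmtTorG := by
  intro Γ L _ _ l hl C E _ _ _ ρ hs hcl h S hfin R j
  rw [C.zero] at hcl
  refine HV_pair l R ρ ρ hs hcl hcl (fun X hX => ?_) j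
  obtain ⟨J, hJ⟩ := hfin hX.toFinset (fun x _ => by rw [C.zero, hcl]; trivial)
  have h1 := Va_all l hl R ρ C h S J 0
  rw [C.zero] at h1
  exact Two.Va.mono l ρ ρ R (fun x hx => hJ x (hX.mem_toFinset.2 hx)) h1

end SQ.HH
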