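import Pool.Agent.SQ.Acr
import Pool.Agent.SQ.T3.Final

/-!
# SQ: subgroups of Poincare duality groups (Theorem H): definitions and rows

Paper: team-store MP_984acc_SUBGROUP_h76.md.  `K` is a residually unitriangular subgroup of a Poincare duality group `Γ` of
dimension `n`; then `b_i(K) = 0` for `2 * i > n`.
-/

set_option autoImplicit false

open scoped TensorProduct

noncomputable section

namespace SQ.HH

open Singer SQ.T3

/-! ### chains -/

section chains
variable {L Γ : Type} [Group L] [Group Γ] (l : L →* Γ) {Y : Type} [AddCommGroup Y] [Module (ZMod 2) Y]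
  (τ : Representation (ZMod 2) L Y)

/-- the action of `L` on the chains of `Γ` with coefficients in `Y` -/
def sgl (α : Type) (g : L) :
    (α → MonoidAlgebra (ZMod 2) Γ) ⊗[ZMod 2] Y →ₗ[ZMod 2] (α → MonoidAlgebra (ZMod 2) Γ) ⊗[ZMod 2] Y :=
  TensorProduct.map (Acr.lam α (l g)) (τ g)

/-- the span of the differences `g z - z`, `g ∈ L` -/
def Ivl (α : Type) : Submodule (ZMod 2) ((α → MonoidAlgebra (ZMod 2) Γ) ⊗[ZMod 2] Y) :=
  Submodule.span (ZMod 2) {z | ∃ (g : L) (x : (α → MonoidAlgebra (ZMod 2) Γ) ⊗[ZMod 2] Y), z = sgl l τ α g x - x}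

/-- the boundary -/
abbrev bdl (Y : Type) [AddCommGroup Y] [Module (ZMod 2) Y] (R : FinRes Γ) (j : ℕ) :
    (R.ι (j + 1) → MonoidAlgebra (ZMod 2) Γ) ⊗[ZMod 2] Y →ₗ[ZMod 2] (R.ι j → MonoidAlgebra (ZMod 2) Γ) ⊗[ZMod 2] Y :=
  (Acr.dd (R.d j)).rTensor Y

/-- `H_(j+1)(L; Y) = 0`, computed with the resolution `R` of the bigger group `Γ` -/
def HV (R : FinRes Γ) (j : ℕ) : Prop :=
  ∀ c, bdl Y R j c ∈ Ivl l τ (R.ι j) → ∃ e, c - bdl Y R (j + 1) e ∈ Ivl l τ (R.ι (j + 1))

end chains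

/-! ### restriction of chains of subgroups -/

/-- the restriction of a chain to a subgroup -/
def resC {K L : Type} [Group K] [Group L] (C : Chain K) (a : L →* K) (ha : Function.Injective a) : Chain L where
  N j := (C.N j).comap a
  normal j := (C.normal j).comap a
  chi j := (C.chi j).comp ((a.comp ((C.N j).comap a).subtype).codRestrict (C.N j) fun x => x.2)
  zero := by rw [C.zero, Subgroup.comap_top]
  succ j g := C.succ j (a g)
  conj j k g h := by
    have h1 := C.conj j (a k) (a g) h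
    refine Eq.trans ?_ h1
    refine congrArg (C.chi j) (Subtype.ext ?_)
    show a (k * g * k⁻¹) = a k * a g * (a k)⁻¹
    rw [map_mul, map_mul, map_inv]
  inf g h := (map_eq_one_iff a ha).1 (C.inf (a g) h)

/-! ### the induced module -/

section indr
variable {Γ : Type} [Group Γ] (K : Subgroup Γ)

/-- the cocycle of the left cosets -/
def coc (g : Γ) (q : Γ ⧸ K) : K :=
  ⟨(Quotient.out (g • q))⁻¹ * (g * Quotient.out q), by
    rw [← QuotientGroup.eq]
    have h1 : (QuotientGroup.mk (Quotient.out (g • q)) : Γ ⧸ K) = g • q := Quotient.out_eq' _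
    have h2 : (QuotientGroup.mk (Quotient.out q) : Γ ⧸ K) = q := Quotient.out_eq' _
    rw [h1]
    conv_lhs => rw [← h2]
    rfl⟩

theorem coc_one (q : Γ ⧸ K) : coc K 1 q = 1 := by
  apply Subtype.ext
  show (Quotient.out ((1 : Γ) • q))⁻¹ * (1 * Quotient.out q) = 1
  rw [one_smul, one_mul, inv_mul_cancel]

theorem coc_mul (g h : Γ) (q : Γ ⧸ K) : coc K (g * h) q = coc K g (h • q) * coc K h q := by
  apply Subtype.ext
  show (Quotient.out ((g * h) • q))⁻¹ * (g * h * Quotient.out q) =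
    (Quotient.out (g • h • q))⁻¹ * (g * Quotient.out (h • q)) * ((Quotient.out (h • q))⁻¹ * (h * Quotient.out q))
  rw [mul_smul]
  group

variable {K} {Y : Type} [AddCommGroup Y] [Module (ZMod 2) Y] (τ : Representation (ZMod 2) K Y)

/-- the induced representation of `Γ` -/
def indr : Representation (ZMod 2) Γ ((Γ ⧸ K) →₀ Y) where
  toFun g := Finsupp.lsum (ZMod 2) fun q => Finsupp.lsingle (g • q) ∘ₗ τ (coc K g q)
  map_one' := by
    refine Finsupp.lhom_ext fun q y => ?_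
    rw [Finsupp.lsum_single, LinearMap.comp_apply, Finsupp.lsingle_apply, one_smul, coc_one, map_one]
    rfl
  map_mul' g h := by
    refine Finsupp.lhom_ext fun q y => ?_
    rw [Module.End.mul_apply, Finsupp.lsum_single, Finsupp.lsum_single, LinearMap.comp_apply, LinearMap.comp_apply,
      Finsupp.lsingle_apply, Finsupp.lsingle_apply, Finsupp.lsum_single, LinearMap.comp_apply, Finsupp.lsingle_apply,
      coc_mul, map_mul, mul_smul, Module.End.mul_apply]

theorem indr_single (g : Γ) (q : Γ ⧸ K) (y : Y) :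
    indr τ g (Finsupp.single q y) = Finsupp.single (g • q) (τ (coc K g q) y) := by
  show Finsupp.lsum (ZMod 2) (fun q => Finsupp.lsingle (g • q) ∘ₗ τ (coc K g q)) (Finsupp.single q y) = _
  rw [Finsupp.lsum_single, LinearMap.comp_apply, Finsupp.lsingle_apply]

end indr

/-! ### the rows -/

/-- **H1** uniqueness of the skew field generated by the group -/
def StmtUniq : Prop :=
  ∀ (L : Type) [Group L] (C : Chain L) (E₁ E₂ : Type) [DivisionRing E₁] [DivisionRing E₂] [Algebra (ZMod 2) E₁]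
    [Algebra (ZMod 2) E₂] (ρ₁ : L →* E₁ˣ) (ρ₂ : L →* E₂ˣ),
    cl ρ₁ (C.N 0) = ⊤ → cl ρ₂ (C.N 0) = ⊤ →
    (LinearIndependent (ZMod 2) fun g : L => ((ρ₁ g : E₁ˣ) : E₁)) →
    (LinearIndependent (ZMod 2) fun g : L => ((ρ₂ g : E₂ˣ) : E₂)) →
    ∀ (S₁ : Steps C ρ₁) (S₂ : Steps C ρ₂), S₁.t = S₂.t →
    ∃ φ : E₁ ≃+* E₂, ∀ g, φ ((ρ₁ g : E₁ˣ) : E₁) = ((ρ₂ g : E₂ˣ) : E₂)

/-- **H1a** (from X1) the elements `t j` can be chosen independently of the skew field -/
def StmtSteps2 : Prop :=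
  ∀ (K : Type) [Group K] (C : Chain K), ∃ t : ℕ → K, ∀ (E : Type) [DivisionRing E] [Algebra (ZMod 2) E] (ρ : K →* Eˣ),
    (∀ j, Nonempty (Level K E ρ (C.N j))) → ∃ S : Steps C ρ, S.t = t

/-- **H2** a skew field with the levels of two embeddings -/
def StmtJoint : Prop :=
  ∀ (K : Type) [Group K] [Countable K], T2.ResUT K ⊥ →
    ∃ (A : T2.Apx K) (C : Chain K), (∀ j, Nonempty (Level K (T2.UDS A.seq) (Ultra.hom A.seq.u) (C.N j))) ∧
      ∀ (L : Type) [Group L] (a b : L →* K), Function.Injective a → Function.Injective b →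
        ∃ (E : Type) (_ : DivisionRing E) (_ : Algebra (ZMod 2) E) (_ : StarRing E) (ρ : L →* Eˣ),
          (∀ g, star ((ρ g : Eˣ) : E) = ((ρ g⁻¹ : Eˣ) : E)) ∧
          (∀ j, Nonempty (Level L E ρ ((C.N j).comap a))) ∧ ∀ j, Nonempty (Level L E ρ ((C.N j).comap b))

/-- **H3** the vanishing of `H_(j+1)(L; D ⊗ D)`, computed with a resolution of a bigger group (generalization of
`SQ.T3.tor`) -/
def StmtTorG : Prop :=
  ∀ (Γ L : Type) [Group Γ] [Group L] (l : L →* Γ), Function.Injective l → ∀ (C : Chain L) (E : Type) [DivisionRing E]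
    [Algebra (ZMod 2) E] [StarRing E] (ρ : L →* Eˣ),
    (∀ g, star ((ρ g : Eˣ) : E) = ((ρ g⁻¹ : Eˣ) : E)) → cl ρ (C.N 0) = ⊤ →
    (LinearIndependent (ZMod 2) fun g : L => ((ρ g : Eˣ) : E)) →
    ∀ S : Steps C ρ, (∀ X : Finset E, (∀ x ∈ X, x ∈ cl ρ (C.N 0)) → ∃ J, ∀ x ∈ X, x ∈ Good S J 0) →
    ∀ (R : FinRes Γ) (j : ℕ), HV l (diag ρ) R j

/-- **H4** (from H1, H1a, H3) two embeddings in a group -/
def StmtPair : Prop :=
  ∀ (K : Type) [Group K] (C : Chain K) (D : Type) [DivisionRing D] [Algebra (ZMod 2) D] (ρ : K →* Dˣ),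
    (∀ j, Nonempty (Level K D ρ (C.N j))) → ∀ (L : Type) [Group L] (a b : L →* K), Function.Injective a →
    Function.Injective b → ∀ (E : Type) [DivisionRing E] [Algebra (ZMod 2) E] [StarRing E] (σ : L →* Eˣ),
    (∀ g, star ((σ g : Eˣ) : E) = ((σ g⁻¹ : Eˣ) : E)) → (∀ j, Nonempty (Level L E σ ((C.N j).comap a))) →
    (∀ j, Nonempty (Level L E σ ((C.N j).comap b))) → ∀ (Γ : Type) [Group Γ] (l : L →* Γ), Function.Injective l →
    ∀ (R : FinRes Γ) (j : ℕ), HV l ((lmul (ρ.comp a)).tprod (lmul (ρ.comp b))) R j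

/-- **H5a** the tensor square of the induced module (double cosets) -/
def StmtMackey : Prop :=
  ∀ (Γ : Type) [Group Γ] (K : Subgroup Γ) (Y : Type) [AddCommGroup Y] [Module (ZMod 2) Y]
    (τ : Representation (ZMod 2) K Y) (R : FinRes Γ) (j : ℕ),
    (∀ (L : Subgroup Γ) (a b : L →* K), Function.Injective a → Function.Injective b →
      HV L.subtype (Representation.tprod (τ.comp a : Representation (ZMod 2) L Y) (τ.comp b)) R j) →
    HV (MonoidHom.id Γ) ((indr τ).tprod (indr τ)) R j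

/-- **H5b** Shapiro's lemma -/
def StmtShapiro : Prop :=
  ∀ (Γ : Type) [Group Γ] (K : Subgroup Γ) (Y : Type) [AddCommGroup Y] [Module (ZMod 2) Y]
    (τ : Representation (ZMod 2) K Y) (R : FinRes Γ) (j : ℕ), HV (MonoidHom.id Γ) (indr τ) R j → HV K.subtype τ R j

/-- **H5c** the two forms of the vanishing of the homology -/
def StmtHVExH : Prop :=
  ∀ (Γ : Type) [Group Γ] (Y : Type) [AddCommGroup Y] [Module (ZMod 2) Y] (τ : Representation (ZMod 2) Γ Y)
    (R : FinRes Γ) (j : ℕ), HV (MonoidHom.id Γ) τ R j ↔ ExH τ R (j + 1)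

/-- **H6** comparison of the resolutions of `Γ` and of a subgroup -/
def StmtCmp : Prop :=
  ∀ (Γ K : Type) [Group Γ] [Group K] (l : K →* Γ), Function.Injective l → ∀ (Y : Type) [AddCommGroup Y]
    [Module (ZMod 2) Y] (τ : Representation (ZMod 2) K Y) (R : FinRes Γ) (R' : FinRes K) (j : ℕ),
    HV l τ R j → HV (MonoidHom.id K) τ R' j

/-- **H7** Poincare duality groups have no involutions -/
def StmtNoInv : Prop := ∀ (Γ : Type) [Group Γ] (n : ℕ), IsPD n Γ → ∀ g : Γ, g * g = 1 → g = 1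

end SQ.HH
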