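import Pool.Agent.SQ.HH.Final

/-!
# SQ: Poincare duality groups have no involutions (row H7)

A group with an involution has no projective resolution of finite length.
-/

set_option autoImplicit false

noncomputable section

namespace SQ.HH

open Singer

namespace NoInv

section alg
variable {Γ : Type} [Group Γ] {g : Γ} (hg : g * g = 1) (h1 : g ≠ 1)

/-- a set of representatives of the pairs `{h, g h}` -/
def repr (g : Γ) : Set Γ := {h | WellOrderingRel h (g * h)}

include hg in
lemma gg (h : Γ) : g * (g * h) = h := by rw [← mul_assoc, hg, one_mul]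

include hg h1 in
/-- exactly one of `h`, `g h` is a representative -/
lemma repr_iff (h : Γ) : g * h ∈ repr g ↔ h ∉ repr g := by
  show WellOrderingRel (g * h) (g * (g * h)) ↔ ¬ WellOrderingRel h (g * h)
  rw [gg hg]
  constructor
  · intro h2 h3
    exact asymm h2 h3
  · intro h2
    rcases trichotomous_of WellOrderingRel h (g * h) with h3 | h3 | h3
    · exact absurd h3 h2
    · exact absurd (mul_eq_right.1 h3.symm) h1
    · exact h3

open Classical in
/-- restriction to the representatives -/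
def rT (g : Γ) : ZG Γ →+ ZG Γ where
  toFun x := MonoidAlgebra.ofCoeff (x.coeff.filter fun h => h ∈ repr g)
  map_zero' := by
    rw [MonoidAlgebra.coeff_zero, Finsupp.filter_zero]
    rfl
  map_add' x y := by
    rw [MonoidAlgebra.coeff_add, Finsupp.filter_add]
    rfl

open Classical in
lemma rT_mem {h : Γ} (x : ZG Γ) (hh : h ∈ repr g) : (rT g x).coeff h = x.coeff h :=
  Finsupp.filter_apply_pos (fun h => h ∈ repr g) x.coeff hh

open Classical in
lemma rT_notMem {h : Γ} (x : ZG Γ) (hh : h ∉ repr g) : (rT g x).coeff h = 0 :=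
  Finsupp.filter_apply_neg (fun h => h ∈ repr g) x.coeff hh

include hg in
lemma coeff_smul' (x : ZG Γ) (h : Γ) : (MonoidAlgebra.single g (1 : ℤ) * x).coeff h = x.coeff (g * h) := by
  have h2 : g⁻¹ = g := inv_eq_of_mul_eq_one_left hg
  rw [MonoidAlgebra.coeff_single_mul_apply, h2, one_mul]

include hg h1 in
lemma rT_a {x : ZG Γ} (hx : MonoidAlgebra.single g (1 : ℤ) * x = x) :
    rT g x + MonoidAlgebra.single g (1 : ℤ) * rT g x = x := by
  ext h
  have h2 : x.coeff (g * h) = x.coeff h := by rw [← coeff_smul' hg, hx]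
  rw [MonoidAlgebra.coeff_add, Finsupp.add_apply, coeff_smul' hg]
  by_cases h3 : h ∈ repr g
  · have h4 : g * h ∉ repr g := fun h4 => (repr_iff hg h1 h).1 h4 h3
    rw [rT_mem x h3, rT_notMem x h4, add_zero]
  · have h4 : g * h ∈ repr g := (repr_iff hg h1 h).2 h3
    rw [rT_notMem x h3, rT_mem x h4, zero_add, h2]

include hg h1 in
lemma rT_b {x : ZG Γ} (hx : MonoidAlgebra.single g (1 : ℤ) * x = -x) :
    rT g x - MonoidAlgebra.single g (1 : ℤ) * rT g x = x := by
  ext h
  have h2 : x.coeff (g * h) = -x.coeff h := by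
    rw [← coeff_smul' hg, hx]
    rfl
  show (rT g x).coeff h - (MonoidAlgebra.single g (1 : ℤ) * rT g x).coeff h = x.coeff h
  rw [coeff_smul' hg]
  by_cases h3 : h ∈ repr g
  · have h4 : g * h ∉ repr g := fun h4 => (repr_iff hg h1 h).1 h4 h3
    rw [rT_mem x h3, rT_notMem x h4, sub_zero]
  · have h4 : g * h ∈ repr g := (repr_iff hg h1 h).2 h3
    rw [rT_notMem x h3, rT_mem x h4, zero_sub, h2, neg_neg]

include hg h1 in
/-- projective modules have no Tate cohomology -/
theorem proj_a {P : Type} [AddCommGroup P] [Module (ZG Γ) P] (hP : Module.Projective (ZG Γ) P) {x : P}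
    (hx : (MonoidAlgebra.single g (1 : ℤ) : ZG Γ) • x = x) : ∃ y : P, y + (MonoidAlgebra.single g (1 : ℤ) : ZG Γ) • y = x := by
  obtain ⟨s, hs⟩ := hP
  refine ⟨Finsupp.linearCombination (ZG Γ) id ((s x).mapRange (rT g) (map_zero _)), ?_⟩
  rw [← map_smul, ← map_add]
  have h2 : (s x).mapRange (rT g) (map_zero _) +
      (MonoidAlgebra.single g (1 : ℤ) : ZG Γ) • (s x).mapRange (rT g) (map_zero _) = s x := by
    ext1 p
    rw [Finsupp.add_apply, Finsupp.smul_apply, Finsupp.mapRange_apply, smul_eq_mul]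
    refine rT_a hg h1 ?_
    have h3 := congrArg (fun f => (s f) p) hx
    simp only [map_smul, Finsupp.smul_apply, smul_eq_mul] at h3
    exact h3
  rw [h2]
  exact hs x

include hg h1 in
theorem proj_b {P : Type} [AddCommGroup P] [Module (ZG Γ) P] (hP : Module.Projective (ZG Γ) P) {x : P}
    (hx : (MonoidAlgebra.single g (1 : ℤ) : ZG Γ) • x = -x) :
    ∃ y : P, y - (MonoidAlgebra.single g (1 : ℤ) : ZG Γ) • y = x := by
  obtain ⟨s, hs⟩ := hP
  refine ⟨Finsupp.linearCombination (ZG Γ) id ((s x).mapRange (rT g) (map_zero _)), ?_⟩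
  rw [← map_smul, ← map_sub]
  have h2 : (s x).mapRange (rT g) (map_zero _) -
      (MonoidAlgebra.single g (1 : ℤ) : ZG Γ) • (s x).mapRange (rT g) (map_zero _) = s x := by
    ext1 p
    rw [Finsupp.sub_apply, Finsupp.smul_apply, Finsupp.mapRange_apply, smul_eq_mul]
    refine rT_b hg h1 ?_
    have h3 := congrArg (fun f => (s f) p) hx
    simp only [map_smul, map_neg, Finsupp.smul_apply, smul_eq_mul, Finsupp.neg_apply] at h3
    exact h3
  rw [h2]
  exact hs x

include hg in
lemma smul_smul' {P : Type} [AddCommGroup P] [Module (ZG Γ) P] (x : P) :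
    (MonoidAlgebra.single g (1 : ℤ) : ZG Γ) • (MonoidAlgebra.single g (1 : ℤ) : ZG Γ) • x = x := by
  rw [smul_smul, MonoidAlgebra.single_mul_single, hg, one_mul]
  exact one_smul _ x

/-- one step of the dimension shift: `K → P → K'`, where `K` is the kernel of `d` -/
theorem step {P P' : Type} [AddCommGroup P] [AddCommGroup P'] {u : P →+ P} {u' : P' →+ P'}
    (huu : ∀ x, u (u x) = x) {d : P →+ P'} (hd : ∀ x, d (u x) = u' (d x))
    (pa : ∀ x, u x = x → ∃ y, y + u y = x) (pb : ∀ x, u x = -x → ∃ y, y - u y = x)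
    (ka : ∀ x, d x = 0 → u x = x → ∃ y, d y = 0 ∧ y + u y = x)
    (kb : ∀ x, d x = 0 → u x = -x → ∃ y, d y = 0 ∧ y - u y = x) :
    (∀ p, u' (d p) = d p → ∃ q, d q + u' (d q) = d p) ∧ ∀ p, u' (d p) = -d p → ∃ q, d q - u' (d q) = d p := by
  constructor
  · intro p hp
    obtain ⟨y, hy, hy'⟩ := kb (u p - p) (by rw [map_sub, hd, hp, sub_self]) (by rw [map_sub, huu, neg_sub])
    obtain ⟨q, hq⟩ := pa (p + y) (by
      rw [map_add]
      have h2 : u p = y - u y + p := by rw [hy', sub_add_cancel]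
      rw [h2]
      abel)
    refine ⟨q, ?_⟩
    rw [← hd, ← map_add, hq, map_add, hy, add_zero]
  · intro p hp
    obtain ⟨y, hy, hy'⟩ := ka (u p + p) (by rw [map_add, hd, hp, neg_add_cancel]) (by rw [map_add, huu, add_comm])
    obtain ⟨q, hq⟩ := pb (p - y) (by
      rw [map_sub]
      have h2 : u p = y + u y - p := by rw [hy', add_sub_cancel_right]
      rw [h2]
      abel)
    refine ⟨q, ?_⟩
    rw [← hd, ← map_sub, hq, map_sub, hy, sub_zero]

end alg

end NoInv

open NoInv in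
/-- **H7** Poincare duality groups have no involutions -/
theorem noInv : StmtNoInv := by
  intro Γ _ n hPD g hg
  by_contra h1
  obtain ⟨R, ⟨N, hN⟩, -, -⟩ := hPD
  -- the action of `g`
  let u : ∀ i, R.P i →+ R.P i := fun i =>
    DistribSMul.toAddMonoidHom (R.P i) (MonoidAlgebra.single g (1 : ℤ) : ZG Γ)
  have hu : ∀ i x, u i x = (MonoidAlgebra.single g (1 : ℤ) : ZG Γ) • x := fun _ _ => rfl
  have huu : ∀ i x, u i (u i x) = x := fun i x => smul_smul' hg x
  have hd : ∀ i x, R.d i (u (i + 1) x) = u i (R.d i x) := fun i x => map_smul _ _ _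
  have pa : ∀ i x, u i x = x → ∃ y, y + u i y = x := fun i x hx => proj_a hg h1 (R.proj i) hx
  have pb : ∀ i x, u i x = -x → ∃ y, y - u i y = x := fun i x hx => proj_b hg h1 (R.proj i) hx
  -- the kernels
  have key : ∀ k i, N < i + k → (∀ x, R.d i x = 0 → u (i + 1) x = x → ∃ y, R.d i y = 0 ∧ y + u (i + 1) y = x) ∧
      ∀ x, R.d i x = 0 → u (i + 1) x = -x → ∃ y, R.d i y = 0 ∧ y - u (i + 1) y = x := by
    intro k
    induction k with
    | zero =>
      intro i hi
      have := hN (i + 1) (by omega)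
      exact ⟨fun x _ _ => ⟨0, map_zero _, Subsingleton.elim _ _⟩, fun x _ _ => ⟨0, map_zero _, Subsingleton.elim _ _⟩⟩
    | succ k ih =>
      intro i hi
      obtain ⟨ka, kb⟩ := ih (i + 1) (by omega)
      obtain ⟨h2, h3⟩ := step (d := (R.d (i + 1)).toAddMonoidHom) (huu (i + 2)) (hd (i + 1)) (pa (i + 2)) (pb (i + 2)) ka kb
      constructor
      · intro x hx hux
        obtain ⟨p, rfl⟩ := (R.exact_succ i x).1 hx
        obtain ⟨q, hq⟩ := h2 p hux
        exact ⟨R.d (i + 1) q, (R.exact_succ i _).2 ⟨q, rfl⟩, hq⟩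
      · intro x hx hux
        obtain ⟨p, rfl⟩ := (R.exact_succ i x).1 hx
        obtain ⟨q, hq⟩ := h3 p hux
        exact ⟨R.d (i + 1) q, (R.exact_succ i _).2 ⟨q, rfl⟩, hq⟩
  obtain ⟨ka, kb⟩ := key (N + 1) 0 (by omega)
  obtain ⟨-, h3⟩ := step (d := (R.d 0).toAddMonoidHom) (huu 1) (hd 0) (pa 1) (pb 1) ka kb
  obtain ⟨p, hp⟩ := R.aug_surj 1
  have haug : ∀ x, R.aug (u 0 x) = R.aug x := fun x => R.aug_smul g x
  obtain ⟨r, hr⟩ := (R.exact_zero (u 0 p - p)).1 (by rw [map_sub, haug, sub_self])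
  obtain ⟨q, hq⟩ := h3 r (by
    show u 0 (R.d 0 r) = -(R.d 0 r)
    rw [hr, map_sub, huu, neg_sub])
  have hq' : R.d 0 q - u 0 (R.d 0 q) = u 0 p - p := hq.trans hr
  obtain ⟨z, hz⟩ := pa 0 (p + R.d 0 q) (by
    rw [map_add]
    have h4 : u 0 p = R.d 0 q - u 0 (R.d 0 q) + p := by rw [hq', sub_add_cancel]
    rw [h4]
    abel)
  have h4 := congrArg R.aug hz
  rw [map_add, map_add, haug, hp, (R.exact_zero (R.d 0 q)).2 ⟨q, rfl⟩] at h4
  omega

/-- **Theorem H** -/
theorem vanE_sub {Γ : Type} [Group Γ] {n : ℕ} (hn : IsPD n Γ) (K : Subgroup Γ) (hK : T2.ResUT K ⊥) (R : FinRes K)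
    (i : ℕ) (hi : n < 2 * i) : R.VanE i := vanE_sub_of_noInv noInv hn K hK R i hi

end SQ.HH
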