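import Pool.Agent.SQ.HH.Defs
import Pool.Agent.SQ.FreeRes

/-!
# SQ: subgroups of Poincare duality groups (Theorem H): the assembly
-/

set_option autoImplicit false

open scoped TensorProduct

noncomputable section

namespace SQ.HH

open Singer SQ.T3

/-- **Theorem H**, from the rows: a residually unitriangular subgroup of type `FP_∞` of a Poincare duality group of
dimension `n` has no `ℓ²`-homology in the degrees `i` with `2 * i > n` -/
theorem vanE_sub_of (hJ : StmtJoint) (hP : StmtPair) (hM : StmtMackey) (hS : StmtShapiro)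
    (hE : StmtHVExH) (hC : StmtCmp) (hN : StmtNoInv) (hLEM : StmtLEM) {Γ : Type} [Group Γ] {n : ℕ} (hn : IsPD n Γ)
    (K : Subgroup Γ) (hK : T2.ResUT K ⊥) (R : FinRes K) (i : ℕ) (hi : n < 2 * i) : R.VanE i := by
  have hc : Countable K := T2.countable_of_finRes R
  obtain ⟨A, C, hlev, hjoint⟩ := hJ K hK
  refine vanE_of_ex A R i (ex_base _ R i ?_)
  set ρ : K →* (T2.UDS A.seq)ˣ := Ultra.hom A.seq.u
  let _ : StarRing (SF ρ) := starSF ρ (T2.star_hom A.seq)
  have hst : ∀ g, star ((sρ ρ g : (SF ρ)ˣ) : SF ρ) = ((sρ ρ g⁻¹ : (SF ρ)ˣ) : SF ρ) := star_sρ ρ (T2.star_hom A.seq)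
  have hlev' : ∀ j, Nonempty (Level K (SF ρ) (sρ ρ) (C.N j)) := fun j => level_sub ρ _ (hlev j)
  obtain ⟨S⟩ := exists_finRes_of_isPD hn
  have h1 : ∀ j, HV (MonoidHom.id Γ) ((indr (lmul (sρ ρ))).tprod (indr (lmul (sρ ρ)))) S j := by
    intro j
    refine hM Γ K _ _ S j fun L a b ha hb => ?_
    obtain ⟨E, _, _, _, σ, h2, h3, h4⟩ := hjoint L a b ha hb
    exact hP K C (SF ρ) (sρ ρ) hlev' L a b ha hb E σ h2 h3 h4 Γ L.subtype L.subtype_injective S j
  have h2 : ∀ j, j < n → Ex ((indr (lmul (sρ ρ))).tprod (indr (lmul (sρ ρ)))) S j := by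
    intro j hj
    refine (pd _ n hn S).1 j hj.le ?_
    obtain ⟨k, hk⟩ : ∃ k, n - j = k + 1 := ⟨n - j - 1, by omega⟩
    rw [hk]
    exact (hE Γ _ _ S k).1 (h1 k)
  have h3 : ∀ m, 2 * m < n → Ex (indr (lmul (sρ ρ))) S m := fun m hm =>
    hLEM Γ (hN Γ n hn) S _ _ m fun j hj => h2 j (by omega)
  have h4 : ExH (indr (lmul (sρ ρ))) S i := by
    by_cases hin : i ≤ n
    · have h5 := ((pd_iff (indr (lmul (sρ ρ))) n hn S).1 (n - i) (by omega)).1 (h3 (n - i) (by omega))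
      rwa [show n - (n - i) = i by omega] at h5
    · exact (pd_iff (indr (lmul (sρ ρ))) n hn S).2.2 i (by omega)
  obtain ⟨k, hk⟩ : ∃ k, i = k + 1 := ⟨i - 1, by omega⟩
  rw [hk] at h4 ⊢
  refine (dua K R (SF ρ) (sρ ρ) hst (k + 1)).2 ?_
  refine (hE K _ _ R k).1 (hC Γ K K.subtype K.subtype_injective _ _ S R k (hS Γ K _ _ S k ?_))
  exact (hE Γ _ _ S k).2 h4

end SQ.HH
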