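import Pool.Agent.SQ.HH.Defs

/-!
# SQ: comparison of the resolutions of a group and of a subgroup (row H6)
-/

set_option autoImplicit false

open scoped TensorProduct

noncomputable section

namespace SQ.HH

open Singer SQ.T3

/-! ### two complexes of induced modules -/

section cmp
variable {K : Type} [Group K]

/-- lifting along an exact sequence -/
theorem lift_ind {M N₁ N₀ : Type} [AddCommGroup M] [Module (ZMod 2) M] [AddCommGroup N₁] [Module (ZMod 2) N₁]
    [AddCommGroup N₀] [Module (ZMod 2) N₀] (σ : Representation (ZMod 2) K M) (σ₁ : Representation (ZMod 2) K N₁)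
    (σ₀ : Representation (ZMod 2) K N₀) (hM : Ind σ) (d₁ : N₁ →ₗ[ZMod 2] N₀)
    (hd : ∀ g x, d₁ (σ₁ g x) = σ₀ g (d₁ x)) (f : M →ₗ[ZMod 2] N₀) (hf : ∀ g x, f (σ g x) = σ₀ g (f x))
    (h : ∀ x, ∃ y, d₁ y = f x) :
    ∃ F : M →ₗ[ZMod 2] N₁, (∀ g x, F (σ g x) = σ₁ g (F x)) ∧ ∀ x, d₁ (F x) = f x := by
  obtain ⟨Z, _, _, i, p, hpi, hi, hp⟩ := hM
  let b := Module.Basis.ofVectorSpace (ZMod 2) Z
  choose n hn using fun k => h (p (Finsupp.single 1 (b k)))
  let L : Z →ₗ[ZMod 2] N₁ := b.constr (ZMod 2) n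
  let G : (K →₀ Z) →ₗ[ZMod 2] N₁ := Finsupp.lsum (ZMod 2) fun g => σ₁ g ∘ₗ L
  have hG : ∀ g z, G (Finsupp.single g z) = σ₁ g (L z) := fun g z => by
    show Finsupp.lsum (ZMod 2) (fun g => σ₁ g ∘ₗ L) (Finsupp.single g z) = _
    rw [Finsupp.lsum_single]
    rfl
  have hL : ∀ z, d₁ (L z) = f (p (Finsupp.single 1 z)) := by
    have h1 : d₁ ∘ₗ L = f ∘ₗ p ∘ₗ Finsupp.lsingle 1 := by
      refine b.ext fun k => ?_
      show d₁ (b.constr (ZMod 2) n (b k)) = f (p (Finsupp.single 1 (b k)))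
      rw [b.constr_basis, hn]
    exact fun z => LinearMap.congr_fun h1 z
  have htr : ∀ g h z, trans K Z g (Finsupp.single h z) = Finsupp.single (g * h) z := fun g h z => by
    show Finsupp.mapDomain (fun k => g * k) _ = _
    rw [Finsupp.mapDomain_single]
  have hGa : ∀ g x, G (trans K Z g x) = σ₁ g (G x) := by
    intro g x
    induction x using Finsupp.induction_linear with
    | zero => simp
    | add x y hx hy => rw [map_add, map_add, map_add, map_add, hx, hy]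
    | single h z => rw [htr, hG, hG, map_mul]; rfl
  have hGd : ∀ x, d₁ (G x) = f (p x) := by
    intro x
    induction x using Finsupp.induction_linear with
    | zero => simp
    | add x y hx hy => rw [map_add, map_add, map_add, map_add, hx, hy]
    | single g z =>
      have h1 : Finsupp.single g z = trans K Z g (Finsupp.single 1 z) := by rw [htr, mul_one]
      rw [h1, hGa, hd, hG, map_one, Module.End.one_apply, hL, hp, hf]
  refine ⟨G ∘ₗ i, fun g x => ?_, fun x => ?_⟩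
  · rw [LinearMap.comp_apply, LinearMap.comp_apply, hi, hGa]
  · rw [LinearMap.comp_apply, hGd, hpi]

variable {Y : Type} [AddCommGroup Y] [Module (ZMod 2) Y] {τ : Representation (ZMod 2) K Y} (C C' : Cx τ)

/-- two successive maps of a chain map -/
structure St (j : ℕ) where
  f : C.M j →ₗ[ZMod 2] C'.M j
  f' : C.M (j + 1) →ₗ[ZMod 2] C'.M (j + 1)
  act : ∀ g x, f (C.σ j g x) = C'.σ j g (f x)
  act' : ∀ g x, f' (C.σ (j + 1) g x) = C'.σ (j + 1) g (f' x)
  com : ∀ x, C'.d j (f' x) = f (C.d j x)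

/-- a chain map over the identity of `Y` -/
structure CM where
  f : ∀ j, C.M j →ₗ[ZMod 2] C'.M j
  act : ∀ j g x, f j (C.σ j g x) = C'.σ j g (f j x)
  zero : ∀ x, C'.e (f 0 x) = C.e x
  succ : ∀ j x, C'.d j (f (j + 1) x) = f j (C.d j x)

theorem st_zero : ∃ s : St C C' 0, ∀ x, C'.e (s.f x) = C.e x := by
  obtain ⟨f, hf, hf0⟩ := lift_ind (C.σ 0) (C'.σ 0) τ (C.ind 0) C'.e C'.e_act C.e C.e_act fun x => C'.surj _
  obtain ⟨f', hf', hf1⟩ := lift_ind (C.σ 1) (C'.σ 1) (C'.σ 0) (C.ind 1) (C'.d 0) (C'.d_act 0) (f ∘ₗ C.d 0)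
    (fun g x => by rw [LinearMap.comp_apply, LinearMap.comp_apply, C.d_act, hf]) fun x => by
      refine (C'.ex0 _).1 ?_
      rw [LinearMap.comp_apply, hf0, (C.ex0 _).2 ⟨x, rfl⟩]
  exact ⟨⟨f, f', hf, hf', hf1⟩, hf0⟩

theorem st_succ (j : ℕ) (s : St C C' j) : ∃ s' : St C C' (j + 1), s'.f = s.f' := by
  obtain ⟨f', hf', hf1⟩ := lift_ind (C.σ (j + 2)) (C'.σ (j + 2)) (C'.σ (j + 1)) (C.ind (j + 2)) (C'.d (j + 1))
    (C'.d_act (j + 1)) (s.f' ∘ₗ C.d (j + 1))
    (fun g x => by rw [LinearMap.comp_apply, LinearMap.comp_apply, C.d_act, s.act']) fun x => by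
      refine (C'.ex j _).1 ?_
      rw [LinearMap.comp_apply, s.com, (C.ex j _).2 ⟨x, rfl⟩, map_zero]
  exact ⟨⟨s.f', f', s.act', hf', hf1⟩, rfl⟩

theorem exists_cm : Nonempty (CM C C') := by
  obtain ⟨s₀, hs₀⟩ := st_zero C C'
  choose nx hnx using st_succ C C'
  let s : ∀ j, St C C' j := fun j => Nat.rec (motive := fun j => St C C' j) s₀ nx j
  have hs : ∀ j, (s (j + 1)).f = (s j).f' := fun j => hnx j (s j)
  exact ⟨⟨fun j => (s j).f, fun j => (s j).act, hs₀, fun j x => by rw [hs, (s j).com]⟩⟩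

variable {C C'}

/-- two successive maps of a homotopy -/
structure Ho (u v : CM C C') (j : ℕ) where
  h : C.M j →ₗ[ZMod 2] C'.M (j + 1)
  h' : C.M (j + 1) →ₗ[ZMod 2] C'.M (j + 2)
  act : ∀ g x, h (C.σ j g x) = C'.σ (j + 1) g (h x)
  act' : ∀ g x, h' (C.σ (j + 1) g x) = C'.σ (j + 2) g (h' x)
  com : ∀ x, u.f (j + 1) x - v.f (j + 1) x = C'.d (j + 1) (h' x) + h (C.d j x)

theorem ho_zero (u v : CM C C') : Nonempty (Ho u v 0) := by
  obtain ⟨h, hh, hh0⟩ := lift_ind (C.σ 0) (C'.σ 1) (C'.σ 0) (C.ind 0) (C'.d 0) (C'.d_act 0) (u.f 0 - v.f 0)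
    (fun g x => by rw [LinearMap.sub_apply, LinearMap.sub_apply, u.act, v.act, map_sub]) fun x => by
      refine (C'.ex0 _).1 ?_
      rw [LinearMap.sub_apply, map_sub, u.zero, v.zero, sub_self]
  obtain ⟨h', hh', hh1⟩ := lift_ind (C.σ 1) (C'.σ 2) (C'.σ 1) (C.ind 1) (C'.d 1) (C'.d_act 1)
    (u.f 1 - v.f 1 - h ∘ₗ C.d 0)
    (fun g x => by
      simp only [LinearMap.sub_apply, LinearMap.comp_apply, C.d_act, u.act, v.act, hh, map_sub]) fun x => by
      refine (C'.ex 0 _).1 ?_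
      simp only [LinearMap.sub_apply, LinearMap.comp_apply, map_sub, u.succ, v.succ, hh0, sub_self]
  refine ⟨⟨h, h', hh, hh', fun x => ?_⟩⟩
  rw [hh1]
  simp only [LinearMap.sub_apply, LinearMap.comp_apply]
  abel

theorem ho_succ (u v : CM C C') (j : ℕ) (s : Ho u v j) : ∃ s' : Ho u v (j + 1), s'.h = s.h' := by
  obtain ⟨h', hh', hh1⟩ := lift_ind (C.σ (j + 2)) (C'.σ (j + 3)) (C'.σ (j + 2)) (C.ind (j + 2)) (C'.d (j + 2))
    (C'.d_act (j + 2)) (u.f (j + 2) - v.f (j + 2) - s.h' ∘ₗ C.d (j + 1))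
    (fun g x => by
      simp only [LinearMap.sub_apply, LinearMap.comp_apply, C.d_act, u.act, v.act, s.act', map_sub]) fun x => by
      refine (C'.ex (j + 1) _).1 ?_
      have h1 := s.com (C.d (j + 1) x)
      rw [(C.ex j _).2 ⟨x, rfl⟩, map_zero, add_zero] at h1
      simp only [LinearMap.sub_apply, LinearMap.comp_apply, map_sub, u.succ, v.succ, ← h1, sub_self]
  refine ⟨⟨s.h', h', s.act', hh', fun x => ?_⟩, rfl⟩
  rw [hh1]
  simp only [LinearMap.sub_apply, LinearMap.comp_apply]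
  abel

theorem exists_ho (u v : CM C C') (j : ℕ) : Nonempty (Ho u v j) := by
  induction j with
  | zero => exact ho_zero u v
  | succ j ih =>
    obtain ⟨s⟩ := ih
    obtain ⟨s', -⟩ := ho_succ u v j s
    exact ⟨s'⟩

/-- the identity -/
def CM.idm (C : Cx τ) : CM C C := ⟨fun _ => LinearMap.id, fun _ _ _ => rfl, fun _ => rfl, fun _ _ => rfl⟩

/-- the composition -/
def CM.comp {C C' C'' : Cx τ} (v : CM C' C'') (u : CM C C') : CM C C'' where
  f j := v.f j ∘ₗ u.f j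
  act j g x := by rw [LinearMap.comp_apply, LinearMap.comp_apply, u.act, v.act]
  zero x := by rw [LinearMap.comp_apply, v.zero, u.zero]
  succ j x := by rw [LinearMap.comp_apply, LinearMap.comp_apply, v.succ, u.succ]

theorem map_coin {M M' : Type} [AddCommGroup M] [Module (ZMod 2) M] [AddCommGroup M'] [Module (ZMod 2) M']
    {σ : Representation (ZMod 2) K M} {σ' : Representation (ZMod 2) K M'} (f : M →ₗ[ZMod 2] M')
    (hf : ∀ g x, f (σ g x) = σ' g (f x)) (N : Subgroup K) {x : M} (hx : x ∈ coin σ N) : f x ∈ coin σ' N := by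
  refine Submodule.span_induction (p := fun m _ => f m ∈ coin σ' N) ?_ (by rw [map_zero]; exact zero_mem _)
    (fun x y _ _ hx hy => by rw [map_add]; exact add_mem hx hy)
    (fun c x _ hx => by rw [map_smul]; exact Submodule.smul_mem _ _ hx) hx
  rintro _ ⟨g, hg, x, rfl⟩
  rw [map_sub, hf]
  exact Submodule.subset_span ⟨g, hg, f x, rfl⟩

/-- the homology of the coinvariants does not depend on the complex -/
theorem coEx_cmp (C C' : Cx τ) (N : Subgroup K) (j : ℕ)
    (h : ∀ x, C.d j x ∈ coin (C.σ j) N → ∃ y, x - C.d (j + 1) y ∈ coin (C.σ (j + 1)) N) (x : C'.M (j + 1))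
    (hx : C'.d j x ∈ coin (C'.σ j) N) : ∃ y, x - C'.d (j + 1) y ∈ coin (C'.σ (j + 1)) N := by
  obtain ⟨u⟩ := exists_cm C' C
  obtain ⟨v⟩ := exists_cm C C'
  obtain ⟨s⟩ := exists_ho (v.comp u) (CM.idm C') j
  obtain ⟨y, hy⟩ := h (u.f (j + 1) x) (by rw [u.succ]; exact map_coin (u.f j) (u.act j) N hx)
  have h1 := map_coin (v.f (j + 1)) (v.act (j + 1)) N hy
  have h2 := map_coin s.h s.act N hx
  have h3 : (v.f (j + 1) (u.f (j + 1) x)) - x = C'.d (j + 1) (s.h' x) + s.h (C'.d j x) := s.com x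
  refine ⟨v.f (j + 2) y - s.h' x, ?_⟩
  have h4 : x - C'.d (j + 1) (v.f (j + 2) y - s.h' x) =
      v.f (j + 1) (u.f (j + 1) x - C.d (j + 1) y) - s.h (C'.d j x) := by
    rw [map_sub, map_sub, v.succ]
    have h5 : v.f (j + 1) (u.f (j + 1) x) = x + (C'.d (j + 1) (s.h' x) + s.h (C'.d j x)) := by rw [← h3]; abel
    rw [h5]
    abel
  rw [h4]
  exact sub_mem h1 h2

end cmp

/-! ### the resolution of the bigger group -/

section big
variable {Γ K : Type} [Group Γ] [Group K] (l : K →* Γ) (hl : Function.Injective l) (R : FinRes Γ)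
  {Y : Type} [AddCommGroup Y] [Module (ZMod 2) Y] (τ : Representation (ZMod 2) K Y)

/-- the action of `K` on the chains of `Γ` -/
def sgr (α : Type) : Representation (ZMod 2) K ((α → MonoidAlgebra (ZMod 2) Γ) ⊗[ZMod 2] Y) :=
  Representation.tprod ((Acr.lam α).comp l : Representation (ZMod 2) K (α → MonoidAlgebra (ZMod 2) Γ)) τ

theorem sgr_apply (α : Type) (g : K) (x : (α → MonoidAlgebra (ZMod 2) Γ) ⊗[ZMod 2] Y) :
    sgr l τ α g x = sgl l τ α g x := rfl

theorem sgr_bas {α : Type} [DecidableEq α] (g : K) (a : α) (h : Γ) (y : Y) :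
    sgr l τ α g (Acr.bas a h ⊗ₜ[ZMod 2] y) = Acr.bas a (l g * h) ⊗ₜ[ZMod 2] τ g y := by
  rw [sgr_apply, sgl, TensorProduct.map_tmul, Acr.lam_bas]

theorem ivl_eq (α : Type) : Ivl l τ α = coin (sgr l τ α) ⊤ := by
  refine congrArg (Submodule.span (ZMod 2)) (Set.ext fun z => ?_)
  constructor
  · rintro ⟨g, x, rfl⟩
    exact ⟨g, trivial, x, rfl⟩
  · rintro ⟨g, -, x, rfl⟩
    exact ⟨g, x, rfl⟩

include hl in
/-- a left coordinate -/
theorem exists_kap : ∃ κ : Γ → K, ∀ g γ, κ (l g * γ) = g * κ γ := by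
  classical
  let q : Γ → Quotient (QuotientGroup.rightRel l.range) := fun γ => Quotient.mk _ γ
  have hq : ∀ γ, ∃ k : K, l k = γ * (Quotient.out (q γ))⁻¹ := by
    intro γ
    have h1 : (QuotientGroup.rightRel l.range).r (Quotient.out (q γ)) γ := Quotient.exact (Quotient.out_eq _)
    obtain ⟨k, hk⟩ := QuotientGroup.rightRel_apply.1 h1
    exact ⟨k, hk⟩
  choose κ hκ using hq
  refine ⟨κ, fun g γ => hl ?_⟩
  have h2 : q (l g * γ) = q γ := by
    refine Quotient.sound ?_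
    refine QuotientGroup.rightRel_apply.2 ⟨g⁻¹, ?_⟩
    rw [map_inv, mul_inv_rev, mul_inv_cancel_left]
  rw [hκ, h2, map_mul, hκ, mul_assoc]

include hl in
theorem ind_sgr (α : Type) [Fintype α] : Ind (sgr l τ α) := by
  classical
  obtain ⟨κ, hκ⟩ := exists_kap l hl
  let M := (α → MonoidAlgebra (ZMod 2) Γ) ⊗[ZMod 2] Y
  let t0 : Representation (ZMod 2) Γ Y := 1
  let q : Γ → (α → Y) →ₗ[ZMod 2] (K →₀ M) := fun γ =>
    Finsupp.lsingle (κ γ) ∘ₗ sgr l τ α (κ γ)⁻¹ ∘ₗ Acr.ut t0 α ∘ₗ Finsupp.lsingle γ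
  let i : M →ₗ[ZMod 2] (K →₀ M) := Finsupp.lsum (ZMod 2) q ∘ₗ Acr.tw t0 α
  let p : (K →₀ M) →ₗ[ZMod 2] M := Finsupp.lsum (ZMod 2) fun g => sgr l τ α g
  have hi : ∀ a γ y, i (Acr.bas a γ ⊗ₜ[ZMod 2] y) =
      Finsupp.single (κ γ) (sgr l τ α (κ γ)⁻¹ (Acr.bas a γ ⊗ₜ[ZMod 2] y)) := by
    intro a γ y
    show Finsupp.lsum (ZMod 2) q (Acr.tw t0 α (Acr.bas a γ ⊗ₜ[ZMod 2] y)) = _
    rw [Acr.tw_bas, Finsupp.lsum_single]
    show Finsupp.single (κ γ) (sgr l τ α (κ γ)⁻¹ (Acr.ut t0 α (Finsupp.single γ (Pi.single a (t0 γ⁻¹ y))))) = _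
    rw [Acr.ut_single_single]
    rfl
  have hp : ∀ g m, p (Finsupp.single g m) = sgr l τ α g m := fun g m => by
    show Finsupp.lsum (ZMod 2) (fun g => sgr l τ α g) (Finsupp.single g m) = _
    rw [Finsupp.lsum_single]
  have htr : ∀ (g h : K) (z : M), trans K M g (Finsupp.single h z) = Finsupp.single (g * h) z := fun g h z => by
    show Finsupp.mapDomain (fun k => g * k) _ = _
    rw [Finsupp.mapDomain_single]
  refine ⟨M, inferInstance, inferInstance, i, p, fun m => ?_, fun g m => ?_, fun g f => ?_⟩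
  · refine Acr.ind_ten (p := fun m => p (i m) = m) (by rw [map_zero, map_zero])
      (fun x y hx hy => by rw [map_add, map_add, hx, hy]) (fun a γ y => ?_) m
    rw [hi, hp, ← Module.End.mul_apply, ← map_mul, mul_inv_cancel, map_one]
    rfl
  · refine Acr.ind_ten (p := fun m => i (sgr l τ α g m) = trans K M g (i m)) (by simp only [map_zero])
      (fun x y hx hy => by simp only [map_add, hx, hy]) (fun a γ y => ?_) m
    rw [sgr_bas, hi, hi, htr, hκ, ← sgr_bas, ← Module.End.mul_apply, ← map_mul]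
    congr 3
    group
  · induction f using Finsupp.induction_linear with
    | zero => simp only [map_zero]
    | add f f' h h' => simp only [map_add, h, h']
    | single h z => rw [htr, hp, hp, map_mul, Module.End.mul_apply]

/-- the complex of the resolution of the bigger group tensored with the module -/
def cxl : Cx τ where
  M j := (R.ι j → MonoidAlgebra (ZMod 2) Γ) ⊗[ZMod 2] Y
  σ j := sgr l τ (R.ι j)
  d j := bdl Y R j
  e := (TensorProduct.lid (ZMod 2) Y).toLinearMap ∘ₗ (Acr.ee (H := Γ) R.w).rTensor Y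
  d_act j g x := by
    classical
    refine Acr.ind_ten (p := fun x => bdl Y R j (sgr l τ (R.ι (j + 1)) g x) =
      sgr l τ (R.ι j) g (bdl Y R j x)) (by simp only [map_zero]) (fun x y hx hy => by simp only [map_add, hx, hy])
      (fun a h y => ?_) x
    rw [sgr_apply, sgr_apply, sgl, sgl, TensorProduct.map_tmul, LinearMap.rTensor_tmul,
      LinearMap.rTensor_tmul, TensorProduct.map_tmul, Acr.dd_lam]
  e_act g x := by
    classical
    refine Acr.ind_ten (p := fun x => ((TensorProduct.lid (ZMod 2) Y).toLinearMap ∘ₗ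
      (Acr.ee (H := Γ) R.w).rTensor Y) (sgr l τ (R.ι 0) g x) = τ g (((TensorProduct.lid (ZMod 2) Y).toLinearMap ∘ₗ
      (Acr.ee (H := Γ) R.w).rTensor Y) x))
      (by simp only [map_zero]) (fun x y hx hy => by simp only [map_add, hx, hy])
      (fun a h y => ?_) x
    rw [sgr_apply, sgl, TensorProduct.map_tmul, LinearMap.comp_apply, LinearMap.comp_apply,
      LinearMap.rTensor_tmul, LinearMap.rTensor_tmul, Acr.ee_lam]
    show TensorProduct.lid (ZMod 2) Y _ = τ g (TensorProduct.lid (ZMod 2) Y _)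
    rw [TensorProduct.lid_tmul, TensorProduct.lid_tmul, map_smul]
  surj := (Acr.cx R (1 : Representation (ZMod 2) Γ Y)).surj
  ex0 := (Acr.cx R (1 : Representation (ZMod 2) Γ Y)).ex0
  ex := (Acr.cx R (1 : Representation (ZMod 2) Γ Y)).ex
  ind j := ind_sgr l hl τ (R.ι j)

end big

/-- **Row H6.** -/
theorem cmp : StmtCmp := by
  intro Γ K _ _ l hl Y _ _ τ R R' j h c hc
  have h1 : ∀ x, (cxl l hl R τ).d j x ∈ coin ((cxl l hl R τ).σ j) ⊤ →
      ∃ y, x - (cxl l hl R τ).d (j + 1) y ∈ coin ((cxl l hl R τ).σ (j + 1)) ⊤ := by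
    intro x hx
    have h2 := h x (by rw [ivl_eq]; exact hx)
    obtain ⟨e, he⟩ := h2
    refine ⟨e, ?_⟩
    rw [ivl_eq] at he
    exact he
  obtain ⟨e, he⟩ := coEx_cmp (cxl l hl R τ) (cxl (MonoidHom.id K) Function.injective_id R' τ) ⊤ j h1 c (by
    rw [ivl_eq] at hc
    exact hc)
  refine ⟨e, ?_⟩
  rw [ivl_eq]
  exact he

end SQ.HH
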