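import Pool.Agent.SQ.HH.Defs

/-!
# SQ, Theorem H: a skew field with the levels of two embeddings (row H2)
-/

set_option autoImplicit false

noncomputable section

namespace SQ.HH

open Filter SQ.Ultra SQ.T3

section growth

open scoped Pointwise

theorem polyGrowth_pi {G : Type} [Group G] (hG : PolyGrowth G) (h : ℕ) : PolyGrowth (Fin h → G) := by
  classical
  let _ : DecidableEq (Fin h → G) := fun a b => Classical.propDecidable (a = b)
  intro S
  choose C k hC using fun i : Fin h => hG (S.image fun f => f i)
  refine ⟨∏ i, C i, ∑ i, k i, fun n => ?_⟩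
  have h1 : S ^ n ⊆ Fintype.piFinset fun i => (S.image fun f => f i) ^ n := by
    intro f hf
    rw [Fintype.mem_piFinset]
    intro i
    have h2 : (S.image (Pi.evalMonoidHom (fun _ : Fin h => G) i)) ^ n =
        (S ^ n).image (Pi.evalMonoidHom (fun _ : Fin h => G) i) := (Finset.image_pow _ S n).symm
    have h3 : f i ∈ (S ^ n).image (Pi.evalMonoidHom (fun _ : Fin h => G) i) := Finset.mem_image.2 ⟨f, hf, rfl⟩
    rw [← h2] at h3
    exact h3
  refine (Finset.card_le_card h1).trans ?_
  rw [Fintype.card_piFinset]
  calc ∏ i, ((S.image fun f => f i) ^ n).card ≤ ∏ i, (C i * (n + 1) ^ k i) :=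
        Finset.prod_le_prod' fun i _ => hC i n
    _ = (∏ i, C i) * (n + 1) ^ ∑ i, k i := by
        rw [Finset.prod_mul_distrib, Finset.prod_pow_eq_pow_sum]

end growth

/-- **H2** -/
theorem stmtJoint : StmtJoint := by
  intro K _ _ hK
  classical
  obtain ⟨C, hC⟩ := stmtChain K hK
  have hn : ∀ c, (C.N c).Normal := C.normal
  have hgr : ∀ c, PolyGrowth (K ⧸ C.N c) := fun c => (hC c).choose_spec
  choose lo hl using fun c => stmtOrd K C c
  have hup : ∀ c, UniqueProds (K ⧸ C.N c) := by
    intro c
    let _ := lo c
    have : MulLeftMono (K ⧸ C.N c) := ⟨fun d a b h => (hl c).1 a b d h⟩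
    have : MulRightMono (K ⧸ C.N c) := ⟨fun d a b h => (hl c).2 a b d h⟩
    infer_instance
  have hdom : ∀ c, NoZeroDivisors (MonoidAlgebra (ZMod 2) (K ⧸ C.N c)) := by
    intro c
    have := hup c
    infer_instance
  choose O f hf1 hf2 using fun c => T2.s_div2 (K ⧸ C.N c) (hdom c) (s_ore _ (hgr c) (hdom c))
  let X : T2.Apx K :=
    { G := fun c => K ⧸ C.N c
      growth := hgr
      O := O
      f := f
      f_inj := hf1
      f_of := hf2
      p := fun c => QuotientGroup.mk' (C.N c)
      sep := by
        intro g hg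
        obtain ⟨j, hj⟩ : ∃ j, g ∉ C.N j := by
          by_contra h
          push Not at h
          exact hg (C.inf g h)
        filter_upwards [eventually_ge_atTop j] with c hc h1
        exact hj (C.antiN hc ((QuotientGroup.eq_one_iff g).1 h1)) }
  refine ⟨X, C, fun j => T2.level_UD X.seq (C.N j) ?_, ?_⟩
  · let π : ∀ c, (K ⧸ C.N c) →* (K ⧸ C.N (min j c)) := fun c =>
      QuotientGroup.map (C.N c) (C.N (min j c)) (MonoidHom.id K) (C.antiN (min_le_right j c))
    have hval := fun c => @OreDiv.val _ _ (O c) (K ⧸ C.N (min j c)) _ (lo (min j c)) (hl (min j c)).1 (hl (min j c)).2 (π c)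
    choose v F h1 h2 h3 h4 using hval
    exact {
        L := fun c => K ⧸ C.N (min j c)
        lo := fun c => lo (min j c)
        mono := fun c => (hl (min j c)).1
        π := fun c => QuotientGroup.mk' (C.N (min j c))
        v := v
        F := F
        v_add := h1
        v_act := fun c g x hx => h2 c (QuotientGroup.mk' (C.N c) g) x hx
        mem_F := fun c g hg => h3 c (QuotientGroup.mk' (C.N c) g) hg
        v_F := h4
        ker := fun g hg c => (QuotientGroup.eq_one_iff g).2 (C.antiN (min_le_left j c) hg)
        sep := fun g hg => by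
          filter_upwards [eventually_ge_atTop j] with c hc h5
          have h6 : g ∈ C.N (min j c) := (QuotientGroup.eq_one_iff g).1 h5
          rw [min_eq_left hc] at h6
          exact hg h6 }
  · intro L _ a b _ _
    have hgr2 : ∀ c, PolyGrowth (Fin 2 → K ⧸ C.N c) := fun c => polyGrowth_pi (hgr c) 2
    have hdom2 : ∀ c, NoZeroDivisors (MonoidAlgebra (ZMod 2) (Fin 2 → K ⧸ C.N c)) := by
      intro c
      have := hup c
      have : UniqueProds (Fin 2 → K ⧸ C.N c) := inferInstance
      infer_instance
    choose O2 _ _ _ using fun c => T2.s_div2 (Fin 2 → K ⧸ C.N c) (hdom2 c) (s_ore _ (hgr2 c) (hdom2 c))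
    let ab : Fin 2 → (L →* K) := fun i => if i = 0 then a else b
    let P : ∀ c, L →* (Fin 2 → K ⧸ C.N c) := fun c =>
      MonoidHom.pi fun i => (QuotientGroup.mk' (C.N c)).comp (ab i)
    let S : DivSeq L :=
      { D := fun c => (O2 c).D
        u := fun c => (O2 c).u.comp (P c)
        star_u := fun c g => by
          rw [MonoidHom.comp_apply, MonoidHom.comp_apply, map_inv (P c)]
          exact (O2 c).star_u _ }
    have hS : ∀ (i : Fin 2) (j : ℕ), Nonempty (SeqLevel S ((C.N j).comap (ab i))) := by
      intro i j
      let π : ∀ c, (Fin 2 → K ⧸ C.N c) →* (K ⧸ C.N (min j c)) := fun c =>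
        (QuotientGroup.map (C.N c) (C.N (min j c)) (MonoidHom.id K) (C.antiN (min_le_right j c))).comp
          (Pi.evalMonoidHom (fun _ : Fin 2 => K ⧸ C.N c) i)
      have hval := fun c => @OreDiv.val _ _ (O2 c) (K ⧸ C.N (min j c)) _ (lo (min j c)) (hl (min j c)).1
        (hl (min j c)).2 (π c)
      choose v F h1 h2 h3 h4 using hval
      exact ⟨{
        L := fun c => K ⧸ C.N (min j c)
        lo := fun c => lo (min j c)
        mono := fun c => (hl (min j c)).1
        π := fun c => (QuotientGroup.mk' (C.N (min j c))).comp (ab i)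
        v := v
        F := F
        v_add := h1
        v_act := fun c g x hx => h2 c (P c g) x hx
        mem_F := fun c g hg => h3 c (P c g) hg
        v_F := h4
        ker := fun g hg c => (QuotientGroup.eq_one_iff (ab i g)).2 (C.antiN (min_le_left j c) hg)
        sep := fun g hg => by
          filter_upwards [eventually_ge_atTop j] with c hc h5
          have h6 : ab i g ∈ C.N (min j c) := (QuotientGroup.eq_one_iff (ab i g)).1 h5
          rw [min_eq_left hc] at h6
          exact hg h6 }⟩
    refine ⟨T2.UDS S, inferInstance, inferInstance, inferInstance, hom S.u, T2.star_hom S, fun j => ?_, fun j => ?_⟩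
    · obtain ⟨T⟩ := hS 0 j
      exact T2.level_UD S _ T
    · obtain ⟨T⟩ := hS 1 j
      exact T2.level_UD S _ T

end SQ.HH
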