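import Pool.Agent.SQ.HH.Defs
import Pool.Agent.SQ.T3.Steps

/-!
# SQ, Theorem H, row H1a: the elements `t j` can be chosen independently of the skew field
-/

set_option autoImplicit false

namespace SQ.HH

open Singer SQ.T3

/-- the generator of one step of a chain -/
theorem exists_t {K : Type} [Group K] (C : Chain K) (j : ℕ) : ∃ t : K, t ∈ C.N j ∧
    (∀ g ∈ C.N j, ∃ n : ℤ, g * t ^ (-n) ∈ C.N (j + 1)) ∧
    (t ≠ 1 → ∀ n : ℤ, t ^ n ∈ C.N (j + 1) → n = 0) := by
  by_cases hχ : ∀ g, C.chi j g = 1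
  · exact ⟨1, one_mem _, fun g hg => ⟨0, by
      rw [neg_zero, zpow_zero, mul_one]
      exact (C.succ j g).2 ⟨hg, hχ _⟩⟩, fun h => absurd rfl h⟩
  push Not at hχ
  obtain ⟨g₀, hg₀⟩ := hχ
  obtain ⟨t, ht⟩ := exists_gen (C.chi j)
  have ht1 : C.chi j t ≠ 1 := by
    intro h
    obtain ⟨n, hn⟩ := ht g₀
    rw [h, one_zpow] at hn
    exact hg₀ hn
  refine ⟨t, t.2, fun g hg => ?_, fun _ n hn => ?_⟩
  · obtain ⟨n, hn⟩ := ht ⟨g, hg⟩
    refine ⟨n, (C.succ j _).2 ⟨mul_mem hg (zpow_mem t.2 _), ?_⟩⟩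
    have h1 : (⟨g * (t : K) ^ (-n), mul_mem hg (zpow_mem t.2 _)⟩ : C.N j) = ⟨g, hg⟩ * t ^ (-n) :=
      Subtype.ext (by push_cast; rfl)
    rw [h1, map_mul, map_zpow, hn, ← zpow_add, add_neg_cancel, zpow_zero]
  · obtain ⟨h1, h2⟩ := (C.succ j _).1 hn
    have h3 : (⟨(t : K) ^ n, h1⟩ : C.N j) = t ^ n := Subtype.ext (by push_cast; rfl)
    rw [h3, map_zpow] at h2
    have h4 : n * (C.chi j t).toAdd = 0 := by
      have h5 := congrArg Multiplicative.toAdd h2
      rwa [toAdd_zpow, toAdd_one, smul_eq_mul] at h5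
    rcases mul_eq_zero.1 h4 with h5 | h5
    · exact h5
    · exact absurd (Multiplicative.toAdd.injective (by rw [h5, toAdd_one])) ht1

/-- **H1a** from **X1** -/
theorem s_steps2 (hX1 : StmtStep) : StmtSteps2 := by
  intro K _ C
  choose t h1 h2 h3 using exists_t C
  refine ⟨t, fun E _ _ ρ hL => ?_⟩
  have key : ∀ j, t j ≠ 1 → Nonempty (Step (cl ρ (C.N (j + 1))) (cl ρ (C.N j)) (ρ (t j))) := by
    intro j hj
    have := C.normal (j + 1)
    obtain ⟨lv⟩ := hL (j + 1)
    have hinv : ((ρ (t j))⁻¹ : Eˣ) = ρ (t j)⁻¹ := (map_inv ρ _).symm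
    obtain ⟨st⟩ := hX1 E (cl ρ (C.N (j + 1))) (ρ (t j))
      (fun f hf => by
        rw [hinv]
        exact conj_mem_kk ρ (C.N (j + 1)) (t j) hf)
      (fun f hf => by
        rw [hinv]
        have := conj_mem_kk ρ (C.N (j + 1)) (t j)⁻¹ hf
        rwa [inv_inv] at this)
      (fun c hc h0 => by
        ext u
        by_cases hu : u ∈ c.support
        · refine lev_indep lv c.support (fun u : ℤ => t j ^ u) (fun u => c u) (fun u _ => hc u) ?_ ?_ u hu
          · intro i _ k _ hN
            have h1 : (t j ^ k)⁻¹ * t j ^ i = t j ^ (i - k) := by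
              rw [← zpow_neg, ← zpow_add]
              congr 1
              ring
            rw [h1] at hN
            have := h3 j hj _ hN
            omega
          · rw [← h0, Finsupp.sum]
            refine Finset.sum_congr rfl fun u _ => ?_
            rw [map_zpow]
        · rw [Finsupp.coe_zero, Pi.zero_apply]
          exact Finsupp.notMem_support_iff.1 hu)
    have hcl : Subfield.closure (((cl ρ (C.N (j + 1)) : Subfield E) : Set E) ∪ {((ρ (t j) : Eˣ) : E)}) = cl ρ (C.N j) := by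
      refine le_antisymm ?_ ?_
      · rw [Subfield.closure_le]
        rintro x (hx | hx)
        · have : cl ρ (C.N (j + 1)) ≤ cl ρ (C.N j) :=
            Subfield.closure_mono (Set.image_mono (C.succ_le j))
          exact this hx
        · rw [Set.mem_singleton_iff.1 hx]
          exact Subfield.subset_closure ⟨t j, h1 j, rfl⟩
      · refine (Subfield.closure_le).2 ?_
        rintro _ ⟨g, hg, rfl⟩
        obtain ⟨n, hn⟩ := h2 j g hg
        have h1 : ((ρ g : Eˣ) : E) = ((ρ (g * t j ^ (-n)) : Eˣ) : E) * ((ρ (t j) : Eˣ) : E) ^ n := by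
          rw [← Units.val_zpow_eq_zpow_val, ← Units.val_mul, ← map_zpow, ← map_mul, mul_assoc, ← zpow_add, neg_add_cancel,
            zpow_zero, mul_one]
        show ((ρ g : Eˣ) : E) ∈ _
        rw [h1]
        refine mul_mem (Subfield.subset_closure (Or.inl (mem_kk ρ hn))) (zpow_mem ?_ n)
        exact Subfield.subset_closure (Or.inr rfl)
    rw [← hcl]
    exact ⟨st⟩
  exact ⟨{ t := t, t_mem := h1, gen := h2, st := fun j hj => (key j hj).some }, rfl⟩

end SQ.HH
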