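import Pool.Agent.SQ.HH.Defs
import Pool.Agent.SQ.T3.Good

/-!
# SQ: uniqueness of the skew field generated by the group (row H1)
-/

set_option autoImplicit false
set_option linter.unusedSectionVars false

noncomputable section

namespace SQ.HH

open Singer SQ.T3 SQ.T3.GoodP

namespace Un

/-! ### inverses of series, for pairs -/

section inv

/-- the recursion for the coefficients of the inverse -/
theorem inv_formula {E : Type} [DivisionRing E] {F L : Subfield E} {t : Eˣ} (T : Step F L t) {x : E} (hx : x ∈ L)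
    (u0 : ℤ) (h0 : ∀ u, u < u0 → T.κ x u = 0) (h1 : T.κ x u0 ≠ 0) (l : ℤ) (hl : ∀ i, i < l → T.κ x⁻¹ i = 0) (v : ℤ)
    (hlv : l ≤ v) :
    T.κ x⁻¹ v = ((t ^ (-u0) : Eˣ) : E) * ((T.κ x u0)⁻¹ * ((if u0 + v = 0 then (1 : E) else 0) -
      ∑ i ∈ Finset.Icc (u0 + 1) (u0 + v - l),
        T.κ x i * (((t ^ i : Eˣ) : E) * T.κ x⁻¹ (u0 + v - i) * ((t ^ (-i) : Eˣ) : E)))) * ((t ^ (- -u0) : Eˣ) : E) := by
  have hx0 : x ≠ 0 := by
    rintro rfl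
    exact h1 (by rw [map_zero]; rfl)
  have h3 := T.mul x hx x⁻¹ (L.inv_mem hx) (u0 + v)
  rw [mul_inv_cancel₀ hx0, κ_one] at h3
  have h4 := cv_eq t (T.κ x) (T.κ x⁻¹) u0 l h0 hl (u0 + v)
  unfold cv at h4
  rw [← h3] at h4
  have h5 : Finset.Icc u0 (u0 + v - l) = insert u0 (Finset.Icc (u0 + 1) (u0 + v - l)) := by
    ext i
    rw [Finset.mem_insert, Finset.mem_Icc, Finset.mem_Icc]
    omega
  have h6 : u0 ∉ Finset.Icc (u0 + 1) (u0 + v - l) := by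
    rw [Finset.mem_Icc]
    omega
  rw [h5, Finset.sum_insert h6, add_sub_cancel_left] at h4
  have h9 : ((t ^ u0 : Eˣ) : E) * T.κ x⁻¹ v * ((t ^ (-u0) : Eˣ) : E) =
      (T.κ x u0)⁻¹ * ((if u0 + v = 0 then (1 : E) else 0) - ∑ i ∈ Finset.Icc (u0 + 1) (u0 + v - l),
        T.κ x i * (((t ^ i : Eˣ) : E) * T.κ x⁻¹ (u0 + v - i) * ((t ^ (-i) : Eˣ) : E))) := by
    rw [h4, add_sub_cancel_right, inv_mul_cancel_left₀ h1]
  have h10 : T.κ x⁻¹ v = ((t ^ (-u0) : Eˣ) : E) * (((t ^ u0 : Eˣ) : E) * T.κ x⁻¹ v * ((t ^ (-u0) : Eˣ) : E)) *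
      ((t ^ (- -u0) : Eˣ) : E) := by
    rw [neg_neg, zpow_neg]
    simp only [mul_assoc]
    rw [Units.inv_mul, mul_one, Units.inv_mul_cancel_left]
  rw [h9] at h10
  exact h10

variable {E₁ E₂ : Type} [DivisionRing E₁] [DivisionRing E₂]

/-- sums of pairs -/
lemma sum_pair (R : Subring (E₁ × E₂)) {ι : Type*} (s : Finset ι) (f : ι → E₁) (g : ι → E₂)
    (h : ∀ i ∈ s, (f i, g i) ∈ R) : (∑ i ∈ s, f i, ∑ i ∈ s, g i) ∈ R := by
  have h1 : (∑ i ∈ s, f i, ∑ i ∈ s, g i) = ∑ i ∈ s, (f i, g i) := by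
    refine Prod.ext ?_ ?_
    · rw [Prod.fst_sum]
    · rw [Prod.snd_sum]
  rw [h1]
  exact R.sum_mem h

lemma mul_pair (R : Subring (E₁ × E₂)) {a c : E₁} {b d : E₂} (h : (a, b) ∈ R) (h' : (c, d) ∈ R) : (a * c, b * d) ∈ R :=
  R.mul_mem h h'

variable {F₁ L₁ : Subfield E₁} {t₁ : E₁ˣ} (T₁ : Step F₁ L₁ t₁) {F₂ L₂ : Subfield E₂} {t₂ : E₂ˣ} (T₂ : Step F₂ L₂ t₂)

theorem inv_mem₂ (R : Subring (E₁ × E₂))
    (hR : ∀ (i : ℤ) (x : E₁) (y : E₂), (x, y) ∈ R →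
      (((t₁ ^ i : E₁ˣ) : E₁) * x * ((t₁ ^ (-i) : E₁ˣ) : E₁), ((t₂ ^ i : E₂ˣ) : E₂) * y * ((t₂ ^ (-i) : E₂ˣ) : E₂)) ∈ R)
    {x : E₁} {y : E₂} (hx : x ∈ L₁) (hy : y ∈ L₂) (hxy : ∀ u, (T₁.κ x u, T₂.κ y u) ∈ R) (u0 : ℤ)
    (h0 : ∀ u, u < u0 → T₁.κ x u = 0) (h0' : ∀ u, u < u0 → T₂.κ y u = 0)
    (h1 : T₁.κ x u0 ≠ 0) (h1' : T₂.κ y u0 ≠ 0) (h2 : ((T₁.κ x u0)⁻¹, (T₂.κ y u0)⁻¹) ∈ R) (v : ℤ) :
    (T₁.κ x⁻¹ v, T₂.κ y⁻¹ v) ∈ R := by
  obtain ⟨l₁, hl₁⟩ := T₁.bdd x⁻¹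
  obtain ⟨l₂, hl₂⟩ := T₂.bdd y⁻¹
  obtain ⟨l, hl, hl'⟩ : ∃ l : ℤ, l ≤ l₁ ∧ l ≤ l₂ := ⟨min l₁ l₂, min_le_left _ _, min_le_right _ _⟩
  have hb₁ : ∀ i, i < l → T₁.κ x⁻¹ i = 0 := fun i hi => hl₁ i (by omega)
  have hb₂ : ∀ i, i < l → T₂.κ y⁻¹ i = 0 := fun i hi => hl₂ i (by omega)
  have key : ∀ n : ℕ, ∀ v : ℤ, v < l + n → (T₁.κ x⁻¹ v, T₂.κ y⁻¹ v) ∈ R := by
    intro n
    induction n with
    | zero =>
      intro v hv
      rw [hb₁ v (by simpa using hv), hb₂ v (by simpa using hv)]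
      exact R.zero_mem
    | succ n ih =>
      intro v hv
      by_cases hvn : v < l + n
      · exact ih v hvn
      · have hlv : l ≤ v := by omega
        rw [inv_formula T₁ hx u0 h0 h1 l hb₁ v hlv, inv_formula T₂ hy u0 h0' h1' l hb₂ v hlv]
        refine hR (-u0) _ _ ?_
        have h7 := sum_pair R (Finset.Icc (u0 + 1) (u0 + v - l))
          (fun i => T₁.κ x i * (((t₁ ^ i : E₁ˣ) : E₁) * T₁.κ x⁻¹ (u0 + v - i) * ((t₁ ^ (-i) : E₁ˣ) : E₁)))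
          (fun i => T₂.κ y i * (((t₂ ^ i : E₂ˣ) : E₂) * T₂.κ y⁻¹ (u0 + v - i) * ((t₂ ^ (-i) : E₂ˣ) : E₂)))
          (fun i hi => R.mul_mem (hxy i) (hR i _ _ (ih _ (by
            rw [Finset.mem_Icc] at hi
            omega))))
        have h8 : ((if u0 + v = 0 then (1 : E₁) else 0), (if u0 + v = 0 then (1 : E₂) else 0)) ∈ R := by
          split
          · exact R.one_mem
          · exact R.zero_mem
        exact R.mul_mem h2 (R.sub_mem h8 h7)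
  obtain ⟨n, hn⟩ : ∃ n : ℕ, v < l + n := ⟨(v - l + 1).toNat, by omega⟩
  exact key n v hn

end inv

/-! ### the pairs with the same expansions -/

section pairs
variable {L : Type} [Group L] {C : Chain L} {E₁ E₂ : Type} [DivisionRing E₁] [DivisionRing E₂] [Algebra (ZMod 2) E₁]
  [Algebra (ZMod 2) E₂] {ρ₁ : L →* E₁ˣ} {ρ₂ : L →* E₂ˣ} (S₁ : Steps C ρ₁) (S₂ : Steps C ρ₂) (ht : S₁.t = S₂.t)

/-- the pair of an element of the group -/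
def pr (ρ₁ : L →* E₁ˣ) (ρ₂ : L →* E₂ˣ) (g : L) : E₁ × E₂ := (((ρ₁ g : E₁ˣ) : E₁), ((ρ₂ g : E₂ˣ) : E₂))

lemma pr_mul (g h : L) : pr ρ₁ ρ₂ (g * h) = pr ρ₁ ρ₂ g * pr ρ₁ ρ₂ h := by
  refine Prod.ext ?_ ?_
  · show ((ρ₁ (g * h) : E₁ˣ) : E₁) = _
    rw [map_mul, Units.val_mul]
    rfl
  · show ((ρ₂ (g * h) : E₂ˣ) : E₂) = _
    rw [map_mul, Units.val_mul]
    rfl

/-- the span of a subgroup -/
def ks₂ (ρ₁ : L →* E₁ˣ) (ρ₂ : L →* E₂ˣ) (N : Subgroup L) : Subring (E₁ × E₂) :=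
  Subring.closure (pr ρ₁ ρ₂ '' (N : Set L))

/-- conjugation of pairs -/
def cj₂ (ρ₁ : L →* E₁ˣ) (ρ₂ : L →* E₂ˣ) (k : L) (p : E₁ × E₂) : E₁ × E₂ := (cj ρ₁ k p.1, cj ρ₂ k p.2)

open Classical in
/-- the pairs with the same expansions -/
def GP : ℕ → ℕ → Set (E₁ × E₂)
  | 0, j => (ks₂ ρ₁ ρ₂ (C.N j) : Set (E₁ × E₂))
  | J + 1, j => if h : S₁.t j = 1 then GP J (j + 1) else
      {p | p.1 ∈ cl ρ₁ (C.N j) ∧ p.2 ∈ cl ρ₂ (C.N j) ∧
        ∀ u, ((S₁.st j h).κ p.1 u, (S₂.st j (fun h' => h ((congrFun ht j).trans h'))).κ p.2 u) ∈ GP J (j + 1)}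

lemma gp_zero (j : ℕ) : GP S₁ S₂ ht 0 j = (ks₂ ρ₁ ρ₂ (C.N j) : Set (E₁ × E₂)) := by rw [GP]

lemma gp_one (J j : ℕ) (h : S₁.t j = 1) : GP S₁ S₂ ht (J + 1) j = GP S₁ S₂ ht J (j + 1) := by
  rw [GP, dif_pos h]

lemma gp_succ (J j : ℕ) (h : S₁.t j ≠ 1) (h' : S₂.t j ≠ 1) (p : E₁ × E₂) :
    p ∈ GP S₁ S₂ ht (J + 1) j ↔ p.1 ∈ cl ρ₁ (C.N j) ∧ p.2 ∈ cl ρ₂ (C.N j) ∧
      ∀ u, ((S₁.st j h).κ p.1 u, (S₂.st j h').κ p.2 u) ∈ GP S₁ S₂ ht J (j + 1) := by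
  rw [GP, dif_neg h]
  rfl

include ht in
lemma ne₂ {j : ℕ} (h : S₁.t j ≠ 1) : S₂.t j ≠ 1 := fun h' => h ((congrFun ht j).trans h')

include ht in
lemma cj_t (j : ℕ) (i : ℤ) (z : E₂) : cj ρ₂ (S₂.t j ^ i) z = cj ρ₂ (S₁.t j ^ i) z := by rw [ht]

include ht in
lemma ρ_t (j : ℕ) (k : L) (u : ℤ) : ((ρ₂ ((k * S₂.t j * k⁻¹) ^ u * (S₂.t j ^ u)⁻¹) : E₂ˣ) : E₂) =
    ((ρ₂ ((k * S₁.t j * k⁻¹) ^ u * (S₁.t j ^ u)⁻¹) : E₂ˣ) : E₂) := by rw [ht]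

theorem exists_ring₂ (J : ℕ) : ∀ j, ∃ R : Subring (E₁ × E₂), (∀ p, p ∈ GP S₁ S₂ ht J j ↔ p ∈ R) ∧
    (∀ x ∈ R, x.1 ∈ cl ρ₁ (C.N j) ∧ x.2 ∈ cl ρ₂ (C.N j)) ∧
    (∀ k : L, ∀ x ∈ R, cj₂ ρ₁ ρ₂ k x ∈ R) ∧ ∀ g ∈ C.N j, pr ρ₁ ρ₂ g ∈ R := by
  induction J with
  | zero =>
    intro j
    refine ⟨ks₂ ρ₁ ρ₂ (C.N j), fun p => by rw [gp_zero]; rfl, fun x hx => ?_, fun k x hx => ?_,
      fun g hg => Subring.subset_closure ⟨g, hg, rfl⟩⟩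
    · unfold ks₂ at hx
      induction hx using Subring.closure_induction with
      | mem x h =>
        obtain ⟨g, hg, rfl⟩ := h
        exact ⟨Subfield.subset_closure ⟨g, hg, rfl⟩, Subfield.subset_closure ⟨g, hg, rfl⟩⟩
      | zero => exact ⟨Subfield.zero_mem _, Subfield.zero_mem _⟩
      | one => exact ⟨Subfield.one_mem _, Subfield.one_mem _⟩
      | add x y _ _ hx hy => exact ⟨Subfield.add_mem _ hx.1 hy.1, Subfield.add_mem _ hx.2 hy.2⟩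
      | neg x _ hx => exact ⟨Subfield.neg_mem _ hx.1, Subfield.neg_mem _ hx.2⟩
      | mul x y _ _ hx hy => exact ⟨Subfield.mul_mem _ hx.1 hy.1, Subfield.mul_mem _ hx.2 hy.2⟩
    · unfold ks₂ at hx ⊢
      induction hx using Subring.closure_induction with
      | mem x h =>
        obtain ⟨g, hg, rfl⟩ := h
        have h1 : cj₂ ρ₁ ρ₂ k (pr ρ₁ ρ₂ g) = pr ρ₁ ρ₂ (k * g * k⁻¹) := Prod.ext (cj_ρ k g) (cj_ρ k g)
        rw [h1]
        exact Subring.subset_closure ⟨_, (C.normal j).conj_mem g hg k, rfl⟩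
      | zero =>
        have h1 : cj₂ ρ₁ ρ₂ k 0 = 0 := Prod.ext (cj_zero k) (cj_zero k)
        rw [h1]; exact Subring.zero_mem _
      | one =>
        have h1 : cj₂ ρ₁ ρ₂ k 1 = 1 := Prod.ext (cj_one k) (cj_one k)
        rw [h1]; exact Subring.one_mem _
      | add x y _ _ hx hy =>
        have h1 : cj₂ ρ₁ ρ₂ k (x + y) = cj₂ ρ₁ ρ₂ k x + cj₂ ρ₁ ρ₂ k y := Prod.ext (cj_add k _ _) (cj_add k _ _)
        rw [h1]; exact Subring.add_mem _ hx hy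
      | neg x _ hx =>
        have h1 : cj₂ ρ₁ ρ₂ k (-x) = -cj₂ ρ₁ ρ₂ k x := Prod.ext (cj_neg k _) (cj_neg k _)
        rw [h1]; exact Subring.neg_mem _ hx
      | mul x y _ _ hx hy =>
        have h1 : cj₂ ρ₁ ρ₂ k (x * y) = cj₂ ρ₁ ρ₂ k x * cj₂ ρ₁ ρ₂ k y := Prod.ext (cj_mul k _ _) (cj_mul k _ _)
        rw [h1]; exact Subring.mul_mem _ hx hy
  | succ J ih =>
    intro j
    obtain ⟨R, h1, h2, h3, h4⟩ := ih (j + 1)
    by_cases h : S₁.t j = 1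
    · refine ⟨R, fun p => by rw [gp_one S₁ S₂ ht J j h, h1], fun x hx => ?_, h3, fun g hg => h4 g (N_eq S₁ j h hg)⟩
      have h5 : cl ρ₁ (C.N (j + 1)) ≤ cl ρ₁ (C.N j) := Subfield.closure_mono (Set.image_mono (anti C j))
      have h6 : cl ρ₂ (C.N (j + 1)) ≤ cl ρ₂ (C.N j) := Subfield.closure_mono (Set.image_mono (anti C j))
      exact ⟨h5 (h2 x hx).1, h6 (h2 x hx).2⟩
    · have h' := ne₂ S₁ S₂ ht h
      have hmem : ∀ p, p ∈ GP S₁ S₂ ht (J + 1) j ↔ p.1 ∈ cl ρ₁ (C.N j) ∧ p.2 ∈ cl ρ₂ (C.N j) ∧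
          ∀ u, ((S₁.st j h).κ p.1 u, (S₂.st j h').κ p.2 u) ∈ R := by
        intro p
        rw [gp_succ S₁ S₂ ht J j h h']
        exact and_congr_right fun _ => and_congr_right fun _ => forall_congr' fun u => h1 _
      refine ⟨{ carrier := GP S₁ S₂ ht (J + 1) j
                zero_mem' := ?_
                one_mem' := ?_
                add_mem' := ?_
                neg_mem' := ?_
                mul_mem' := ?_ }, fun p => Iff.rfl, fun x hx => ⟨((hmem x).1 hx).1, ((hmem x).1 hx).2.1⟩,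
                fun k x hx => ?_, fun g hg => ?_⟩
      · intro x y hx hy
        rw [hmem] at hx hy ⊢
        refine ⟨Subfield.mul_mem _ hx.1 hy.1, Subfield.mul_mem _ hx.2.1 hy.2.1, fun u => ?_⟩
        obtain ⟨a₁, ha₁⟩ := (S₁.st j h).bdd x.1
        obtain ⟨b₁, hb₁⟩ := (S₁.st j h).bdd y.1
        obtain ⟨a₂, ha₂⟩ := (S₂.st j h').bdd x.2
        obtain ⟨b₂, hb₂⟩ := (S₂.st j h').bdd y.2
        obtain ⟨a, e1, e2⟩ : ∃ a : ℤ, a ≤ a₁ ∧ a ≤ a₂ := ⟨min a₁ a₂, min_le_left _ _, min_le_right _ _⟩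
        obtain ⟨b, e3, e4⟩ : ∃ b : ℤ, b ≤ b₁ ∧ b ≤ b₂ := ⟨min b₁ b₂, min_le_left _ _, min_le_right _ _⟩
        have f1 := (S₁.st j h).mul x.1 hx.1 y.1 hy.1 u
        have f2 := (S₂.st j h').mul x.2 hx.2.1 y.2 hy.2.1 u
        have g1 := cv_eq (ρ₁ (S₁.t j)) ((S₁.st j h).κ x.1) ((S₁.st j h).κ y.1) a b (fun i hi => ha₁ i (by omega))
          (fun i hi => hb₁ i (by omega)) u
        have g2 := cv_eq (ρ₂ (S₂.t j)) ((S₂.st j h').κ x.2) ((S₂.st j h').κ y.2) a b (fun i hi => ha₂ i (by omega))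
          (fun i hi => hb₂ i (by omega)) u
        unfold cv at g1 g2
        rw [g1] at f1
        rw [g2] at f2
        show ((S₁.st j h).κ (x.1 * y.1) u, (S₂.st j h').κ (x.2 * y.2) u) ∈ R
        rw [f1, f2]
        refine sum_pair R _ _ _ fun i _ => mul_pair R (hx.2.2 i) ?_
        rw [tw_eq, tw_eq, cj_t S₁ S₂ ht]
        exact h3 _ _ (hy.2.2 _)
      · rw [hmem]
        refine ⟨Subfield.one_mem _, Subfield.one_mem _, fun u => ?_⟩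
        show ((S₁.st j h).κ 1 u, (S₂.st j h').κ 1 u) ∈ R
        rw [κ_one, κ_one]
        split
        · exact R.one_mem
        · exact R.zero_mem
      · intro x y hx hy
        rw [hmem] at hx hy ⊢
        refine ⟨Subfield.add_mem _ hx.1 hy.1, Subfield.add_mem _ hx.2.1 hy.2.1, fun u => ?_⟩
        show ((S₁.st j h).κ (x.1 + y.1) u, (S₂.st j h').κ (x.2 + y.2) u) ∈ R
        rw [map_add, map_add]
        exact R.add_mem (hx.2.2 u) (hy.2.2 u)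
      · rw [hmem]
        refine ⟨Subfield.zero_mem _, Subfield.zero_mem _, fun u => ?_⟩
        show ((S₁.st j h).κ 0 u, (S₂.st j h').κ 0 u) ∈ R
        rw [map_zero, map_zero]
        exact R.zero_mem
      · intro x hx
        rw [hmem] at hx ⊢
        refine ⟨Subfield.neg_mem _ hx.1, Subfield.neg_mem _ hx.2.1, fun u => ?_⟩
        show ((S₁.st j h).κ (-x.1) u, (S₂.st j h').κ (-x.2) u) ∈ R
        rw [map_neg, map_neg]
        exact R.neg_mem (hx.2.2 u)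
      · have hx' := (hmem x).1 hx
        refine (hmem _).2 ⟨cj_cl (C.normal j) k hx'.1, cj_cl (C.normal j) k hx'.2.1, fun u => ?_⟩
        show ((S₁.st j h).κ (cj ρ₁ k x.1) u, (S₂.st j h').κ (cj ρ₂ k x.2) u) ∈ R
        rw [κ_cj' S₁ j h k hx'.1, κ_cj' S₂ j h' k hx'.2.1, ρ_t S₁ S₂ ht]
        exact mul_pair R (h3 _ _ (hx'.2.2 u)) (h4 _ (comm_zpow C j k _ (S₁.t_mem j) u))
      · refine (hmem _).2 ⟨Subfield.subset_closure ⟨g, hg, rfl⟩, Subfield.subset_closure ⟨g, hg, rfl⟩, fun u => ?_⟩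
        obtain ⟨n, hn⟩ := S₁.gen j g hg
        have hn' : g * S₂.t j ^ (-n) ∈ C.N (j + 1) := by rwa [← ht]
        show ((S₁.st j h).κ ((ρ₁ g : E₁ˣ) : E₁) u, (S₂.st j h').κ ((ρ₂ g : E₂ˣ) : E₂) u) ∈ R
        rw [κ_ρ S₁ j h hn, κ_ρ S₂ j h' hn', ← ht]
        split
        · exact h4 _ hn
        · exact R.zero_mem

lemma gp_mono (J : ℕ) : ∀ j, GP S₁ S₂ ht J j ⊆ GP S₁ S₂ ht (J + 1) j := by
  induction J with
  | zero =>
    intro j x hx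
    obtain ⟨R, h1, h2, h3, h4⟩ := exists_ring₂ S₁ S₂ ht (0 + 1) j
    rw [gp_zero] at hx
    rw [h1]
    have h5 : ks₂ ρ₁ ρ₂ (C.N j) ≤ R := by
      refine Subring.closure_le.2 ?_
      rintro _ ⟨g, hg, rfl⟩
      exact h4 g hg
    exact h5 hx
  | succ J ih =>
    intro j x hx
    by_cases h : S₁.t j = 1
    · rw [gp_one S₁ S₂ ht _ j h] at hx ⊢
      exact ih (j + 1) hx
    · have h' := ne₂ S₁ S₂ ht h
      rw [gp_succ S₁ S₂ ht _ j h h'] at hx ⊢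
      exact ⟨hx.1, hx.2.1, fun u => ih (j + 1) (hx.2.2 u)⟩

lemma gp_mono' {J J' : ℕ} (h : J ≤ J') (j : ℕ) : GP S₁ S₂ ht J j ⊆ GP S₁ S₂ ht J' j := by
  induction h with
  | refl => exact subset_rfl
  | step h ih => exact ih.trans (gp_mono S₁ S₂ ht _ j)

/-- a pair in the span -/
lemma exists_finset₂ {N : Subgroup L} {x : E₁ × E₂} (hx : x ∈ ks₂ ρ₁ ρ₂ N) :
    ∃ S : Finset L, (∀ g ∈ S, g ∈ N) ∧ x.1 = ∑ g ∈ S, ((ρ₁ g : E₁ˣ) : E₁) ∧ x.2 = ∑ g ∈ S, ((ρ₂ g : E₂ˣ) : E₂) := by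
  classical
  have h0 : x ∈ AddSubgroup.closure (pr ρ₁ ρ₂ '' (N : Set L)) := by
    let s : Submonoid (E₁ × E₂) :=
      { carrier := pr ρ₁ ρ₂ '' (N : Set L)
        one_mem' := ⟨1, N.one_mem, Prod.ext (by
          show ((ρ₁ 1 : E₁ˣ) : E₁) = 1
          rw [map_one, Units.val_one]) (by
          show ((ρ₂ 1 : E₂ˣ) : E₂) = 1
          rw [map_one, Units.val_one])⟩
        mul_mem' := by
          rintro _ _ ⟨g, hg, rfl⟩ ⟨h, hh, rfl⟩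
          exact ⟨g * h, N.mul_mem hg hh, pr_mul g h⟩ }
    have hs : (s : Set (E₁ × E₂)) = pr ρ₁ ρ₂ '' (N : Set L) := rfl
    rw [ks₂, Subring.mem_closure_iff, ← hs, Submonoid.closure_eq] at hx
    exact hx
  have hadd : ∀ {E : Type} [DivisionRing E] [Algebra (ZMod 2) E] (ρ : L →* Eˣ) (S T : Finset L),
      ∑ g ∈ symmDiff S T, ((ρ g : Eˣ) : E) = ∑ g ∈ S, ((ρ g : Eˣ) : E) + ∑ g ∈ T, ((ρ g : Eˣ) : E) := by
    intro E _ _ ρ S T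
    have h1 : ∑ g ∈ S, ((ρ g : Eˣ) : E) = ∑ g ∈ S \ T, ((ρ g : Eˣ) : E) + ∑ g ∈ S ∩ T, ((ρ g : Eˣ) : E) := by
      rw [add_comm, Finset.sum_inter_add_sum_sdiff]
    have h2 : ∑ g ∈ T, ((ρ g : Eˣ) : E) = ∑ g ∈ T \ S, ((ρ g : Eˣ) : E) + ∑ g ∈ S ∩ T, ((ρ g : Eˣ) : E) := by
      rw [add_comm, Finset.inter_comm, Finset.sum_inter_add_sum_sdiff]
    have h3 : ∑ g ∈ symmDiff S T, ((ρ g : Eˣ) : E) =
        ∑ g ∈ S \ T, ((ρ g : Eˣ) : E) + ∑ g ∈ T \ S, ((ρ g : Eˣ) : E) := by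
      rw [← Finset.sum_union disjoint_sdiff_sdiff]
      rfl
    rw [h1, h2, h3]
    have h4 := add_self (∑ g ∈ S ∩ T, ((ρ g : Eˣ) : E))
    symm
    calc ∑ g ∈ S \ T, ((ρ g : Eˣ) : E) + ∑ g ∈ S ∩ T, ((ρ g : Eˣ) : E) +
          (∑ g ∈ T \ S, ((ρ g : Eˣ) : E) + ∑ g ∈ S ∩ T, ((ρ g : Eˣ) : E)) =
        ∑ g ∈ S \ T, ((ρ g : Eˣ) : E) + ∑ g ∈ T \ S, ((ρ g : Eˣ) : E) +
          (∑ g ∈ S ∩ T, ((ρ g : Eˣ) : E) + ∑ g ∈ S ∩ T, ((ρ g : Eˣ) : E)) := by abel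
      _ = _ := by rw [h4, add_zero]
  clear hx
  induction h0 using AddSubgroup.closure_induction with
  | mem x h =>
    obtain ⟨g, hg, rfl⟩ := h
    exact ⟨{g}, fun h hh => by rwa [Finset.mem_singleton.1 hh], (Finset.sum_singleton _ _).symm,
      (Finset.sum_singleton _ _).symm⟩
  | zero => exact ⟨∅, fun g hg => absurd hg (Finset.notMem_empty g), rfl, rfl⟩
  | add x y _ _ hx hy =>
    obtain ⟨S, hS, h1, h2⟩ := hx
    obtain ⟨T, hT, h3, h4⟩ := hy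
    refine ⟨symmDiff S T, fun g hg => ?_, ?_, ?_⟩
    · rcases Finset.mem_symmDiff.1 hg with h | h
      · exact hS g h.1
      · exact hT g h.1
    · rw [hadd, ← h1, ← h3]
      rfl
    · rw [hadd, ← h2, ← h4]
      rfl
  | neg x _ hx =>
    obtain ⟨S, hS, h1, h2⟩ := hx
    refine ⟨S, hS, ?_, ?_⟩
    · show -x.1 = _
      rw [← h1, neg_eq_iff_add_eq_zero]
      exact add_self _
    · show -x.2 = _
      rw [← h2, neg_eq_iff_add_eq_zero]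
      exact add_self _

/-- the components of a pair vanish at the same time -/
lemma zero_iff (hI₁ : LinearIndependent (ZMod 2) fun g : L => ((ρ₁ g : E₁ˣ) : E₁))
    (hI₂ : LinearIndependent (ZMod 2) fun g : L => ((ρ₂ g : E₂ˣ) : E₂)) (J : ℕ) :
    ∀ j, ∀ p ∈ GP S₁ S₂ ht J j, p.1 = 0 ↔ p.2 = 0 := by
  classical
  induction J with
  | zero =>
    intro j p hp
    rw [gp_zero] at hp
    obtain ⟨S, -, h1, h2⟩ := exists_finset₂ hp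
    have key : ∀ {E : Type} [DivisionRing E] [Algebra (ZMod 2) E] (ρ : L →* Eˣ),
        (LinearIndependent (ZMod 2) fun g : L => ((ρ g : Eˣ) : E)) → (∑ g ∈ S, ((ρ g : Eˣ) : E) = 0 ↔ S = ∅) := by
      intro E _ _ ρ hI
      constructor
      · intro h0
        by_contra hne
        obtain ⟨g, hg⟩ := Finset.nonempty_iff_ne_empty.2 hne
        have h3 := linearIndependent_iff'.1 hI S (fun _ => 1) (by
          simp only [one_smul]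
          exact h0) g hg
        exact one_ne_zero h3
      · intro h0
        rw [h0, Finset.sum_empty]
    rw [h1, h2, key ρ₁ hI₁, key ρ₂ hI₂]
  | succ J ih =>
    intro j p hp
    by_cases h : S₁.t j = 1
    · rw [gp_one S₁ S₂ ht _ j h] at hp
      exact ih (j + 1) p hp
    · have h' := ne₂ S₁ S₂ ht h
      rw [gp_succ S₁ S₂ ht _ j h h'] at hp
      obtain ⟨h1, h2, h3⟩ := hp
      constructor
      · intro h0
        refine (S₂.st j h').inj _ h2 fun u => (ih (j + 1) _ (h3 u)).1 ?_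
        show (S₁.st j h).κ p.1 u = 0
        rw [h0, map_zero]
        rfl
      · intro h0
        refine (S₁.st j h).inj _ h1 fun u => (ih (j + 1) _ (h3 u)).2 ?_
        show (S₂.st j h').κ p.2 u = 0
        rw [h0, map_zero]
        rfl

/-- the inverse of a pair -/
def iv (p : E₁ × E₂) : E₁ × E₂ := (p.1⁻¹, p.2⁻¹)

/-- the inverse of a pair with good coefficients -/
lemma inv_good₂ (J j : ℕ) (h : S₁.t j ≠ 1) (h' : S₂.t j ≠ 1) {p : E₁ × E₂} (hx : p.1 ∈ cl ρ₁ (C.N j))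
    (hy : p.2 ∈ cl ρ₂ (C.N j))
    (hxR : ∀ u, ((S₁.st j h).κ p.1 u, (S₂.st j h').κ p.2 u) ∈ GP S₁ S₂ ht J (j + 1))
    (u0 : ℤ) (h0 : ∀ u, u < u0 → (S₁.st j h).κ p.1 u = 0) (h0' : ∀ u, u < u0 → (S₂.st j h').κ p.2 u = 0)
    (h1 : (S₁.st j h).κ p.1 u0 ≠ 0) (h1' : (S₂.st j h').κ p.2 u0 ≠ 0)
    (h2 : iv ((S₁.st j h).κ p.1 u0, (S₂.st j h').κ p.2 u0) ∈ GP S₁ S₂ ht J (j + 1)) : iv p ∈ GP S₁ S₂ ht (J + 1) j := by
  obtain ⟨R, e1, e2, e3, e4⟩ := exists_ring₂ S₁ S₂ ht J (j + 1)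
  rw [gp_succ S₁ S₂ ht J j h h']
  refine ⟨Subfield.inv_mem _ hx, Subfield.inv_mem _ hy, fun v => ?_⟩
  rw [e1] at h2 ⊢
  refine inv_mem₂ (S₁.st j h) (S₂.st j h') R (fun i x y hxy => ?_) hx hy (fun u => ?_) u0 h0 h0' h1 h1' h2 v
  · rw [tw_eq, tw_eq, cj_t S₁ S₂ ht]
    exact e3 _ _ hxy
  · have := hxR u
    rwa [e1] at this

/-- the inverse of a sum of elements of the group -/
theorem sum_inv₂ (m : ℕ) : ∀ (j : ℕ) (A : Finset L), A.Nonempty → (∀ g ∈ A, g ∈ C.N j) →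
    (∀ g ∈ A, ∀ h ∈ A, g * h⁻¹ ∈ C.N (j + m) → g = h) →
    (∑ g ∈ A, ((ρ₁ g : E₁ˣ) : E₁)) ≠ 0 ∧ (∑ g ∈ A, ((ρ₂ g : E₂ˣ) : E₂)) ≠ 0 ∧
      iv (∑ g ∈ A, ((ρ₁ g : E₁ˣ) : E₁), ∑ g ∈ A, ((ρ₂ g : E₂ˣ) : E₂)) ∈ GP S₁ S₂ ht m j := by
  classical
  induction m with
  | zero =>
    intro j A hA hN hsep
    obtain ⟨g, hg⟩ := hA
    have h1 : A = {g} := by
      refine Finset.eq_singleton_iff_unique_mem.2 ⟨hg, fun h hh => ?_⟩
      exact hsep h hh g hg ((C.N j).mul_mem (hN h hh) ((C.N j).inv_mem (hN g hg)))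
    rw [h1, Finset.sum_singleton, Finset.sum_singleton]
    refine ⟨(ρ₁ g).ne_zero, (ρ₂ g).ne_zero, ?_⟩
    rw [gp_zero]
    have h2 : iv (((ρ₁ g : E₁ˣ) : E₁), ((ρ₂ g : E₂ˣ) : E₂)) = pr ρ₁ ρ₂ g⁻¹ := by
      refine Prod.ext ?_ ?_
      · show (((ρ₁ g : E₁ˣ) : E₁))⁻¹ = ((ρ₁ g⁻¹ : E₁ˣ) : E₁)
        rw [map_inv, Units.val_inv_eq_inv_val]
      · show (((ρ₂ g : E₂ˣ) : E₂))⁻¹ = ((ρ₂ g⁻¹ : E₂ˣ) : E₂)
        rw [map_inv, Units.val_inv_eq_inv_val]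
    rw [h2]
    exact Subring.subset_closure ⟨_, (C.N j).inv_mem (hN g hg), rfl⟩
  | succ m ih =>
    intro j A hA hN hsep
    have hjm : j + (m + 1) = j + 1 + m := by omega
    rw [hjm] at hsep
    by_cases h : S₁.t j = 1
    · rw [gp_one S₁ S₂ ht m j h]
      exact ih (j + 1) A hA (fun g hg => N_eq S₁ j h (hN g hg)) hsep
    · have h' := ne₂ S₁ S₂ ht h
      -- the degrees
      have hdeg : ∀ g : L, ∃ n : ℤ, g ∈ A → g * S₁.t j ^ (-n) ∈ C.N (j + 1) := by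
        intro g
        by_cases hg : g ∈ A
        · obtain ⟨n, hn⟩ := S₁.gen j g (hN g hg)
          exact ⟨n, fun _ => hn⟩
        · exact ⟨0, fun h => absurd h hg⟩
      choose n hn using hdeg
      set p₁ := ∑ g ∈ A, ((ρ₁ g : E₁ˣ) : E₁) with hp₁
      set p₂ := ∑ g ∈ A, ((ρ₂ g : E₂ˣ) : E₂) with hp₂
      have hpc₁ : p₁ ∈ cl ρ₁ (C.N j) := Subfield.sum_mem _ fun g hg => Subfield.subset_closure ⟨g, hN g hg, rfl⟩
      have hpc₂ : p₂ ∈ cl ρ₂ (C.N j) := Subfield.sum_mem _ fun g hg => Subfield.subset_closure ⟨g, hN g hg, rfl⟩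
      have hκ₁ : ∀ u, (S₁.st j h).κ p₁ u = ∑ g ∈ A.filter (fun g => n g = u), ((ρ₁ (g * S₁.t j ^ (-u)) : E₁ˣ) : E₁) := by
        intro u
        rw [hp₁, map_sum, Finset.sum_apply, Finset.sum_filter]
        refine Finset.sum_congr rfl fun g hg => ?_
        rw [κ_ρ S₁ j h (hn g hg)]
        by_cases hu : u = n g
        · rw [if_pos hu, if_pos hu.symm, ← hu]
        · rw [if_neg hu, if_neg (Ne.symm hu)]
      have hκ₂ : ∀ u, (S₂.st j h').κ p₂ u = ∑ g ∈ A.filter (fun g => n g = u), ((ρ₂ (g * S₁.t j ^ (-u)) : E₂ˣ) : E₂) := by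
        intro u
        rw [hp₂, map_sum, Finset.sum_apply, Finset.sum_filter]
        refine Finset.sum_congr rfl fun g hg => ?_
        have hn' : g * S₂.t j ^ (-n g) ∈ C.N (j + 1) := by
          rw [← ht]
          exact hn g hg
        rw [κ_ρ S₂ j h' hn', ← ht]
        by_cases hu : u = n g
        · rw [if_pos hu, if_pos hu.symm, ← hu]
        · rw [if_neg hu, if_neg (Ne.symm hu)]
      -- the least degree
      obtain ⟨g0, hg0, hmin⟩ := Finset.exists_min_image A n hA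
      let A0 : Finset L := (A.filter (fun g => n g = n g0)).image fun g => g * S₁.t j ^ (-n g0)
      have hinj : Function.Injective fun g : L => g * S₁.t j ^ (-n g0) := mul_left_injective _
      have hκ0 : (S₁.st j h).κ p₁ (n g0) = ∑ g ∈ A0, ((ρ₁ g : E₁ˣ) : E₁) := by
        rw [hκ₁, Finset.sum_image (fun x _ y _ hxy => hinj hxy)]
      have hκ0' : (S₂.st j h').κ p₂ (n g0) = ∑ g ∈ A0, ((ρ₂ g : E₂ˣ) : E₂) := by
        rw [hκ₂, Finset.sum_image (fun x _ y _ hxy => hinj hxy)]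
      obtain ⟨h5, h5', h6⟩ := ih (j + 1) A0 ⟨g0 * S₁.t j ^ (-n g0), Finset.mem_image_of_mem _
        (Finset.mem_filter.2 ⟨hg0, rfl⟩)⟩ (fun x hx => by
        obtain ⟨g, hg, rfl⟩ := Finset.mem_image.1 hx
        obtain ⟨hg1, hg2⟩ := Finset.mem_filter.1 hg
        have := hn g hg1
        rwa [hg2] at this) (fun x hx y hy hxy => by
        obtain ⟨g, hg, rfl⟩ := Finset.mem_image.1 hx
        obtain ⟨g', hg', rfl⟩ := Finset.mem_image.1 hy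
        have e1 : g * S₁.t j ^ (-n g0) * (g' * S₁.t j ^ (-n g0))⁻¹ = g * g'⁻¹ := by group
        rw [e1] at hxy
        rw [hsep g (Finset.mem_filter.1 hg).1 g' (Finset.mem_filter.1 hg').1 hxy])
      rw [← hκ0] at h5 h6
      rw [← hκ0'] at h5' h6
      refine ⟨fun h7 => h5 (by rw [h7, map_zero]; rfl), fun h7 => h5' (by rw [h7, map_zero]; rfl), ?_⟩
      refine inv_good₂ S₁ S₂ ht m j h h' hpc₁ hpc₂ (fun u => ?_) (n g0) (fun u hu => ?_) (fun u hu => ?_) h5 h5' h6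
      · obtain ⟨R, e1, e2, e3, e4⟩ := exists_ring₂ S₁ S₂ ht m (j + 1)
        rw [e1]
        show ((S₁.st j h).κ p₁ u, (S₂.st j h').κ p₂ u) ∈ R
        rw [hκ₁, hκ₂]
        refine sum_pair R _ _ _ fun g hg => e4 _ ?_
        obtain ⟨hg1, hg2⟩ := Finset.mem_filter.1 hg
        have := hn g hg1
        rwa [hg2] at this
      · show (S₁.st j h).κ p₁ u = 0
        rw [hκ₁]
        refine Finset.sum_eq_zero fun g hg => ?_
        obtain ⟨hg1, hg2⟩ := Finset.mem_filter.1 hg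
        have := hmin g hg1
        omega
      · show (S₂.st j h').κ p₂ u = 0
        rw [hκ₂]
        refine Finset.sum_eq_zero fun g hg => ?_
        obtain ⟨hg1, hg2⟩ := Finset.mem_filter.1 hg
        have := hmin g hg1
        omega

/-- inverses of good pairs are good -/
theorem exists_inv₂ (hI₁ : LinearIndependent (ZMod 2) fun g : L => ((ρ₁ g : E₁ˣ) : E₁))
    (hI₂ : LinearIndependent (ZMod 2) fun g : L => ((ρ₂ g : E₂ˣ) : E₂)) (J : ℕ) :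
    ∀ (j : ℕ) (p : E₁ × E₂), p ∈ GP S₁ S₂ ht J j → p.1 ≠ 0 → ∃ J', iv p ∈ GP S₁ S₂ ht J' j := by
  induction J with
  | zero =>
    intro j p hx hx0
    rw [gp_zero] at hx
    obtain ⟨A, hA, e1, e2⟩ := exists_finset₂ hx
    obtain ⟨m, hm⟩ := exists_sep C A j
    have hne : A.Nonempty := by
      rw [Finset.nonempty_iff_ne_empty]
      rintro rfl
      exact hx0 (by rw [e1, Finset.sum_empty])
    obtain ⟨x, y⟩ := p
    dsimp only at e1 e2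
    subst e1
    subst e2
    exact ⟨m, (sum_inv₂ S₁ S₂ ht m j A hne hA hm).2.2⟩
  | succ J ih =>
    intro j p hx hx0
    by_cases h : S₁.t j = 1
    · rw [gp_one S₁ S₂ ht J j h] at hx
      obtain ⟨J', hJ'⟩ := ih (j + 1) p hx hx0
      exact ⟨J' + 1, by rw [gp_one S₁ S₂ ht J' j h]; exact hJ'⟩
    · have h' := ne₂ S₁ S₂ ht h
      rw [gp_succ S₁ S₂ ht J j h h'] at hx
      obtain ⟨hx1, hx1', hx2⟩ := hx
      have hz : ∀ u, (S₁.st j h).κ p.1 u = 0 ↔ (S₂.st j h').κ p.2 u = 0 := fun u =>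
        zero_iff S₁ S₂ ht hI₁ hI₂ J (j + 1) _ (hx2 u)
      have hne : ∃ u, (S₁.st j h).κ p.1 u ≠ 0 := by
        by_contra hcon
        push Not at hcon
        exact hx0 ((S₁.st j h).inj p.1 hx1 hcon)
      obtain ⟨a, ha⟩ := (S₁.st j h).bdd p.1
      obtain ⟨u0, e1, e2⟩ := Int.exists_least_of_bdd (P := fun i => (S₁.st j h).κ p.1 i ≠ 0) ⟨a, fun z hz => by
        by_contra h3
        exact hz (ha z (by omega))⟩ hne
      have e3 : ∀ u, u < u0 → (S₁.st j h).κ p.1 u = 0 := by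
        intro u hu
        by_contra h3
        have := e2 u h3
        omega
      obtain ⟨J', hJ'⟩ := ih (j + 1) _ (hx2 u0) e1
      exact ⟨max J J' + 1, inv_good₂ S₁ S₂ ht _ j h h' hx1 hx1' (fun u => gp_mono' S₁ S₂ ht (le_max_left J J') _ (hx2 u))
        u0 e3 (fun u hu => (hz u).1 (e3 u hu)) e1 (fun h3 => e1 ((hz u0).2 h3))
        (gp_mono' S₁ S₂ ht (le_max_right J J') _ hJ')⟩

/-- all pairs with the same expansions -/
def UU : Subring (E₁ × E₂) where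
  carrier := {p | ∃ J, p ∈ GP S₁ S₂ ht J 0}
  zero_mem' := by
    obtain ⟨R, h1, -⟩ := exists_ring₂ S₁ S₂ ht 0 0
    exact ⟨0, (h1 _).2 R.zero_mem⟩
  one_mem' := by
    obtain ⟨R, h1, -⟩ := exists_ring₂ S₁ S₂ ht 0 0
    exact ⟨0, (h1 _).2 R.one_mem⟩
  add_mem' := by
    rintro x y ⟨J, hJ⟩ ⟨J', hJ'⟩
    obtain ⟨R, h1, -⟩ := exists_ring₂ S₁ S₂ ht (max J J') 0
    have h2 := gp_mono' S₁ S₂ ht (le_max_left J J') 0 hJ
    have h3 := gp_mono' S₁ S₂ ht (le_max_right J J') 0 hJ'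
    exact ⟨max J J', (h1 _).2 (R.add_mem ((h1 _).1 h2) ((h1 _).1 h3))⟩
  neg_mem' := by
    rintro x ⟨J, hJ⟩
    obtain ⟨R, h1, -⟩ := exists_ring₂ S₁ S₂ ht J 0
    exact ⟨J, (h1 _).2 (R.neg_mem ((h1 _).1 hJ))⟩
  mul_mem' := by
    rintro x y ⟨J, hJ⟩ ⟨J', hJ'⟩
    obtain ⟨R, h1, -⟩ := exists_ring₂ S₁ S₂ ht (max J J') 0
    have h2 := gp_mono' S₁ S₂ ht (le_max_left J J') 0 hJ
    have h3 := gp_mono' S₁ S₂ ht (le_max_right J J') 0 hJ'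
    exact ⟨max J J', (h1 _).2 (R.mul_mem ((h1 _).1 h2) ((h1 _).1 h3))⟩

lemma pr_mem (g : L) : pr ρ₁ ρ₂ g ∈ UU S₁ S₂ ht := by
  obtain ⟨R, h1, -, -, h4⟩ := exists_ring₂ S₁ S₂ ht 0 0
  exact ⟨0, (h1 _).2 (h4 g (by rw [C.zero]; exact Subgroup.mem_top g))⟩

variable (hI₁ : LinearIndependent (ZMod 2) fun g : L => ((ρ₁ g : E₁ˣ) : E₁))
  (hI₂ : LinearIndependent (ZMod 2) fun g : L => ((ρ₂ g : E₂ˣ) : E₂))

include hI₁ hI₂

lemma uu_zero {p : E₁ × E₂} (hp : p ∈ UU S₁ S₂ ht) : p.1 = 0 ↔ p.2 = 0 := by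
  obtain ⟨J, hJ⟩ := hp
  exact zero_iff S₁ S₂ ht hI₁ hI₂ J 0 p hJ

lemma uu_inv {p : E₁ × E₂} (hp : p ∈ UU S₁ S₂ ht) : iv p ∈ UU S₁ S₂ ht := by
  by_cases h0 : p.1 = 0
  · have h1 := (uu_zero S₁ S₂ ht hI₁ hI₂ hp).1 h0
    have h2 : iv p = 0 := Prod.ext (by
      show p.1⁻¹ = 0
      rw [h0, inv_zero]) (by
      show p.2⁻¹ = 0
      rw [h1, inv_zero])
    rw [h2]
    exact Subring.zero_mem _
  · obtain ⟨J, hJ⟩ := hp
    exact exists_inv₂ S₁ S₂ ht hI₁ hI₂ J 0 p hJ h0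

lemma surj₁ (x : E₁) (hx : x ∈ cl ρ₁ (C.N 0)) : ∃ y, (x, y) ∈ UU S₁ S₂ ht := by
  have hx' : x ∈ Subfield.closure ((fun g : L => ((ρ₁ g : E₁ˣ) : E₁)) '' (C.N 0 : Set L)) := hx
  clear hx
  induction hx' using Subfield.closure_induction with
  | mem x h =>
    obtain ⟨g, hg, rfl⟩ := h
    exact ⟨_, pr_mem S₁ S₂ ht g⟩
  | one => exact ⟨1, Subring.one_mem _⟩
  | add x y _ _ hx hy =>
    obtain ⟨a, ha⟩ := hx
    obtain ⟨b, hb⟩ := hy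
    exact ⟨a + b, Subring.add_mem _ ha hb⟩
  | neg x _ hx =>
    obtain ⟨a, ha⟩ := hx
    exact ⟨-a, Subring.neg_mem _ ha⟩
  | inv x _ hx =>
    obtain ⟨a, ha⟩ := hx
    exact ⟨a⁻¹, uu_inv S₁ S₂ ht hI₁ hI₂ ha⟩
  | mul x y _ _ hx hy =>
    obtain ⟨a, ha⟩ := hx
    obtain ⟨b, hb⟩ := hy
    exact ⟨a * b, Subring.mul_mem _ ha hb⟩

lemma surj₂ (y : E₂) (hy : y ∈ cl ρ₂ (C.N 0)) : ∃ x, (x, y) ∈ UU S₁ S₂ ht := by
  have hy' : y ∈ Subfield.closure ((fun g : L => ((ρ₂ g : E₂ˣ) : E₂)) '' (C.N 0 : Set L)) := hy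
  clear hy
  induction hy' using Subfield.closure_induction with
  | mem x h =>
    obtain ⟨g, hg, rfl⟩ := h
    exact ⟨_, pr_mem S₁ S₂ ht g⟩
  | one => exact ⟨1, Subring.one_mem _⟩
  | add x y _ _ hx hy =>
    obtain ⟨a, ha⟩ := hx
    obtain ⟨b, hb⟩ := hy
    exact ⟨a + b, Subring.add_mem _ ha hb⟩
  | neg x _ hx =>
    obtain ⟨a, ha⟩ := hx
    exact ⟨-a, Subring.neg_mem _ ha⟩
  | inv x _ hx =>
    obtain ⟨a, ha⟩ := hx
    exact ⟨a⁻¹, uu_inv S₁ S₂ ht hI₁ hI₂ ha⟩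
  | mul x y _ _ hx hy =>
    obtain ⟨a, ha⟩ := hx
    obtain ⟨b, hb⟩ := hy
    exact ⟨a * b, Subring.mul_mem _ ha hb⟩

lemma uniq₁ {x : E₁} {y y' : E₂} (h : (x, y) ∈ UU S₁ S₂ ht) (h' : (x, y') ∈ UU S₁ S₂ ht) : y = y' := by
  have h1 := Subring.sub_mem _ h h'
  have h2 := (uu_zero S₁ S₂ ht hI₁ hI₂ h1).1 (sub_self x)
  exact sub_eq_zero.1 h2

end pairs

end Un

open Un in
/-- **row H1** -/
theorem uniq : StmtUniq := by
  intro L _ C E₁ E₂ _ _ _ _ ρ₁ ρ₂ h₁ h₂ hI₁ hI₂ S₁ S₂ ht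
  have hs₁ : ∀ x : E₁, ∃ y, (x, y) ∈ UU S₁ S₂ ht := fun x => surj₁ S₁ S₂ ht hI₁ hI₂ x (by rw [h₁]; trivial)
  have hs₂ : ∀ y : E₂, ∃ x, (x, y) ∈ UU S₁ S₂ ht := fun y => surj₂ S₁ S₂ ht hI₁ hI₂ y (by rw [h₂]; trivial)
  choose f hf using hs₁
  have hu : ∀ {x : E₁} {y : E₂}, (x, y) ∈ UU S₁ S₂ ht → f x = y := fun {x y} h =>
    uniq₁ S₁ S₂ ht hI₁ hI₂ (hf x) h
  let F : E₁ →+* E₂ :=
    { toFun := f
      map_one' := hu (Subring.one_mem _)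
      map_mul' := fun x y => hu (Subring.mul_mem _ (hf x) (hf y))
      map_zero' := hu (Subring.zero_mem _)
      map_add' := fun x y => hu (Subring.add_mem _ (hf x) (hf y)) }
  refine ⟨RingEquiv.ofBijective F ⟨F.injective, fun y => ?_⟩, fun g => ?_⟩
  · obtain ⟨x, hx⟩ := hs₂ y
    exact ⟨x, hu hx⟩
  · exact hu (pr_mem S₁ S₂ ht g)

end SQ.HH
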