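import Pool.Agent.SQ.HH.Two
import Pool.Agent.SQ.HH.Mono
import Pool.Agent.SQ.HH.Uniq
import Pool.Agent.SQ.HH.Steps2
import Pool.Agent.SQ.T3.One

/-!
# SQ: two embeddings in a group (row H4)
-/

set_option autoImplicit false
set_option linter.unusedSectionVars false

open scoped TensorProduct

namespace SQ.HH

open Singer SQ.Acr SQ.T3

section gen
variable {Γ L : Type} [Group Γ] [Group L] (l : L →* Γ)

/-- the exchange of the two factors -/
theorem HV_comm {Y Z : Type} [AddCommGroup Y] [Module (ZMod 2) Y] [AddCommGroup Z] [Module (ZMod 2) Z]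
    (τ : Representation (ZMod 2) L Y) (τ' : Representation (ZMod 2) L Z) (R : FinRes Γ) (j : ℕ)
    (h : HV l (τ.tprod τ') R j) : HV l (τ'.tprod τ) R j := by
  refine HV_equiv l _ _ (TensorProduct.comm (ZMod 2) Y Z) (fun g y => ?_) R j h
  induction y using TensorProduct.induction_on with
  | zero => simp only [map_zero]
  | add x y hx hy => simp only [map_add, hx, hy]
  | tmul x y => rfl

/-- from the skew field generated by the group to a bigger one, in the first factor -/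
theorem HV_coord {E : Type} [DivisionRing E] [Algebra (ZMod 2) E] (ρ : L →* Eˣ) {Z : Type} [AddCommGroup Z]
    [Module (ZMod 2) Z] (τ : Representation (ZMod 2) L Z) (R : FinRes Γ) (j : ℕ)
    (h : HV l ((lmul (sρ ρ)).tprod τ) R j) : HV l ((lmul ρ).tprod τ) R j := by
  classical
  obtain ⟨ι, b, co, -, h2, h3, h4⟩ := Two.exists_coord (cl ρ (⊤ : Subgroup L)) ⊤ le_top
  -- the inclusions and the projections
  let i₀ : ι → (SF ρ →ₗ[ZMod 2] E) := fun w =>
    ((AddMonoidHom.mulRight (b w)).comp (val ρ).toAddMonoidHom).toZModLinearMap 2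
  let p₀ : ι → (E →ₗ[ZMod 2] SF ρ) := fun w => AddMonoidHom.toZModLinearMap 2
    { toFun := fun x => toSF ρ (co w x) (h2 w x)
      map_zero' := val_inj ρ (by rw [val_toSF, map_zero, map_zero])
      map_add' := fun x y => val_inj ρ (by
        refine Eq.trans ?_ ((val ρ).map_add _ _).symm
        exact (co w).map_add x y) }
  have hi₀ : ∀ w x, i₀ w x = val ρ x * b w := fun _ _ => rfl
  have hp₀ : ∀ w x, val ρ (p₀ w x) = co w x := fun _ _ => rfl
  let i₁ : ι → (SF ρ ⊗[ZMod 2] Z →ₗ[ZMod 2] E ⊗[ZMod 2] Z) := fun w => TensorProduct.map (i₀ w) LinearMap.id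
  let p₁ : ι → (E ⊗[ZMod 2] Z →ₗ[ZMod 2] SF ρ ⊗[ZMod 2] Z) := fun w => TensorProduct.map (p₀ w) LinearMap.id
  have hi₁ : ∀ w g z, i₁ w (((lmul (sρ ρ)).tprod τ) g z) = ((lmul ρ).tprod τ) g (i₁ w z) := by
    intro w g z
    induction z using TensorProduct.induction_on with
    | zero => simp only [map_zero]
    | add x y hx hy => simp only [map_add, hx, hy]
    | tmul x y =>
      show (val ρ (((sρ ρ g : (SF ρ)ˣ) : SF ρ) * x) * b w) ⊗ₜ[ZMod 2] τ g y =
        (((ρ g : Eˣ) : E) * (val ρ x * b w)) ⊗ₜ[ZMod 2] τ g y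
      rw [map_mul, val_sρ, mul_assoc]
  have hp₁ : ∀ w g z, p₁ w (((lmul ρ).tprod τ) g z) = ((lmul (sρ ρ)).tprod τ) g (p₁ w z) := by
    intro w g z
    induction z using TensorProduct.induction_on with
    | zero => simp only [map_zero]
    | add x y hx hy => simp only [map_add, hx, hy]
    | tmul x y =>
      show p₀ w (((ρ g : Eˣ) : E) * x) ⊗ₜ[ZMod 2] τ g y = (((sρ ρ g : (SF ρ)ˣ) : SF ρ) * p₀ w x) ⊗ₜ[ZMod 2] τ g y
      congr 1
      refine val_inj ρ ?_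
      rw [hp₀, (val ρ).map_mul, val_sρ, hp₀]
      exact h3 w _ (T3.mem_cl ρ (Subgroup.mem_top g)) x
  refine HV_fam (Ω := ι) (fun _ => l) (fun _ => (lmul (sρ ρ)).tprod τ) l ((lmul ρ).tprod τ) R j
    (fun w α => (i₁ w).lTensor _) (fun w α => (p₁ w).lTensor _)
    (fun w j z => bdl_lT (i₁ w) j z) (fun w j z => bdl_lT (p₁ w) j z)
    (fun w α z hz => Ivl_lT l _ _ (i₁ w) (hi₁ w) α hz) (fun w α z hz => Ivl_lT l _ _ (p₁ w) (hp₁ w) α hz) ?_ fun _ => h
  -- the sum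
  have key : ∀ z : (R.ι (j + 1) → MonoidAlgebra (ZMod 2) Γ) ⊗[ZMod 2] (E ⊗[ZMod 2] Z), ∃ T : Finset ι, ∀ T', T ⊆ T' →
      z = ∑ w ∈ T', (i₁ w).lTensor _ ((p₁ w).lTensor _ z) := by
    intro z
    induction z using TensorProduct.induction_on with
    | zero => exact ⟨∅, fun T' _ => by simp only [map_zero, Finset.sum_const_zero]⟩
    | add x y hx hy =>
      obtain ⟨s, hs⟩ := hx
      obtain ⟨t, ht⟩ := hy
      refine ⟨s ∪ t, fun s' hs' => ?_⟩
      simp only [map_add, Finset.sum_add_distrib]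
      rw [← hs s' (Finset.union_subset_left hs'), ← ht s' (Finset.union_subset_right hs')]
    | tmul p z =>
      induction z using TensorProduct.induction_on with
      | zero => exact ⟨∅, fun T' _ => by simp only [TensorProduct.tmul_zero, map_zero, Finset.sum_const_zero]⟩
      | add x y hx hy =>
        obtain ⟨s, hs⟩ := hx
        obtain ⟨t, ht⟩ := hy
        refine ⟨s ∪ t, fun s' hs' => ?_⟩
        simp only [TensorProduct.tmul_add, map_add, Finset.sum_add_distrib]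
        rw [← hs s' (Finset.union_subset_left hs'), ← ht s' (Finset.union_subset_right hs')]
      | tmul x y =>
        obtain ⟨s, hs⟩ := h4 x trivial
        refine ⟨s, fun s' hs' => ?_⟩
        have h5 : ∀ w, (i₁ w).lTensor (R.ι (j + 1) → MonoidAlgebra (ZMod 2) Γ) ((p₁ w).lTensor _
            (p ⊗ₜ[ZMod 2] (x ⊗ₜ[ZMod 2] y))) = p ⊗ₜ[ZMod 2] ((co w x * b w) ⊗ₜ[ZMod 2] y) := fun w => rfl
        simp only [h5]
        rw [← TensorProduct.tmul_sum, ← TensorProduct.sum_tmul, ← hs s' hs']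
  intro z
  obtain ⟨T, hT⟩ := key z
  refine ⟨T, ?_⟩
  rw [← hT T (Finset.Subset.refl T), sub_self]
  exact zero_mem _

/-- **from the skew fields generated by the group to bigger ones** -/
theorem HV_SF {E₁ E₂ : Type} [DivisionRing E₁] [DivisionRing E₂] [Algebra (ZMod 2) E₁] [Algebra (ZMod 2) E₂]
    (ρ₁ : L →* E₁ˣ) (ρ₂ : L →* E₂ˣ) (R : FinRes Γ) (j : ℕ) (h : HV l ((lmul (sρ ρ₁)).tprod (lmul (sρ ρ₂))) R j) :
    HV l ((lmul ρ₁).tprod (lmul ρ₂)) R j :=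
  HV_comm l _ _ R j (HV_coord l ρ₂ _ R j (HV_comm l _ _ R j (HV_coord l ρ₁ _ R j h)))

/-- transport by isomorphisms of the two skew fields -/
theorem HV_iso {E₁ E₂ F₁ F₂ : Type} [DivisionRing E₁] [DivisionRing E₂] [DivisionRing F₁] [DivisionRing F₂]
    [Algebra (ZMod 2) E₁] [Algebra (ZMod 2) E₂] [Algebra (ZMod 2) F₁] [Algebra (ZMod 2) F₂]
    (ρ₁ : L →* E₁ˣ) (ρ₂ : L →* E₂ˣ) (σ₁ : L →* F₁ˣ) (σ₂ : L →* F₂ˣ) (φ₁ : E₁ ≃+* F₁) (φ₂ : E₂ ≃+* F₂)
    (h₁ : ∀ g, φ₁ ((ρ₁ g : E₁ˣ) : E₁) = ((σ₁ g : F₁ˣ) : F₁)) (h₂ : ∀ g, φ₂ ((ρ₂ g : E₂ˣ) : E₂) = ((σ₂ g : F₂ˣ) : F₂))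
    (R : FinRes Γ) (j : ℕ) (h : HV l ((lmul σ₁).tprod (lmul σ₂)) R j) : HV l ((lmul ρ₁).tprod (lmul ρ₂)) R j := by
  let e₁ : F₁ ≃ₗ[ZMod 2] E₁ :=
    { (φ₁.symm.toAddMonoidHom.toZModLinearMap 2 : F₁ →ₗ[ZMod 2] E₁) with
      invFun := φ₁
      left_inv := fun x => φ₁.apply_symm_apply x
      right_inv := fun x => φ₁.symm_apply_apply x }
  let e₂ : F₂ ≃ₗ[ZMod 2] E₂ :=
    { (φ₂.symm.toAddMonoidHom.toZModLinearMap 2 : F₂ →ₗ[ZMod 2] E₂) with
      invFun := φ₂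
      left_inv := fun x => φ₂.apply_symm_apply x
      right_inv := fun x => φ₂.symm_apply_apply x }
  refine HV_equiv l _ _ (TensorProduct.congr e₁ e₂) (fun g z => ?_) R j h
  induction z using TensorProduct.induction_on with
  | zero => simp only [map_zero]
  | add x y hx hy => simp only [map_add, hx, hy]
  | tmul x y =>
    show (φ₁.symm (((σ₁ g : F₁ˣ) : F₁) * x)) ⊗ₜ[ZMod 2] (φ₂.symm (((σ₂ g : F₂ˣ) : F₂) * y)) =
      (((ρ₁ g : E₁ˣ) : E₁) * φ₁.symm x) ⊗ₜ[ZMod 2] (((ρ₂ g : E₂ˣ) : E₂) * φ₂.symm y)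
    rw [map_mul, map_mul, ← h₁, ← h₂, φ₁.symm_apply_apply, φ₂.symm_apply_apply]

end gen

/-- levels restricted to a group -/
theorem level_comap {K L : Type} [Group K] [Group L] {D : Type} [DivisionRing D] {ρ : K →* Dˣ} {N : Subgroup K}
    (a : L →* K) (h : Nonempty (Level K D ρ N)) : Nonempty (Level L D (ρ.comp a) (N.comap a)) := by
  obtain ⟨T⟩ := h
  let _ : MulAction L T.Om := MulAction.compHom T.Om a
  refine ⟨{ Om := T.Om, mono := fun g x y => T.mono (a g) x y, free := fun g x h => T.free (a g) x h, v := T.v,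
            v_add := T.v_add, v_act := fun g x hx => T.v_act (a g) x hx, v_sub := fun c hc => T.v_sub c ?_ }⟩
  refine Subfield.closure_mono ?_ hc
  rintro _ ⟨g, hg, rfl⟩
  exact ⟨a g, hg, rfl⟩

/-- **row H4** -/
theorem pair : StmtPair := by
  intro K _ C D _ _ ρ hρ L _ a b ha hb E _ _ _ σ hs hEa hEb Γ _ l hl R j
  -- the involution
  let _ : StarRing (SF σ) := starSF σ hs
  -- uniqueness
  have key : ∀ (c : L →* K) (hc : Function.Injective c), (∀ j, Nonempty (Level L E σ ((C.N j).comap c))) →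
      ∃ (S : Steps (resC C c hc) (sρ σ)) (φ : SF (ρ.comp c) ≃+* SF σ),
        ∀ g, φ ((sρ (ρ.comp c) g : (SF (ρ.comp c))ˣ) : SF (ρ.comp c)) = ((sρ σ g : (SF σ)ˣ) : SF σ) := by
    intro c hc hE
    obtain ⟨t, ht⟩ := s_steps2 stmtStep L (resC C c hc)
    have hL₁ : ∀ j, Nonempty (Level L (SF (ρ.comp c)) (sρ (ρ.comp c)) ((resC C c hc).N j)) := fun j =>
      level_sub (ρ.comp c) _ (level_comap c (hρ j))
    have hL₂ : ∀ j, Nonempty (Level L (SF σ) (sρ σ) ((resC C c hc).N j)) := fun j => level_sub σ _ (hE j)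
    obtain ⟨S₁, hS₁⟩ := ht (SF (ρ.comp c)) (sρ (ρ.comp c)) hL₁
    obtain ⟨S₂, hS₂⟩ := ht (SF σ) (sρ σ) hL₂
    have h0 : (resC C c hc).N 0 = ⊤ := (resC C c hc).zero
    obtain ⟨φ, hφ⟩ := uniq L (resC C c hc) (SF (ρ.comp c)) (SF σ) (sρ (ρ.comp c)) (sρ σ)
      (by rw [h0]; exact cl_top _) (by rw [h0]; exact cl_top _) (s_ind L (resC C c hc) _ _ hL₁)
      (s_ind L (resC C c hc) _ _ hL₂) S₁ S₂ (hS₁.trans hS₂.symm)
    exact ⟨S₂, φ, hφ⟩
  obtain ⟨Sa, φa, hφa⟩ := key a ha hEa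
  obtain ⟨-, φb, hφb⟩ := key b hb hEb
  have h0 : (resC C a ha).N 0 = ⊤ := (resC C a ha).zero
  have h1 : HV l (diag (sρ σ)) R j := torG Γ L l hl (resC C a ha) (SF σ) (sρ σ) (star_sρ σ hs)
    (by rw [h0]; exact cl_top _) (s_ind L (resC C a ha) _ _ fun j => level_sub σ _ (hEa j)) Sa
    (good L (resC C a ha) (SF σ) (sρ σ) Sa) R j
  exact HV_SF l (ρ.comp a) (ρ.comp b) R j (HV_iso l _ _ (sρ σ) (sρ σ) φa φb hφa hφb R j h1)

end SQ.HH
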