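import Pool.Agent.SQ.HH.Asm
import Pool.Agent.SQ.HH.Pair
import Pool.Agent.SQ.HH.Joint
import Pool.Agent.SQ.HH.Cmp

/-!
# SQ: subgroups of Poincare duality groups (Theorem H)
-/

set_option autoImplicit false

namespace SQ.HH

open Singer SQ.T3

theorem vanE_sub_of_noInv (hN : StmtNoInv) {Γ : Type} [Group Γ] {n : ℕ} (hn : IsPD n Γ) (K : Subgroup Γ)
    (hK : T2.ResUT K ⊥) (R : FinRes K) (i : ℕ) (hi : n < 2 * i) : R.VanE i :=
  vanE_sub_of stmtJoint pair mackey shapiro hv_iff_exH cmp hN lem hn K hK R i hi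

end SQ.HH
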