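import Pool.Agent.SQ.HH.TwoC
import Pool.Agent.SQ.BO.Fam

/-!
# SQ: the start of the induction and the induction from a subgroup, for two skew fields and a resolution of a bigger group
-/

set_option autoImplicit false
set_option linter.unusedSectionVars false

open scoped TensorProduct

namespace SQ.HH.Two

open Singer SQ.Acr SQ.T3 SQ.T3.Tor

section nu
variable {Γ K : Type} [Group Γ] [Group K] (l : K →* Γ) {E₁ E₂ : Type} [DivisionRing E₁] [DivisionRing E₂]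
  [Algebra (ZMod 2) E₁] [Algebra (ZMod 2) E₂] (ρ₁ : K →* E₁ˣ) (ρ₂ : K →* E₂ˣ)

open Classical in
/-- the action of the elements of `l N`, zero outside -/
noncomputable def pt (N : Subgroup K) (u : Γ) : E₁ ⊗[ZMod 2] E₂ →ₗ[ZMod 2] E₁ ⊗[ZMod 2] E₂ :=
  if h : ∃ g ∈ N, l g = u then ten ρ₁ ρ₂ h.choose else 0

lemma pt_l (hl : Function.Injective l) {N : Subgroup K} {g : K} (hg : g ∈ N) : pt l ρ₁ ρ₂ N (l g) = ten ρ₁ ρ₂ g := by
  have h : ∃ g' ∈ N, l g' = l g := ⟨g, hg, rfl⟩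
  rw [pt, dif_pos h]
  exact congrArg _ (hl h.choose_spec.2)

lemma pt_no {N : Subgroup K} {u : Γ} (h : ¬ ∃ g ∈ N, l g = u) : pt l ρ₁ ρ₂ N u = 0 := by
  rw [pt, dif_neg h]

lemma pt_mul (hl : Function.Injective l) {N : Subgroup K} (u : Γ) {g : K} (hg : g ∈ N) (z : E₁ ⊗[ZMod 2] E₂) :
    pt l ρ₁ ρ₂ N (u * (l g)⁻¹) (ten ρ₁ ρ₂ g z) = pt l ρ₁ ρ₂ N u z := by
  by_cases h : ∃ g' ∈ N, l g' = u
  · obtain ⟨g', hg', rfl⟩ := h
    rw [pt_l l ρ₁ ρ₂ hl hg', ← map_inv, ← map_mul, pt_l l ρ₁ ρ₂ hl (N.mul_mem hg' (N.inv_mem hg)),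
      ← Module.End.mul_apply, ← map_mul, inv_mul_cancel_right]
  · rw [pt_no l ρ₁ ρ₂ h, pt_no]
    · rfl
    · rintro ⟨g', hg', h2⟩
      exact h ⟨g' * g, N.mul_mem hg' hg, by rw [map_mul, h2, inv_mul_cancel_right]⟩

/-- the coordinates of a chain modulo the action of `N` -/
noncomputable def nu (N : Subgroup K) (α : Type) (k : Γ) (b : α) : Tc Γ E₁ E₂ α →ₗ[ZMod 2] E₁ ⊗[ZMod 2] E₂ :=
  TensorProduct.lift (LinearMap.mk₂ (ZMod 2)
    (fun p z => (p b).coeff.sum fun h c => c • pt l ρ₁ ρ₂ N (k * h⁻¹) z)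
    (fun p p' z => by
      rw [Pi.add_apply, MonoidAlgebra.coeff_add, Finsupp.sum_add_index']
      · intro h; rw [zero_smul]
      · intro h c c'; rw [add_smul])
    (fun c p z => by
      rw [Pi.smul_apply, MonoidAlgebra.coeff_smul, Finsupp.sum_smul_index' (by intro h; rw [zero_smul]),
        Finsupp.smul_sum]
      refine Finsupp.sum_congr fun h _ => ?_
      rw [smul_assoc])
    (fun p z z' => by
      rw [← Finsupp.sum_add]
      refine Finsupp.sum_congr fun h _ => ?_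
      rw [map_add, smul_add])
    (fun c p z => by
      rw [Finsupp.smul_sum]
      refine Finsupp.sum_congr fun h _ => ?_
      rw [map_smul, smul_comm]))

open Classical in
lemma nu_bas (N : Subgroup K) {α : Type} (k : Γ) (b a : α) (h : Γ) (z : E₁ ⊗[ZMod 2] E₂) :
    nu l ρ₁ ρ₂ N α k b (bas a h ⊗ₜ[ZMod 2] z) = if b = a then pt l ρ₁ ρ₂ N (k * h⁻¹) z else 0 := by
  rw [nu, TensorProduct.lift.tmul, LinearMap.mk₂_apply, bas]
  by_cases hb : b = a
  · subst hb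
    rw [Pi.single_eq_same, MonoidAlgebra.coeff_single, Finsupp.sum_single_index (by rw [zero_smul]), one_smul, if_pos rfl]
  · rw [Pi.single_eq_of_ne hb, MonoidAlgebra.coeff_zero, Finsupp.sum_zero_index, if_neg hb]

open Classical in
lemma sg_bas2 {α : Type} (g : K) (a : α) (h : Γ) (z : E₁ ⊗[ZMod 2] E₂) :
    sg l ρ₁ ρ₂ α g (bas a h ⊗ₜ[ZMod 2] z) = bas a (l g * h) ⊗ₜ[ZMod 2] ten ρ₁ ρ₂ g z := by
  rw [sg, Representation.tprod_apply, TensorProduct.map_tmul]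
  congr 1
  exact lam_bas (l g) a h

lemma nu_sg (hl : Function.Injective l) (N : Subgroup K) {α : Type} [Fintype α] (k : Γ) (b : α) {g : K} (hg : g ∈ N)
    (z : Tc Γ E₁ E₂ α) : nu l ρ₁ ρ₂ N α k b (sg l ρ₁ ρ₂ α g z) = nu l ρ₁ ρ₂ N α k b z := by
  classical
  refine ind_ten (p := fun z => nu l ρ₁ ρ₂ N α k b (sg l ρ₁ ρ₂ α g z) = nu l ρ₁ ρ₂ N α k b z) (by simp)
    (fun x y hx hy => by simp only [map_add, hx, hy]) (fun a h y => ?_) z
  rw [sg_bas2, nu_bas, nu_bas, mul_inv_rev, ← mul_assoc, pt_mul l ρ₁ ρ₂ hl _ hg]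

lemma nu_Iv (hl : Function.Injective l) (N : Subgroup K) {α : Type} [Fintype α] (k : Γ) (b : α) {z : Tc Γ E₁ E₂ α}
    (hz : z ∈ Iv l ρ₁ ρ₂ α N) : nu l ρ₁ ρ₂ N α k b z = 0 := by
  have h1 : nu l ρ₁ ρ₂ N α k b z ∈ (⊥ : Submodule (ZMod 2) (E₁ ⊗[ZMod 2] E₂)) := by
    refine Iv.map l ρ₁ ρ₂ _ _ (fun g hg x hx => ?_) hz
    rw [nu_sg l ρ₁ ρ₂ hl N k b hg, sub_self]
    exact zero_mem _
  exact h1

/-- induction on chains -/
theorem Ch.ind {α : Type} [Fintype α] [DecidableEq α] {A : Set E₁} {B : Set E₂} {p : Tc Γ E₁ E₂ α → Prop}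
    (h0 : p 0) (ha : ∀ x y, p x → p y → p (x + y))
    (hb : ∀ a h, ∀ x ∈ A, ∀ y ∈ B, p (bas a h ⊗ₜ[ZMod 2] (x ⊗ₜ[ZMod 2] y))) {z : Tc Γ E₁ E₂ α} (hz : z ∈ Ch Γ α A B) :
    p z := by
  refine Submodule.span_induction (p := fun z _ => p z) ?_ h0 (fun x y _ _ hx hy => ha x y hx hy) (fun c x _ hx => ?_) hz
  · rintro _ ⟨q, x, hx, y, hy, rfl⟩
    refine ind_bas (p := fun q => p (q ⊗ₜ[ZMod 2] (x ⊗ₜ[ZMod 2] y))) ?_ ?_ ?_ q
    · rw [TensorProduct.zero_tmul]; exact h0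
    · intro q q' hq hq'
      rw [TensorProduct.add_tmul]; exact ha _ _ hq hq'
    · intro a h
      exact hb a h x hx y hy
  · fin_cases c
    · show p ((0 : ZMod 2) • x)
      rw [zero_smul]; exact h0
    · show p ((1 : ZMod 2) • x)
      rw [one_smul]; exact hx

/-- a chain with zero coordinates is a sum of differences -/
theorem Iv_of_nu (hl : Function.Injective l) (N : Subgroup K) {α : Type} [Fintype α] {z : Tc Γ E₁ E₂ α}
    (hz : z ∈ Ch Γ α (cl ρ₁ N : Set E₁) (cl ρ₂ N : Set E₂)) (h : ∀ k b, nu l ρ₁ ρ₂ N α k b z = 0) :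
    z ∈ Iv l ρ₁ ρ₂ α N := by
  classical
  let S : Subgroup Γ := N.map l
  let r : Γ → Γ := fun h => (Quotient.mk (QuotientGroup.rightRel S) h).out
  have hr1 : ∀ h, r h * h⁻¹ ∈ S := by
    intro h
    have h1 : QuotientGroup.rightRel S (r h) h := Quotient.mk_out (s := QuotientGroup.rightRel S) h
    exact QuotientGroup.rightRel_apply.1 ((QuotientGroup.rightRel S).symm' h1)
  have hr2 : ∀ h k, k * h⁻¹ ∈ S → r k = r h := by
    intro h k hk
    have h1 : (Quotient.mk (QuotientGroup.rightRel S) k) = Quotient.mk (QuotientGroup.rightRel S) h :=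
      Quotient.sound (s := QuotientGroup.rightRel S) (by
        have h2 : QuotientGroup.rightRel S h k := QuotientGroup.rightRel_apply.2 hk
        exact (QuotientGroup.rightRel S).symm' h2)
    show (Quotient.mk (QuotientGroup.rightRel S) k).out = (Quotient.mk (QuotientGroup.rightRel S) h).out
    rw [h1]
  have key : ∃ F : Finset Γ, ∀ F', F ⊆ F' →
      z - ∑ b : α, ∑ k ∈ F', (if r k = k then bas b k ⊗ₜ[ZMod 2] nu l ρ₁ ρ₂ N α k b z else 0) ∈ Iv l ρ₁ ρ₂ α N := by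
    refine Ch.ind (p := fun z => ∃ F : Finset Γ, ∀ F', F ⊆ F' →
      z - ∑ b : α, ∑ k ∈ F', (if r k = k then bas b k ⊗ₜ[ZMod 2] nu l ρ₁ ρ₂ N α k b z else 0) ∈ Iv l ρ₁ ρ₂ α N)
      ?_ ?_ ?_ hz
    · refine ⟨∅, fun F' _ => ?_⟩
      simp only [map_zero, TensorProduct.tmul_zero, ite_self, Finset.sum_const_zero, sub_zero]
      exact zero_mem _
    · rintro x y ⟨F₁, h₁⟩ ⟨F₂, h₂⟩
      refine ⟨F₁ ∪ F₂, fun F' hF' => ?_⟩
      have h3 := add_mem (h₁ F' (Finset.union_subset_left hF')) (h₂ F' (Finset.union_subset_right hF'))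
      have h4 : (∑ b : α, ∑ k ∈ F', (if r k = k then bas b k ⊗ₜ[ZMod 2] nu l ρ₁ ρ₂ N α k b (x + y) else 0)) =
          (∑ b : α, ∑ k ∈ F', (if r k = k then bas b k ⊗ₜ[ZMod 2] nu l ρ₁ ρ₂ N α k b x else 0)) +
          ∑ b : α, ∑ k ∈ F', (if r k = k then bas b k ⊗ₜ[ZMod 2] nu l ρ₁ ρ₂ N α k b y else 0) := by
        rw [← Finset.sum_add_distrib]
        refine Finset.sum_congr rfl fun b _ => ?_
        rw [← Finset.sum_add_distrib]
        refine Finset.sum_congr rfl fun k _ => ?_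
        split_ifs
        · rw [map_add, TensorProduct.tmul_add]
        · rw [add_zero]
      rw [h4]
      rwa [sub_add_sub_comm] at h3
    · intro a h x hx y hy
      refine ⟨{r h}, fun F' hF' => ?_⟩
      have hrF : r h ∈ F' := hF' (Finset.mem_singleton_self _)
      obtain ⟨g, hg, hgh⟩ := hr1 h
      have hgh' : l g * h = r h := by rw [hgh, inv_mul_cancel_right]
      have h4 : (∑ b : α, ∑ k ∈ F', (if r k = k then
          bas b k ⊗ₜ[ZMod 2] nu l ρ₁ ρ₂ N α k b (bas a h ⊗ₜ[ZMod 2] (x ⊗ₜ[ZMod 2] y)) else 0)) =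
          sg l ρ₁ ρ₂ α g (bas a h ⊗ₜ[ZMod 2] (x ⊗ₜ[ZMod 2] y)) := by
        rw [Finset.sum_eq_single a]
        · rw [Finset.sum_eq_single (r h)]
          · have h5 : r (r h) = r h := hr2 h (r h) (hr1 h)
            rw [if_pos h5, nu_bas, if_pos rfl, sg_bas2, hgh', ← hgh, pt_l l ρ₁ ρ₂ hl hg]
          · intro k _ hk
            split_ifs with h5
            · rw [nu_bas, if_pos rfl, pt_no, LinearMap.zero_apply, TensorProduct.tmul_zero]
              rintro ⟨g', hg', h6⟩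
              exact hk (by rw [← h5, hr2 h k ⟨g', hg', h6⟩])
            · rfl
          · intro h5; exact absurd hrF h5
        · intro b _ hb
          refine Finset.sum_eq_zero fun k _ => ?_
          split_ifs
          · rw [nu_bas, if_neg hb, TensorProduct.tmul_zero]
          · rfl
        · intro h5; exact absurd (Finset.mem_univ _) h5
      rw [h4, ← neg_sub]
      exact neg_mem (Iv.mk l ρ₁ ρ₂ hg (Ch.mk _ hx hy))
  obtain ⟨F, hF⟩ := key
  have h1 := hF F (Finset.Subset.refl F)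
  simp only [h, TensorProduct.tmul_zero, ite_self, Finset.sum_const_zero, sub_zero] at h1
  exact h1

end nu

end SQ.HH.Two
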