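import Pool.Agent.SQ.HH.TwoD

/-!
# SQ: the start of the induction and the induction from a subgroup (continued)
-/

set_option autoImplicit false
set_option linter.unusedSectionVars false

open scoped TensorProduct

namespace SQ.HH.Two

open Singer SQ.Acr SQ.T3 SQ.T3.Tor

section start
variable {Γ K : Type} [Group Γ] [Group K] (l : K →* Γ) {E₁ E₂ : Type} [DivisionRing E₁] [DivisionRing E₂]
  [Algebra (ZMod 2) E₁] [Algebra (ZMod 2) E₂] (ρ₁ : K →* E₁ˣ) (ρ₂ : K →* E₂ˣ)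

/-- contraction of the first factor -/
noncomputable def con (f : E₁ →ₗ[ZMod 2] ZMod 2) : E₁ ⊗[ZMod 2] E₂ →ₗ[ZMod 2] E₂ :=
  (TensorProduct.lid (ZMod 2) E₂).toLinearMap ∘ₗ TensorProduct.map f LinearMap.id

lemma con_tmul (f : E₁ →ₗ[ZMod 2] ZMod 2) (x : E₁) (y : E₂) : con f (x ⊗ₜ[ZMod 2] y) = f x • y := by
  rw [con, LinearMap.comp_apply, TensorProduct.map_tmul, LinearEquiv.coe_coe, TensorProduct.lid_tmul, LinearMap.id_apply]

/-- the insertion of `1` -/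
noncomputable def in1 (Γ E₁ E₂ : Type) [Group Γ] [DivisionRing E₁] [DivisionRing E₂] [Algebra (ZMod 2) E₁]
    [Algebra (ZMod 2) E₂] (α : Type) : (α → MonoidAlgebra (ZMod 2) Γ) ⊗[ZMod 2] E₂ →ₗ[ZMod 2] Tc Γ E₁ E₂ α :=
  (TensorProduct.mk (ZMod 2) E₁ E₂ 1).lTensor _

lemma in1_tmul {α : Type} (p : α → MonoidAlgebra (ZMod 2) Γ) (y : E₂) :
    in1 Γ E₁ E₂ α (p ⊗ₜ[ZMod 2] y) = p ⊗ₜ[ZMod 2] ((1 : E₁) ⊗ₜ[ZMod 2] y) := rfl

open Classical in
lemma nu_in1 (hl : Function.Injective l) {f : E₁ →ₗ[ZMod 2] ZMod 2}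
    (hf : ∀ g : K, f ((ρ₁ g : E₁ˣ) : E₁) = if g = 1 then 1 else 0) (N : Subgroup K) {α : Type} [Fintype α] (k : Γ) (b : α)
    (m : (α → MonoidAlgebra (ZMod 2) Γ) ⊗[ZMod 2] E₂) :
    con f (nu l ρ₁ ρ₂ N α k b (in1 Γ E₁ E₂ α m)) = tw (Representation.trivial (ZMod 2) Γ E₂) α m k b := by
  refine ind_ten (p := fun m => con f (nu l ρ₁ ρ₂ N α k b (in1 Γ E₁ E₂ α m)) =
    tw (Representation.trivial (ZMod 2) Γ E₂) α m k b) (by simp)
    (fun x y hx hy => by rw [map_add, map_add, map_add, hx, hy, map_add]; rfl) (fun a h y => ?_) m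
  rw [in1_tmul, nu_bas, tw_bas]
  show _ = (Finsupp.single h (Pi.single a y : α → E₂)) k b
  by_cases hb : b = a
  · subst hb
    rw [if_pos rfl]
    by_cases hk : k = h
    · subst hk
      rw [mul_inv_cancel, ← map_one l, pt_l l ρ₁ ρ₂ hl N.one_mem, map_one (ten ρ₁ ρ₂), Module.End.one_apply, con_tmul,
        Finsupp.single_eq_same, Pi.single_eq_same]
      have h1 := hf 1
      rw [map_one, Units.val_one, if_pos rfl] at h1
      rw [h1, one_smul]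
    · rw [Finsupp.single_eq_of_ne hk]
      by_cases hg : ∃ g ∈ N, l g = k * h⁻¹
      · obtain ⟨g, hg, hgh⟩ := hg
        have hg1 : g⁻¹ ≠ 1 := by
          intro h1
          rw [inv_eq_one.1 h1, map_one] at hgh
          exact hk (mul_inv_eq_one.1 hgh.symm)
        rw [← hgh, pt_l l ρ₁ ρ₂ hl hg, ten_tmul, con_tmul, one_mul, hf, if_neg hg1, zero_smul]
        rfl
      · rw [pt_no l ρ₁ ρ₂ hg, LinearMap.zero_apply, map_zero]
        rfl
  · rw [if_neg hb, map_zero]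
    by_cases hk : k = h
    · subst hk
      rw [Finsupp.single_eq_same, Pi.single_eq_of_ne hb]
    · rw [Finsupp.single_eq_of_ne hk]
      rfl

lemma in1_d {α β : Type} [Fintype α] (P : Matrix α β (MonoidAlgebra ℤ Γ))
    (m : (α → MonoidAlgebra (ZMod 2) Γ) ⊗[ZMod 2] E₂) :
    (dd P).rTensor (E₁ ⊗[ZMod 2] E₂) (in1 Γ E₁ E₂ α m) = in1 Γ E₁ E₂ β ((dd P).rTensor E₂ m) := by
  induction m using TensorProduct.induction_on with
  | zero => simp only [map_zero]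
  | add x y hx hy => rw [map_add, map_add, hx, hy, map_add, map_add]
  | tmul p y => rfl

lemma in1_mem {α : Type} {B : Set E₂} (f : E₂ →ₗ[ZMod 2] E₂) (hf : ∀ y, f y ∈ B) {A : Set E₁} (hA : (1 : E₁) ∈ A)
    (m : (α → MonoidAlgebra (ZMod 2) Γ) ⊗[ZMod 2] E₂) : in1 Γ E₁ E₂ α (f.lTensor _ m) ∈ Ch Γ α A B := by
  induction m using TensorProduct.induction_on with
  | zero => simp only [map_zero, zero_mem]
  | add x y hx hy => rw [map_add, map_add]; exact add_mem hx hy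
  | tmul p y =>
    rw [LinearMap.lTensor_tmul, in1_tmul]
    exact Ch.mk p hA (hf y)

/-- the start of the induction -/
theorem Va_zero (hl : Function.Injective l) (R : FinRes Γ) (h : LinearIndependent (ZMod 2) fun g : K => ((ρ₁ g : E₁ˣ) : E₁))
    (N : Subgroup K) :
    Va l ρ₁ ρ₂ R N (AddSubgroup.closure ((fun g : K => ((ρ₁ g : E₁ˣ) : E₁)) '' (N : Set K)) : Set E₁) := by
  classical
  intro q c hc hd
  obtain ⟨f, hf⟩ := T3.Tor.exists_fun ρ₁ h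
  -- the retraction
  let L : Submodule (ZMod 2) E₂ :=
    { carrier := cl ρ₂ N
      add_mem' := fun ha hb => (cl ρ₂ N).add_mem ha hb
      zero_mem' := (cl ρ₂ N).zero_mem
      smul_mem' := by
        intro c x hx
        fin_cases c
        · show (0 : ZMod 2) • x ∈ cl ρ₂ N
          rw [zero_smul]; exact (cl ρ₂ N).zero_mem
        · show (1 : ZMod 2) • x ∈ cl ρ₂ N
          rw [one_smul]; exact hx }
  obtain ⟨π, hπ⟩ := LinearMap.exists_leftInverse_of_injective L.subtype (LinearMap.ker_eq_bot.2 L.subtype_injective)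
  -- the chains of the form `p ⊗ y`
  let T : ∀ α : Type, Submodule (ZMod 2) ((α → MonoidAlgebra (ZMod 2) Γ) ⊗[ZMod 2] E₂) := fun α =>
    Submodule.span (ZMod 2) {z | ∃ p : α → MonoidAlgebra (ZMod 2) Γ, ∃ y ∈ cl ρ₂ N, z = p ⊗ₜ[ZMod 2] y}
  have hT1 : c ∈ Submodule.map (in1 Γ E₁ E₂ (R.ι (q + 1))) (T (R.ι (q + 1))) ⊔ Iv l ρ₁ ρ₂ (R.ι (q + 1)) N := by
    refine Ch.map LinearMap.id _ (fun p x hx y hy => ?_) hc
    rw [LinearMap.id_apply]
    refine AddSubgroup.closure_induction (p := fun x _ => p ⊗ₜ[ZMod 2] (x ⊗ₜ[ZMod 2] y) ∈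
      Submodule.map (in1 Γ E₁ E₂ (R.ι (q + 1))) (T (R.ι (q + 1))) ⊔ Iv l ρ₁ ρ₂ (R.ι (q + 1)) N) ?_ ?_ ?_ ?_ hx
    · rintro _ ⟨g, hg, rfl⟩
      have h1 : sg l ρ₁ ρ₂ (R.ι (q + 1)) g (p ⊗ₜ[ZMod 2] (((ρ₁ g : E₁ˣ) : E₁) ⊗ₜ[ZMod 2] y)) =
          in1 Γ E₁ E₂ (R.ι (q + 1)) (Acr.lam (R.ι (q + 1)) (l g) p ⊗ₜ[ZMod 2] (((ρ₂ g : E₂ˣ) : E₂) * y)) := by
        rw [sg_tmul, in1_tmul, ← Units.val_mul, ← map_mul, mul_inv_cancel, map_one, Units.val_one]
      have h2 := Iv.mk l ρ₁ ρ₂ hg (Ch.mk (α := R.ι (q + 1)) p (T3.mem_cl ρ₁ hg) hy)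
      have h3 : p ⊗ₜ[ZMod 2] (((ρ₁ g : E₁ˣ) : E₁) ⊗ₜ[ZMod 2] y) =
          in1 Γ E₁ E₂ (R.ι (q + 1)) (Acr.lam (R.ι (q + 1)) (l g) p ⊗ₜ[ZMod 2] (((ρ₂ g : E₂ˣ) : E₂) * y)) -
          (sg l ρ₁ ρ₂ (R.ι (q + 1)) g (p ⊗ₜ[ZMod 2] (((ρ₁ g : E₁ˣ) : E₁) ⊗ₜ[ZMod 2] y)) -
            p ⊗ₜ[ZMod 2] (((ρ₁ g : E₁ˣ) : E₁) ⊗ₜ[ZMod 2] y)) := by
        rw [h1, sub_sub_cancel]
      show p ⊗ₜ[ZMod 2] (((ρ₁ g : E₁ˣ) : E₁) ⊗ₜ[ZMod 2] y) ∈ _
      rw [h3]
      refine sub_mem (Submodule.mem_sup_left ⟨_, Submodule.subset_span ⟨_, _, ?_, rfl⟩, rfl⟩) (Submodule.mem_sup_right h2)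
      exact (cl ρ₂ N).mul_mem (T3.mem_cl ρ₂ hg) hy
    · rw [TensorProduct.zero_tmul, TensorProduct.tmul_zero]; exact zero_mem _
    · intro a b _ _ ha hb
      rw [TensorProduct.add_tmul, TensorProduct.tmul_add]; exact add_mem ha hb
    · intro a _ ha
      rw [TensorProduct.neg_tmul, TensorProduct.tmul_neg]; exact neg_mem ha
  obtain ⟨_, ⟨m, hm, rfl⟩, i, hi, rfl⟩ := Submodule.mem_sup.1 hT1
  -- the chain is a cycle
  have hcyc : (dd (R.d q)).rTensor E₂ m = 0 := by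
    have h1 : bd R q (in1 Γ E₁ E₂ (R.ι (q + 1)) m) = in1 Γ E₁ E₂ (R.ι q) ((dd (R.d q)).rTensor E₂ m) := in1_d (R.d q) m
    have h2 : in1 Γ E₁ E₂ (R.ι q) ((dd (R.d q)).rTensor E₂ m) ∈ Iv l ρ₁ ρ₂ (R.ι q) N := by
      rw [← h1]
      have h3 := sub_mem hd (Iv.d l ρ₁ ρ₂ (R.d q) hi)
      rwa [map_add, add_sub_cancel_right] at h3
    have h3 : tw (Representation.trivial (ZMod 2) Γ E₂) (R.ι q) ((dd (R.d q)).rTensor E₂ m) = 0 := by
      apply Finsupp.ext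
      intro k
      funext b
      rw [← nu_in1 l ρ₁ ρ₂ hl hf N k b, nu_Iv l ρ₁ ρ₂ hl N k b h2, map_zero]
      rfl
    rw [← ut_tw (Representation.trivial (ZMod 2) Γ E₂) ((dd (R.d q)).rTensor E₂ m), h3, map_zero]
  obtain ⟨n, hn⟩ := (Module.Flat.rTensor_exact E₂ (ex_succ R q) m).1 hcyc
  -- the retraction of `n`
  let pr : E₂ →ₗ[ZMod 2] E₂ := L.subtype ∘ₗ π
  have hpr : ∀ x ∈ cl ρ₂ N, pr x = x := by
    intro x hx
    have h1 := LinearMap.congr_fun hπ ⟨x, hx⟩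
    exact congrArg Subtype.val h1
  have hprm : pr.lTensor _ m = m := by
    refine Submodule.span_induction (p := fun m _ => pr.lTensor _ m = m) ?_ (map_zero _) (fun x y _ _ hx hy => by
      rw [map_add, hx, hy]) (fun c x _ hx => by rw [map_smul, hx]) hm
    rintro _ ⟨p, y, hy, rfl⟩
    rw [LinearMap.lTensor_tmul, hpr y hy]
  have hfin : bd R (q + 1) (in1 Γ E₁ E₂ (R.ι (q + 2)) (pr.lTensor _ n)) = in1 Γ E₁ E₂ (R.ι (q + 1)) m := by
    rw [← hprm, ← hn]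
    refine (in1_d (R.d (q + 1)) _).trans ?_
    rw [T3.Tor.lT_rT]
  rw [← hfin]
  exact add_mem (Bv.of_d l ρ₁ ρ₂ R (in1_mem pr (fun y => (π y).2) (one_mem (cl ρ₁ N)) n)) (Iv.le_Bv l ρ₁ ρ₂ R N _ hi)

end start

/-! ### reductions -/

section red
variable {Γ K : Type} [Group Γ] [Group K] (l : K →* Γ) {E₁ E₂ : Type} [DivisionRing E₁] [DivisionRing E₂]
  [Algebra (ZMod 2) E₁] [Algebra (ZMod 2) E₂] (ρ₁ : K →* E₁ˣ) (ρ₂ : K →* E₂ˣ) (R : FinRes Γ)

lemma Va.mono {N : Subgroup K} {G G' : Set E₁} (h : G' ⊆ G) (hV : Va l ρ₁ ρ₂ R N G) : Va l ρ₁ ρ₂ R N G' :=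
  fun q c hc hd => hV q c (Ch.mono h (fun _ hy => hy) hc) hd

/-- it is enough to consider finite sets -/
lemma Va_of_fin {N : Subgroup K} {G : Set E₁} (h : ∀ G' : Set E₁, G'.Finite → G' ⊆ G → Va l ρ₁ ρ₂ R N G') :
    Va l ρ₁ ρ₂ R N G := by
  intro q c hc hd
  obtain ⟨X, Y, hX, hY, hXY⟩ := Ch.fin hc
  exact h (X : Set E₁) X.finite_toSet hX q c (Ch.mono (fun _ hx => hx) (fun y hy => hY y hy) hXY) hd

end red

/-! ### induction from a subgroup -/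

section coord
variable {E : Type} [DivisionRing E]

/-- coordinates over a smaller skew field -/
theorem exists_coord (F L : Subfield E) (hFL : F ≤ L) : ∃ (ι : Type) (b : ι → E) (co : ι → (E →+ E)), (∀ i, b i ∈ L) ∧
    (∀ i y, co i y ∈ F) ∧ (∀ i, ∀ f ∈ F, ∀ y, co i (f * y) = f * co i y) ∧
    ∀ y ∈ L, ∃ s : Finset ι, ∀ s', s ⊆ s' → y = ∑ i ∈ s', co i y * b i := by
  classical
  let M : Submodule F E :=
    { carrier := L
      add_mem' := fun ha hb => L.add_mem ha hb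
      zero_mem' := L.zero_mem
      smul_mem' := fun c x hx => L.mul_mem (hFL c.2) hx }
  obtain ⟨P, hP⟩ := LinearMap.exists_leftInverse_of_injective M.subtype (LinearMap.ker_eq_bot.2 M.subtype_injective)
  let B := Module.Basis.ofVectorSpace F M
  refine ⟨_, fun i => (B i : E), fun i =>
    { toFun := fun y => ((B.coord i (P y) : F) : E)
      map_zero' := by rw [map_zero, map_zero]; rfl
      map_add' := fun x y => by rw [map_add, map_add]; rfl }, fun i => (B i).2, fun i y => (B.coord i (P y)).2,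
    fun i f hf y => ?_, fun y hy => ?_⟩
  · show ((B.coord i (P (f * y)) : F) : E) = f * ((B.coord i (P y) : F) : E)
    have h1 : f * y = (⟨f, hf⟩ : F) • y := rfl
    rw [h1, map_smul, map_smul]
    rfl
  · refine ⟨(B.repr ⟨y, hy⟩).support, fun s' hs' => ?_⟩
    have h1 : P y = ⟨y, hy⟩ := LinearMap.congr_fun hP ⟨y, hy⟩
    show y = ∑ i ∈ s', ((B.coord i (P y) : F) : E) * (B i : E)
    have h2 : ∑ i ∈ s', (B.repr ⟨y, hy⟩ i) • B i = (⟨y, hy⟩ : M) := by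
      rw [← Finset.sum_subset hs' (fun i _ hi => by rw [Finsupp.notMem_support_iff.1 hi, zero_smul])]
      exact B.linearCombination_repr ⟨y, hy⟩
    have h3 := congrArg M.subtype h2
    rw [map_sum] at h3
    rw [h1]
    refine (Eq.trans ?_ h3).symm
    rfl

end coord

end SQ.HH.Two
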