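import Pool.Agent.SQ.HH.TwoE

/-!
# SQ: induction from a subgroup, families, and the passage to the homology
-/

set_option autoImplicit false
set_option linter.unusedSectionVars false

open scoped TensorProduct

namespace SQ.HH.Two

open Singer SQ.Acr SQ.T3 SQ.T3.Tor

section up
variable {Γ K : Type} [Group Γ] [Group K] (l : K →* Γ) {E₁ E₂ : Type} [DivisionRing E₁] [DivisionRing E₂]
  [Algebra (ZMod 2) E₁] [Algebra (ZMod 2) E₂] (ρ₁ : K →* E₁ˣ) (ρ₂ : K →* E₂ˣ) (R : FinRes Γ)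

/-- a subfield as a submodule -/
def sm {E : Type} [DivisionRing E] [Algebra (ZMod 2) E] (F : Subfield E) : Submodule (ZMod 2) E where
  carrier := F
  add_mem' := fun ha hb => F.add_mem ha hb
  zero_mem' := F.zero_mem
  smul_mem' := by
    intro c x hx
    fin_cases c
    · show (0 : ZMod 2) • x ∈ F
      rw [zero_smul]; exact F.zero_mem
    · show (1 : ZMod 2) • x ∈ F
      rw [one_smul]; exact hx

/-- the projection to the trivial coset -/
theorem exists_proj (H' H : Subgroup K) (ci : BO.CosInd ρ₁ H' H) : ∃ π : E₁ →ₗ[ZMod 2] E₁,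
    (∀ x ∈ cl ρ₁ H', π x = x) ∧ ∀ x ∈ cl ρ₁ H', ∀ g ∈ H, g ∉ H' → π (x * ((ρ₁ g : E₁ˣ) : E₁)) = 0 := by
  classical
  let r : K → K := fun h => (Quotient.mk (QuotientGroup.rightRel H') h).out
  have hr1 : ∀ h, r h * h⁻¹ ∈ H' := by
    intro h
    have h1 : QuotientGroup.rightRel H' (r h) h := Quotient.mk_out (s := QuotientGroup.rightRel H') h
    exact QuotientGroup.rightRel_apply.1 ((QuotientGroup.rightRel H').symm' h1)
  have hr2 : ∀ h k, k * h⁻¹ ∈ H' → r k = r h := by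
    intro h k hk
    have h1 : (Quotient.mk (QuotientGroup.rightRel H') k) = Quotient.mk (QuotientGroup.rightRel H') h :=
      Quotient.sound (s := QuotientGroup.rightRel H') (by
        have h2 : QuotientGroup.rightRel H' h k := QuotientGroup.rightRel_apply.2 hk
        exact (QuotientGroup.rightRel H').symm' h2)
    show (Quotient.mk (QuotientGroup.rightRel H') k).out = (Quotient.mk (QuotientGroup.rightRel H') h).out
    rw [h1]
  -- the other cosets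
  let B : Submodule (ZMod 2) E₁ :=
    { carrier := {v | ∃ a : K →₀ E₁, (∀ g ∈ a.support, (∃ h ∈ H', h * g ∈ H) ∧ g ∉ H' ∧ r g = g) ∧
        (∀ g, a g ∈ cl ρ₁ H') ∧ v = a.sum fun g x => x * ((ρ₁ g : E₁ˣ) : E₁)}
      add_mem' := by
        rintro _ _ ⟨a, ha, ha', rfl⟩ ⟨b, hb, hb', rfl⟩
        refine ⟨a + b, fun g hg => ?_, fun g => ?_, ?_⟩
        · rcases Finset.mem_union.1 (Finsupp.support_add hg) with h | h
          · exact ha g h
          · exact hb g h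
        · rw [Finsupp.add_apply]; exact add_mem (ha' g) (hb' g)
        · rw [Finsupp.sum_add_index' (fun g => zero_mul _) (fun g x y => add_mul _ _ _)]
      zero_mem' := ⟨0, fun g hg => by simp at hg, fun g => by rw [Finsupp.zero_apply]; exact zero_mem _, by
        rw [Finsupp.sum_zero_index]⟩
      smul_mem' := by
        rintro c _ ⟨a, ha, ha', rfl⟩
        fin_cases c
        · exact ⟨0, fun g hg => by simp at hg, fun g => by rw [Finsupp.zero_apply]; exact zero_mem _, by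
            rw [Finsupp.sum_zero_index]; exact zero_smul _ _⟩
        · exact ⟨a, ha, ha', one_smul _ _⟩ }
  have hB : ∀ x ∈ cl ρ₁ H', ∀ g ∈ H, g ∉ H' → x * ((ρ₁ g : E₁ˣ) : E₁) ∈ B := by
    intro x hx g hg hg'
    have h1 : r g * g⁻¹ ∈ H' := hr1 g
    have h2 : g * (r g)⁻¹ ∈ H' := by
      have h3 := H'.inv_mem h1
      rwa [mul_inv_rev, inv_inv] at h3
    refine ⟨Finsupp.single (r g) (x * ((ρ₁ (g * (r g)⁻¹) : E₁ˣ) : E₁)), fun k hk => ?_, fun k => ?_, ?_⟩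
    · have h3 : k = r g := by
        by_contra h4
        exact (Finsupp.mem_support_iff.1 hk) (Finsupp.single_eq_of_ne h4)
      subst h3
      refine ⟨⟨g * (r g)⁻¹, h2, by rwa [inv_mul_cancel_right]⟩, fun h4 => hg' ?_, hr2 _ _ h1⟩
      have h5 := H'.mul_mem h2 h4
      rwa [inv_mul_cancel_right] at h5
    · rw [Finsupp.single_apply]
      split_ifs
      · exact (cl ρ₁ H').mul_mem hx (T3.mem_cl ρ₁ h2)
      · exact zero_mem _
    · rw [Finsupp.sum_single_index (zero_mul _), mul_assoc, ← Units.val_mul, ← map_mul, inv_mul_cancel_right]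
  have hdis : ∀ v ∈ cl ρ₁ H', v ∈ B → v = 0 := by
    rintro v hv ⟨a, ha, ha', hva⟩
    have h1 : (1 : K) ∉ a.support := fun h => (ha 1 h).2.1 H'.one_mem
    have hav : ∀ g ∈ a.support, g ≠ 1 := fun g hg h => h1 (h ▸ hg)
    -- the subset of `H`
    choose! c hc hc' using fun g (hg : g ∈ a.support) => (ha g hg).1
    -- translate the representatives into `H`
    let s : Finset K := insert 1 (a.support.image fun g => c g * g)
    let e : K → E₁ := fun k => if k = 1 then -v else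
      ∑ g ∈ a.support, if c g * g = k then a g * ((ρ₁ (c g)⁻¹ : E₁ˣ) : E₁) else 0
    have hinj : ∀ g ∈ a.support, ∀ g' ∈ a.support, (c g * g) * (c g' * g')⁻¹ ∈ H' → g = g' := by
      intro g hg g' hg' h2
      have h3 : g * g'⁻¹ ∈ H' := by
        have h4 := H'.mul_mem (H'.mul_mem (H'.inv_mem (hc g hg)) h2) (hc g' hg')
        have h5 : (c g)⁻¹ * (c g * g * (c g' * g')⁻¹) * c g' = g * g'⁻¹ := by group
        rwa [h5] at h4
      rw [← (ha g hg).2.2, ← (ha g' hg').2.2, hr2 g' g h3]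
    have hne : ∀ g ∈ a.support, c g * g ≠ 1 := by
      intro g hg h2
      refine (ha g hg).2.1 ?_
      have h3 : g = (c g)⁻¹ := (eq_inv_of_mul_eq_one_right h2)
      rw [h3]
      exact H'.inv_mem (hc g hg)
    have hsum : ∑ k ∈ s, e k * ((ρ₁ k : E₁ˣ) : E₁) = 0 := by
      have h1s : (1 : K) ∉ a.support.image fun g => c g * g := by
        intro h
        obtain ⟨g, hg, hg'⟩ := Finset.mem_image.1 h
        exact hne g hg hg'
      rw [Finset.sum_insert h1s, Finset.sum_image (fun g hg g' hg' h => hinj g hg g' hg' (by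
        rw [h, mul_inv_cancel]; exact H'.one_mem))]
      have h2 : e 1 * ((ρ₁ 1 : E₁ˣ) : E₁) = -v := by
        show (if (1 : K) = 1 then -v else _) * ((ρ₁ 1 : E₁ˣ) : E₁) = -v
        rw [if_pos rfl, map_one, Units.val_one, mul_one]
      have h3 : ∑ g ∈ a.support, e (c g * g) * ((ρ₁ (c g * g) : E₁ˣ) : E₁) = v := by
        rw [hva, Finsupp.sum]
        refine Finset.sum_congr rfl fun g hg => ?_
        have h4 : e (c g * g) = a g * ((ρ₁ (c g)⁻¹ : E₁ˣ) : E₁) := by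
          show (if c g * g = 1 then -v else _) = _
          rw [if_neg (hne g hg), Finset.sum_eq_single g]
          · rw [if_pos rfl]
          · intro g' hg' hgg
            rw [if_neg]
            intro h5
            exact hgg (hinj g' hg' g hg (by rw [h5, mul_inv_cancel]; exact H'.one_mem))
          · intro h; exact absurd hg h
        rw [h4, mul_assoc, ← Units.val_mul, ← map_mul, inv_mul_cancel_left]
      rw [h2, h3, neg_add_cancel]
    have h2 := ci s e ?_ ?_ ?_ hsum 1 (Finset.mem_insert_self _ _)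
    · have h3 : e 1 = -v := if_pos rfl
      rw [h3, neg_eq_zero] at h2
      exact h2
    · intro k hk
      rcases Finset.mem_insert.1 hk with rfl | hk
      · exact H.one_mem
      · obtain ⟨g, hg, rfl⟩ := Finset.mem_image.1 hk
        exact hc' g hg
    · intro k hk k' hk' h3
      rcases Finset.mem_insert.1 hk with rfl | hk
      · rcases Finset.mem_insert.1 hk' with rfl | hk'
        · rfl
        · obtain ⟨g, hg, rfl⟩ := Finset.mem_image.1 hk'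
          exfalso
          rw [one_mul] at h3
          refine (ha g hg).2.1 ?_
          have h4 := H'.mul_mem (H'.inv_mem (hc g hg)) (H'.inv_mem h3)
          rwa [inv_inv, inv_mul_cancel_left] at h4
      · obtain ⟨g, hg, rfl⟩ := Finset.mem_image.1 hk
        rcases Finset.mem_insert.1 hk' with rfl | hk'
        · exfalso
          rw [inv_one, mul_one] at h3
          refine (ha g hg).2.1 ?_
          have h4 := H'.mul_mem (H'.inv_mem (hc g hg)) h3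
          rwa [inv_mul_cancel_left] at h4
        · obtain ⟨g', hg', rfl⟩ := Finset.mem_image.1 hk'
          rw [hinj g hg g' hg' h3]
    · intro k hk
      by_cases hk1 : k = 1
      · have h3 : e k = -v := if_pos hk1
        rw [h3]; exact neg_mem hv
      · have h3 : e k = ∑ g ∈ a.support, if c g * g = k then a g * ((ρ₁ (c g)⁻¹ : E₁ˣ) : E₁) else 0 := if_neg hk1
        rw [h3]
        refine sum_mem fun g hg => ?_
        split_ifs
        · exact (cl ρ₁ H').mul_mem (ha' g) (T3.mem_cl ρ₁ (H'.inv_mem (hc g hg)))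
        · exact zero_mem _
  -- the projection
  have hinj : Function.Injective (B.mkQ ∘ₗ (sm (cl ρ₁ H')).subtype) := by
    rw [← LinearMap.ker_eq_bot, LinearMap.ker_eq_bot']
    intro x hx
    have h1 : (x : E₁) ∈ B := (Submodule.Quotient.mk_eq_zero B).1 hx
    exact Subtype.ext (hdis x x.2 h1)
  obtain ⟨f, hf⟩ := LinearMap.exists_leftInverse_of_injective _ (LinearMap.ker_eq_bot.2 hinj)
  refine ⟨(sm (cl ρ₁ H')).subtype ∘ₗ f ∘ₗ B.mkQ, fun x hx => ?_, fun x hx g hg hg' => ?_⟩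
  · exact congrArg Subtype.val (LinearMap.congr_fun hf ⟨x, hx⟩)
  · have h1 : B.mkQ (x * ((ρ₁ g : E₁ˣ) : E₁)) = 0 := (Submodule.Quotient.mk_eq_zero B).2 (hB x hx g hg hg')
    rw [LinearMap.comp_apply, LinearMap.comp_apply, h1, map_zero, map_zero]

/-- a linear map of the second factor -/
noncomputable def T2x (α : Type) (f : E₂ →ₗ[ZMod 2] E₂) : Tc Γ E₁ E₂ α →ₗ[ZMod 2] Tc Γ E₁ E₂ α :=
  (TensorProduct.map LinearMap.id f).lTensor _

lemma T2x_tmul {α : Type} (f : E₂ →ₗ[ZMod 2] E₂) (p : α → MonoidAlgebra (ZMod 2) Γ) (x : E₁) (y : E₂) :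
    T2x α f (p ⊗ₜ[ZMod 2] (x ⊗ₜ[ZMod 2] y)) = p ⊗ₜ[ZMod 2] (x ⊗ₜ[ZMod 2] f y) := rfl

lemma T2x_d {α β : Type} [Fintype α] (P : Matrix α β (MonoidAlgebra ℤ Γ)) (f : E₂ →ₗ[ZMod 2] E₂) (z : Tc Γ E₁ E₂ α) :
    (dd P).rTensor (E₁ ⊗[ZMod 2] E₂) (T2x α f z) = T2x β f ((dd P).rTensor (E₁ ⊗[ZMod 2] E₂) z) :=
  ext3 ((dd P).rTensor _ ∘ₗ T2x α f) (T2x β f ∘ₗ (dd P).rTensor _) (fun _ _ _ => by
    rw [LinearMap.comp_apply, LinearMap.comp_apply, T2x_tmul, LinearMap.rTensor_tmul, LinearMap.rTensor_tmul, T2x_tmul]) z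

/-- the coordinates for a smaller group -/
lemma nu_proj (hl : Function.Injective l) {H' H : Subgroup K} (le : H' ≤ H) (π : E₁ →ₗ[ZMod 2] E₁)
    (h1 : ∀ x ∈ cl ρ₁ H', π x = x) (h2 : ∀ x ∈ cl ρ₁ H', ∀ g ∈ H, g ∉ H' → π (x * ((ρ₁ g : E₁ˣ) : E₁)) = 0)
    {α : Type} [Fintype α] (k : Γ) (b : α) {B : Set E₂} {z : Tc Γ E₁ E₂ α} (hz : z ∈ Ch Γ α (cl ρ₁ H' : Set E₁) B) :
    TensorProduct.map π LinearMap.id (nu l ρ₁ ρ₂ H α k b z) = nu l ρ₁ ρ₂ H' α k b z := by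
  classical
  refine Ch.ind (p := fun z => TensorProduct.map π LinearMap.id (nu l ρ₁ ρ₂ H α k b z) = nu l ρ₁ ρ₂ H' α k b z)
    (by simp only [map_zero]) (fun x y hx hy => by simp only [map_add, hx, hy]) (fun a h x hx y _ => ?_) hz
  rw [nu_bas, nu_bas]
  by_cases hb : b = a
  · rw [if_pos hb, if_pos hb]
    by_cases hg : ∃ g ∈ H, l g = k * h⁻¹
    · obtain ⟨g, hg, hgh⟩ := hg
      rw [← hgh, pt_l l ρ₁ ρ₂ hl hg, ten_tmul, TensorProduct.map_tmul]
      by_cases hg' : g ∈ H'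
      · rw [pt_l l ρ₁ ρ₂ hl hg', ten_tmul, h1 _ ((cl ρ₁ H').mul_mem hx (T3.mem_cl ρ₁ (H'.inv_mem hg')))]
        rfl
      · rw [h2 x hx g⁻¹ (H.inv_mem hg) (fun h3 => hg' (by simpa using H'.inv_mem h3)), TensorProduct.zero_tmul, pt_no]
        · rfl
        · rintro ⟨g', hg1, hg2⟩
          exact hg' (hl hg2 ▸ hg1)
    · rw [pt_no l ρ₁ ρ₂ hg, pt_no, LinearMap.zero_apply, map_zero]
      rintro ⟨g', hg1, hg2⟩
      exact hg ⟨g', le hg1, hg2⟩
  · rw [if_neg hb, if_neg hb, map_zero]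

/-- the coordinates and left linear maps of the second factor -/
lemma nu_T2x (hl : Function.Injective l) {H' : Subgroup K} (f : E₂ →ₗ[ZMod 2] E₂)
    (h1 : ∀ x ∈ cl ρ₂ H', ∀ y, f (x * y) = x * f y) {α : Type} [Fintype α] (k : Γ) (b : α) (z : Tc Γ E₁ E₂ α) :
    nu l ρ₁ ρ₂ H' α k b (T2x α f z) = TensorProduct.map LinearMap.id f (nu l ρ₁ ρ₂ H' α k b z) := by
  classical
  refine Ch.ind (p := fun z => nu l ρ₁ ρ₂ H' α k b (T2x α f z) = TensorProduct.map LinearMap.id f (nu l ρ₁ ρ₂ H' α k b z))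
    (by simp only [map_zero]) (fun x y hx hy => by simp only [map_add, hx, hy]) (fun a h x _ y _ => ?_)
    (Ch.univ α z)
  rw [T2x_tmul, nu_bas, nu_bas]
  by_cases hb : b = a
  · rw [if_pos hb, if_pos hb]
    by_cases hg : ∃ g ∈ H', l g = k * h⁻¹
    · obtain ⟨g, hg, hgh⟩ := hg
      rw [← hgh, pt_l l ρ₁ ρ₂ hl hg, ten_tmul, ten_tmul, TensorProduct.map_tmul, LinearMap.id_apply,
        h1 _ (T3.mem_cl ρ₂ hg)]
    · rw [pt_no l ρ₁ ρ₂ hg, LinearMap.zero_apply, LinearMap.zero_apply, map_zero]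
  · rw [if_neg hb, if_neg hb, map_zero]

/-- the decomposition of a chain -/
lemma T2x_sum {ι : Type} {A : Set E₁} {L : Subfield E₂} {b : ι → E₂} {co : ι → (E₂ →+ E₂)}
    (h : ∀ y ∈ L, ∃ s : Finset ι, ∀ s', s ⊆ s' → y = ∑ i ∈ s', co i y * b i) {α : Type} {z : Tc Γ E₁ E₂ α}
    (hz : z ∈ Ch Γ α A (L : Set E₂)) : ∃ s : Finset ι, ∀ s', s ⊆ s' →
      z = ∑ i ∈ s', Rx α (b i) (T2x α ((co i).toZModLinearMap 2) z) := by
  classical
  refine Submodule.span_induction (p := fun z _ => ∃ s : Finset ι, ∀ s', s ⊆ s' →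
      z = ∑ i ∈ s', Rx α (b i) (T2x α ((co i).toZModLinearMap 2) z)) ?_ ?_ ?_ ?_ hz
  · rintro _ ⟨p, x, hx, y, hy, rfl⟩
    obtain ⟨s, hs⟩ := h y hy
    refine ⟨s, fun s' hs' => ?_⟩
    simp only [T2x_tmul, Rx_tmul]
    rw [← TensorProduct.tmul_sum, ← TensorProduct.tmul_sum]
    congr 2
    exact hs s' hs'
  · exact ⟨∅, fun s' _ => by simp only [map_zero, Finset.sum_const_zero]⟩
  · rintro x y _ _ ⟨s, hs⟩ ⟨t, ht⟩
    refine ⟨s ∪ t, fun s' hs' => ?_⟩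
    simp only [map_add, Finset.sum_add_distrib]
    rw [← hs s' (Finset.union_subset_left hs'), ← ht s' (Finset.union_subset_right hs')]
  · rintro c x _ ⟨s, hs⟩
    refine ⟨s, fun s' hs' => ?_⟩
    simp only [map_smul]
    rw [← Finset.smul_sum, ← hs s' hs']

/-- **induction from a subgroup** -/
theorem Va_up (hl : Function.Injective l) {H' H : Subgroup K} (le : H' ≤ H) (ci : BO.CosInd ρ₁ H' H) {X' X : Set E₁}
    (mem : ∀ x ∈ X', x ∈ cl ρ₁ H') (hV : Va l ρ₁ ρ₂ R H' X')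
    (h : ∀ x ∈ X, ∃ x' ∈ X', ∃ g ∈ H, x = x' * ((ρ₁ g : E₁ˣ) : E₁)) : Va l ρ₁ ρ₂ R H X := by
  classical
  intro q c hc hd
  -- translation to the trivial coset
  have h1 : c ∈ Ch Γ (R.ι (q + 1)) X' (cl ρ₂ H : Set E₂) ⊔ Iv l ρ₁ ρ₂ (R.ι (q + 1)) H := by
    refine Ch.map LinearMap.id _ (fun p x hx y hy => ?_) hc
    rw [LinearMap.id_apply]
    obtain ⟨x', hx', g, hg, rfl⟩ := h x hx
    have h2 : sg l ρ₁ ρ₂ (R.ι (q + 1)) g (p ⊗ₜ[ZMod 2] ((x' * ((ρ₁ g : E₁ˣ) : E₁)) ⊗ₜ[ZMod 2] y)) =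
        Acr.lam (R.ι (q + 1)) (l g) p ⊗ₜ[ZMod 2] (x' ⊗ₜ[ZMod 2] (((ρ₂ g : E₂ˣ) : E₂) * y)) := by
      rw [sg_tmul, mul_assoc, ← Units.val_mul, ← map_mul, mul_inv_cancel, map_one, Units.val_one, mul_one]
    have h3 := Iv.mk l ρ₁ ρ₂ hg (Ch.mk (α := R.ι (q + 1)) p
      ((cl ρ₁ H).mul_mem (cl_mono ρ₁ le (mem x' hx')) (T3.mem_cl ρ₁ hg)) hy)
    have h4 : p ⊗ₜ[ZMod 2] ((x' * ((ρ₁ g : E₁ˣ) : E₁)) ⊗ₜ[ZMod 2] y) =
        Acr.lam (R.ι (q + 1)) (l g) p ⊗ₜ[ZMod 2] (x' ⊗ₜ[ZMod 2] (((ρ₂ g : E₂ˣ) : E₂) * y)) -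
        (sg l ρ₁ ρ₂ (R.ι (q + 1)) g (p ⊗ₜ[ZMod 2] ((x' * ((ρ₁ g : E₁ˣ) : E₁)) ⊗ₜ[ZMod 2] y)) -
          p ⊗ₜ[ZMod 2] ((x' * ((ρ₁ g : E₁ˣ) : E₁)) ⊗ₜ[ZMod 2] y)) := by
      rw [h2, sub_sub_cancel]
    rw [h4]
    exact sub_mem (Submodule.mem_sup_left (Ch.mk _ hx' ((cl ρ₂ H).mul_mem (T3.mem_cl ρ₂ hg) hy)))
      (Submodule.mem_sup_right h3)
  obtain ⟨c', hc', i, hi, rfl⟩ := Submodule.mem_sup.1 h1
  have hd' : bd R q c' ∈ Iv l ρ₁ ρ₂ (R.ι q) H := by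
    have h3 := sub_mem hd (Iv.d l ρ₁ ρ₂ (R.d q) hi)
    rwa [map_add, add_sub_cancel_right] at h3
  refine add_mem ?_ (Iv.le_Bv l ρ₁ ρ₂ R H _ hi)
  -- the coordinates
  obtain ⟨ι, b, co, hb, hco1, hco2, hco3⟩ := exists_coord (cl ρ₂ H') (cl ρ₂ H) (cl_mono ρ₂ le)
  obtain ⟨π, hπ1, hπ2⟩ := exists_proj ρ₁ H' H ci
  obtain ⟨s, hs⟩ := T2x_sum hco3 hc'
  rw [hs s (Finset.Subset.refl s)]
  refine sum_mem fun i _ => Bv.Rx l ρ₁ ρ₂ R (hb i) (Bv.mono l ρ₁ ρ₂ R le _ ?_)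
  refine hV q _ (Ch.map _ _ (fun p x hx y hy => ?_) hc') ?_
  · rw [T2x_tmul]
    exact Ch.mk _ hx (hco1 i y)
  · have h2 : bd R q (T2x (R.ι (q + 1)) ((co i).toZModLinearMap 2) c') =
        T2x (R.ι q) ((co i).toZModLinearMap 2) (bd R q c') := T2x_d (R.d q) _ c'
    rw [h2]
    have h3 : bd R q c' ∈ Ch Γ (R.ι q) (cl ρ₁ H' : Set E₁) (cl ρ₂ H : Set E₂) :=
      Ch.d (R.d q) (Ch.mono (fun x hx => mem x hx) (fun _ hy => hy) hc')
    refine Iv_of_nu l ρ₁ ρ₂ hl H' (Ch.map _ _ (fun p x hx y hy => ?_) h3) (fun k b => ?_)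
    · rw [T2x_tmul]
      exact Ch.mk _ hx (hco1 i y)
    · rw [nu_T2x l ρ₁ ρ₂ hl _ (fun x hx y => hco2 i x hx y), ← nu_proj l ρ₁ ρ₂ hl le π hπ1 hπ2 k b h3,
        nu_Iv l ρ₁ ρ₂ hl H k b hd', map_zero, map_zero]

/-- **families** -/
theorem Va_fam (hl : Function.Injective l) (h : LinearIndependent (ZMod 2) fun g : K => ((ρ₁ g : E₁ˣ) : E₁))
    {H : Subgroup K} {X : Set E₁} (hX : BO.Fam ρ₁ ρ₂ H X) : Va l ρ₁ ρ₂ R H X := by
  induction hX with
  | base H X hX =>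
    refine Va.mono l ρ₁ ρ₂ R (fun x hx => ?_) (Va_zero l ρ₁ ρ₂ hl R h H)
    obtain ⟨n, hn, hn'⟩ := hX x hx
    have h2 : (2 : E₁) = 0 := by
      have h3 : algebraMap (ZMod 2) E₁ 2 = 2 := map_ofNat _ 2
      rw [← h3]
      have h4 : (2 : ZMod 2) = 0 := rfl
      rw [h4, map_zero]
    rcases Nat.even_or_odd' n with ⟨m, rfl | rfl⟩
    · exact absurd (by push_cast; rw [h2, zero_mul]) hn
    · have h3 : ((2 * m + 1 : ℕ) : E₁) = 1 := by push_cast; rw [h2, zero_mul, zero_add]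
      rwa [h3, one_mul] at hn'
  | up H' H X' X le ci mem _ hX ih => exact Va_up l ρ₁ ρ₂ R hl le ci mem ih hX
  | step N H t X zp S1 S2 mem _ ih =>
    refine zstep l ρ₁ ρ₂ R N H t S1 S2 zp.le zp.mem (fun u g hg => ?_) zp.gen mem
      (G' := {y | ∃ x ∈ X, ∃ u : ℤ, y = S1.κ x u}) (fun x hx u => ⟨x, hx, u, rfl⟩)
      (Va_of_fin l ρ₁ ρ₂ R fun Y hY hY' => ih Y hY hY')
    exact zp.conj _ (H.zpow_mem zp.mem u) g hg

end up

/-! ### the homology -/

section hv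
variable {Γ K : Type} [Group Γ] [Group K] (l : K →* Γ) {E₁ E₂ : Type} [DivisionRing E₁] [DivisionRing E₂]
  [Algebra (ZMod 2) E₁] [Algebra (ZMod 2) E₂] (ρ₁ : K →* E₁ˣ) (ρ₂ : K →* E₂ˣ) (R : FinRes Γ)

/-- the vanishing of the homology from the statement of the induction -/
theorem HV_of_Va (h1 : cl ρ₁ (⊤ : Subgroup K) = ⊤) (h2 : cl ρ₂ (⊤ : Subgroup K) = ⊤)
    (hV : ∀ X : Set E₁, X.Finite → Va l ρ₁ ρ₂ R ⊤ X) (j : ℕ) : HV l (ten ρ₁ ρ₂) R j := by
  have hI : ∀ α : Type, Iv l ρ₁ ρ₂ α ⊤ = Ivl l (ten ρ₁ ρ₂) α := by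
    intro α
    rw [Iv, Ivl, h1, h2]
    congr 1
    ext z
    constructor
    · rintro ⟨g, -, x, -, rfl⟩
      exact ⟨g, x, rfl⟩
    · rintro ⟨g, x, rfl⟩
      exact ⟨g, trivial, x, by simpa using Ch.univ α x, rfl⟩
  intro c hc
  have hV' : Va l ρ₁ ρ₂ R ⊤ (Set.univ : Set E₁) := Va_of_fin l ρ₁ ρ₂ R fun X hX _ => hV X hX
  have h3 : c ∈ Ch Γ (R.ι (j + 1)) (Set.univ : Set E₁) (cl ρ₂ (⊤ : Subgroup K) : Set E₂) := by
    rw [h2]; simpa using Ch.univ (R.ι (j + 1)) c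
  obtain ⟨_, ⟨b, -, rfl⟩, i, hi, hsum⟩ := Submodule.mem_sup.1 (hV' j c h3 (by rw [hI]; exact hc))
  refine ⟨b, ?_⟩
  rw [← hI, ← hsum]
  have h4 : bd R (j + 1) b + i - bdl (E₁ ⊗[ZMod 2] E₂) R (j + 1) b = i := add_sub_cancel_left _ _
  rw [h4]
  exact hi

end hv

end SQ.HH.Two
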